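import Pool.Agent.helper75.FL.CDer

/-!
# MP_f09395_gt, boosted layer: the third order form of `φ + l(c) n`, `l` vanishing to first order
-/

set_option linter.unusedSectionVars false

noncomputable section

namespace Pool.Agent.helper75.FL

open scoped ContDiff
open Pool.Agent.Helper93.Fin Pool.Agent.helper79.FP Pool.Agent.helper79.FR
open Filter Topology

variable {𝔸 : Type*} [NormedRing 𝔸] [NormedAlgebra ℝ 𝔸] [FiniteDimensional ℝ 𝔸]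
variable {g h m : Submodule ℝ 𝔸} {Q : 𝔸 →ₗ[ℝ] 𝔸 →ₗ[ℝ] ℝ} {P : 𝔸 →L[ℝ] m} {φ ψ n : m → ℝ}
variable {h0 : 𝔸} {B : m → 𝔸} {c : m → ℝ}

/-- the direction of the Euler flow of `φ` -/
def ee {m : Submodule ℝ 𝔸} (Q : 𝔸 →ₗ[ℝ] 𝔸 →ₗ[ℝ] ℝ) (P : 𝔸 →L[ℝ] m) (φ : m → ℝ) (u : m) : m :=
  P ⁅(u : 𝔸), (gx Q φ u : 𝔸)⁆

/-- second derivative of `n` along the Euler flow of `φ` (pointwise formula) -/
def E2 {m : Submodule ℝ 𝔸} (Q : 𝔸 →ₗ[ℝ] 𝔸 →ₗ[ℝ] ℝ) (P : 𝔸 →L[ℝ] m) (φ n : m → ℝ) (u : m) : ℝ :=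
  D2 n u (ee Q P φ u) (ee Q P φ u) - D2 φ u (ee Q P φ u) (ee Q P n u)
    + Q ⁅(gx Q φ u : 𝔸), (gx Q n u : 𝔸)⁆ (ee Q P φ u)

theorem lie_smul' (r : ℝ) (X Y : 𝔸) : ⁅X, r • Y⁆ = r • ⁅X, Y⁆ := by
  simp only [Ring.lie_def, smul_mul_assoc, mul_smul_comm, smul_sub]

theorem lie_add' (X Y Z : 𝔸) : ⁅X, Y + Z⁆ = ⁅X, Y⁆ + ⁅X, Z⁆ := by
  simp only [Ring.lie_def, add_mul, mul_add]; abel

/-- **Lemma J** -/
theorem lemJ (hN : NData g h m Q P) (hC : Cas g h m Q P h0 B c) (hφ : PhiN h m P φ)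
    (hn : ContDiffOn ℝ ∞ n {0}ᶜ) {l : ℝ → ℝ} (hl : ContDiff ℝ ∞ l) {u b : m} (hF : Flag Q u b)
    (ha : al P h0 φ u b = 0) (l0 : l (c u) = 0) (l1 : deriv l (c u) = 0) :
    T3F Q P (fun z => φ z + l (c z) * n z) u b =
      T3F Q P φ u b - (1 / 2) * (D1 c u b ^ 2 * deriv (deriv l) (c u)) * E2 Q P φ n u := by
  have hu := hF.ne hN
  have hc := hC.csm
  have hlc := comp_smooth hl hc
  have hρ : ContDiffOn ℝ ∞ (fun z => l (c z) * n z) {0}ᶜ := hlc.mul hn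
  obtain ⟨l2, hl2⟩ : ∃ r, r = deriv (deriv l) (c u) := ⟨_, rfl⟩
  obtain ⟨l3, hl3⟩ : ∃ r, r = deriv (deriv (deriv l)) (c u) := ⟨_, rfl⟩
  obtain ⟨l4, hl4⟩ : ∃ r, r = deriv (deriv (deriv (deriv l))) (c u) := ⟨_, rfl⟩
  obtain ⟨C1, hC1⟩ : ∃ r, r = D1 c u b := ⟨_, rfl⟩
  obtain ⟨Cb, hCb⟩ : ∃ r, r = D2 c u b b := ⟨_, rfl⟩
  obtain ⟨x, hx⟩ : ∃ x : m, x = gx Q φ u := ⟨_, rfl⟩
  obtain ⟨s, hs⟩ : ∃ s : m, s = gs Q φ u b := ⟨_, rfl⟩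
  obtain ⟨y, hy⟩ : ∃ y : m, y = gy Q φ u b := ⟨_, rfl⟩
  obtain ⟨xn, hxn⟩ : ∃ x : m, x = gx Q n u := ⟨_, rfl⟩
  obtain ⟨e, he⟩ : ∃ e : m, e = P ⁅(u : 𝔸), (x : 𝔸)⁆ := ⟨_, rfl⟩
  obtain ⟨p, hp⟩ : ∃ p : m, p = P ⁅(b : 𝔸), (x : 𝔸)⁆ := ⟨_, rfl⟩
  obtain ⟨q, hq⟩ : ∃ q : m, q = P ⁅(u : 𝔸), (s : 𝔸)⁆ := ⟨_, rfl⟩
  obtain ⟨en, hen⟩ : ∃ q : m, q = P ⁅(u : 𝔸), (xn : 𝔸)⁆ := ⟨_, rfl⟩
  have em : (P ⁅(u : 𝔸), (x : 𝔸)⁆ : 𝔸) = ⁅(u : 𝔸), (x : 𝔸)⁆ := by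
    rw [hx]; exact e_mem hN hφ hu (gx_spec hN u)
  have pm : (P ⁅(b : 𝔸), (x : 𝔸)⁆ : 𝔸) = ⁅(b : 𝔸), (x : 𝔸)⁆ := by
    rw [hx]; exact p_mem hN hC ha
  have em' : (e : 𝔸) = ⁅(u : 𝔸), (x : 𝔸)⁆ := by rw [he, em]
  have pm' : (p : 𝔸) = ⁅(b : 𝔸), (x : 𝔸)⁆ := by rw [hp, pm]
  have hbu : Q (b : 𝔸) u = 0 := by rw [hN.Qsymm]; exact hF.2.2.1
  have hbr : ⁅(b : 𝔸), (u : 𝔸)⁆ = 0 := by rw [skew, hF.2.2.2, neg_zero]
  have hbb : ⁅(b : 𝔸), (b : 𝔸)⁆ = 0 := by simp [Ring.lie_def]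
  have huu : ⁅(u : 𝔸), (u : 𝔸)⁆ = 0 := by simp [Ring.lie_def]
  -- first derivatives of `c`
  have cb : ∀ a : m, D1 c u a = C1 * Q (b : 𝔸) a := fun a => by rw [flag_cD1 hN hC hF, hC1]
  have Qbe : Q (b : 𝔸) e = 0 := by
    rw [em', ← hN.Qinv, hbr]; simp
  have Qbp : Q (b : 𝔸) p = 0 := by rw [pm', Q_self_lie' hN]
  have Qbq : Q (b : 𝔸) q = 0 := by
    rw [hq, Q_P hN b (lm hN _ _), ← hN.Qinv, hbr]; simp
  have Qben : Q (b : 𝔸) en = 0 := by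
    rw [hen, Q_P hN b (lm hN _ _), ← hN.Qinv, hbr]; simp
  have ce : D1 c u e = 0 := by rw [cb, Qbe, mul_zero]
  have cp : D1 c u p = 0 := by rw [cb, Qbp, mul_zero]
  have cq : D1 c u q = 0 := by rw [cb, Qbq, mul_zero]
  have cY : D1 c u ((2 : ℝ) • p - q) = 0 := by
    rw [cb, Submodule.coe_sub, Submodule.coe_smul, map_sub, map_smul, Qbp, Qbq]; simp
  -- second derivatives of `c`
  have cbb' : ∀ a : m, D2 c u b a = Cb * Q (b : 𝔸) a - C1 * Q (u : 𝔸) a := fun a => by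
    rw [flag_cD2b hN hC hF, hC1, hCb]
  have Que : Q (u : 𝔸) e = 0 := by rw [em', Q_self_lie' hN]
  have cbe : D2 c u b e = 0 := by rw [cbb', Qbe, Que]; ring
  have cae : ∀ a : m, D2 c u a e = C1 * Q (p : 𝔸) a := fun a => by
    rw [he, flag_cD2e hN hC hF (mg hN x) em, hC1, pm']
  have cee : D2 c u e e = C1 * Q (p : 𝔸) e := cae e
  have ceY : D2 c u e ((2 : ℝ) • p - q) = C1 * (2 * Q (p : 𝔸) p - Q (p : 𝔸) q) := by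
    rw [D2_symm hc hu, cae, Submodule.coe_sub, Submodule.coe_smul, map_sub, map_smul, smul_eq_mul]
  have cbee : D3 c u b e e = Cb * Q (p : 𝔸) e - C1 * Q (e : 𝔸) e - C1 * Q (p : 𝔸) p := by
    rw [D3_symm13 hc hu, flag_cD3 hN hC hF (mg hN x) em pm he hp, hC1, hCb]
  -- derivatives of `l ∘ c`
  have z1 : ∀ a : m, D1 (fun z => l (c z)) u a = 0 := fun a => by
    rw [comp_D1 hl hc hu, l1, zero_mul]
  have z2 : ∀ a v : m, D2 (fun z => l (c z)) u a v = l2 * (D1 c u a * D1 c u v) := fun a v => by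
    rw [comp_D2 hl hc hu, l1, hl2]; ring
  have z3 : ∀ a v w : m, D3 (fun z => l (c z)) u a v w =
      l2 * (D1 c u a * D2 c u v w + D1 c u v * D2 c u a w + D1 c u w * D2 c u a v)
      + l3 * (D1 c u a * D1 c u v * D1 c u w) := fun a v w => by
    rw [comp_D3 hl hc hu, l1, hl2, hl3]; ring
  -- derivatives of the product
  have r1 : ∀ a : m, D1 (fun z => l (c z) * n z) u a = 0 := fun a => by
    rw [D1_mul hlc hn hu, l0, z1]; ring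
  have r2 : ∀ a v : m, D2 (fun z => l (c z) * n z) u a v =
      n u * (l2 * (D1 c u a * D1 c u v)) := fun a v => by
    rw [D2_mul hlc hn hu, l0, z1, z1, z2]; ring
  have r3 : ∀ a v w : m, D3 (fun z => l (c z) * n z) u a v w =
      n u * D3 (fun z => l (c z)) u a v w
      + l2 * (D1 n u a * (D1 c u v * D1 c u w) + D1 n u v * (D1 c u a * D1 c u w)
        + D1 n u w * (D1 c u a * D1 c u v)) := fun a v w => by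
    rw [D3_mul hlc hn hu, l0, z1, z1, z1, z2, z2, z2]; ring
  -- the data of `ψ`
  obtain ⟨ψ, hψ⟩ : ∃ ψ : m → ℝ, ψ = fun z => φ z + l (c z) * n z := ⟨_, rfl⟩
  have w1 : ∀ a : m, D1 ψ u a = D1 φ u a := fun a => by
    rw [hψ, D1_sum hφ.smooth hρ hu, r1, add_zero]
  have w2 : ∀ a v : m, D2 ψ u a v = D2 φ u a v + n u * (l2 * (D1 c u a * D1 c u v)) :=
    fun a v => by rw [hψ, D2_sum hφ.smooth hρ hu, r2]
  have w3 : ∀ a v w : m, D3 ψ u a v w = D3 φ u a v w + (n u *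
      (l2 * (D1 c u a * D2 c u v w + D1 c u v * D2 c u a w + D1 c u w * D2 c u a v)
      + l3 * (D1 c u a * D1 c u v * D1 c u w))
      + l2 * (D1 n u a * (D1 c u v * D1 c u w) + D1 n u v * (D1 c u a * D1 c u w)
        + D1 n u w * (D1 c u a * D1 c u v))) :=
    fun a v w => by rw [hψ, D3_sum hφ.smooth hρ hu, r3, z3]
  have w4 : D4 ψ u b b e e = D4 φ u b b e e + (n u * (l2 * (2 * C1 * D3 c u b e e
        + Cb * D2 c u e e) + l3 * (C1 * C1 * D2 c u e e))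
      + 2 * (D1 n u b * (l2 * (C1 * D2 c u e e)))
      + l2 * (C1 * C1) * D2 n u e e) := by
    rw [hψ, D4_sum hφ.smooth hρ hu, D4_mul hlc hn hu, comp_D4 hl hc hu]
    simp only [z1, z2, z3, l0, l1, ← hl2, ← hl3, ← hl4, cbe, ce, ← hC1, ← hCb]
    ring
  -- gradient data
  obtain ⟨k2, hk2⟩ : ∃ r, r = n u * (3 * l2 * C1 * Cb + l3 * C1 ^ 3) + 2 * l2 * C1 ^ 2 * D1 n u b :=
    ⟨_, rfl⟩
  obtain ⟨k3, hk3⟩ : ∃ r, r = -(2 * n u * l2 * C1 ^ 2) := ⟨_, rfl⟩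
  obtain ⟨k1, hk1⟩ : ∃ r, r = n u * l2 * C1 ^ 2 := ⟨_, rfl⟩
  obtain ⟨k0, hk0⟩ : ∃ r, r = l2 * C1 ^ 2 := ⟨_, rfl⟩
  have hxs : ∀ w : m, Q (x : 𝔸) w = D1 ψ u w := fun w => by rw [w1, hx, gx_spec hN]
  have hss : ∀ w : m, Q ((s + k1 • b : m) : 𝔸) w = D2 ψ u b w := fun w => by
    rw [w2, Submodule.coe_add, Submodule.coe_smul, map_add, map_smul, LinearMap.add_apply,
      LinearMap.smul_apply, smul_eq_mul, hs, gs_spec hN, cb w, ← hC1, hk1]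
    ring
  have hys : ∀ w : m, Q ((y + k0 • xn + k2 • b + k3 • u : m) : 𝔸) w = D3 ψ u b b w := fun w => by
    rw [w3]
    simp only [Submodule.coe_add, Submodule.coe_smul, map_add, map_smul, LinearMap.add_apply,
      LinearMap.smul_apply, smul_eq_mul]
    rw [hy, gy_spec hN, hxn, gx_spec hN, cbb' w, cb w, ← hC1, ← hCb, hk0, hk2, hk3]
    ring
  have A1 : P ⁅(u : 𝔸), ((s + k1 • b : m) : 𝔸)⁆ = q := by
    rw [Submodule.coe_add, Submodule.coe_smul, lie_add', lie_smul', hF.2.2.2, smul_zero,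
      add_zero, hq]
  have A2 : P ((2 : ℝ) • ⁅(b : 𝔸), ((s + k1 • b : m) : 𝔸)⁆ +
      ⁅(u : 𝔸), ((y + k0 • xn + k2 • b + k3 • u : m) : 𝔸)⁆) =
      P ((2 : ℝ) • ⁅(b : 𝔸), (s : 𝔸)⁆ + ⁅(u : 𝔸), (y : 𝔸)⁆) + k0 • en := by
    simp only [Submodule.coe_add, Submodule.coe_smul, lie_add', lie_smul', hF.2.2.2, hbb, huu,
      smul_zero, add_zero]
    rw [← add_assoc, map_add, map_smul, hen]
  have B1 : Q (⁅(x : 𝔸), ((s + k1 • b : m) : 𝔸)⁆) ((p - q : m) : 𝔸) =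
      Q ⁅(x : 𝔸), (s : 𝔸)⁆ ((p - q : m) : 𝔸) - k1 * (Q (p : 𝔸) p - Q (p : 𝔸) q) := by
    have h1 : ⁅(x : 𝔸), (b : 𝔸)⁆ = -(p : 𝔸) := by rw [skew, pm']
    simp only [Submodule.coe_add, Submodule.coe_sub, Submodule.coe_smul, lie_add', lie_smul',
      map_add, map_smul, LinearMap.add_apply, LinearMap.smul_apply, smul_eq_mul, h1, map_neg,
      LinearMap.neg_apply, map_sub]
    ring
  have B2 : Q ⁅(x : 𝔸), ((y + k0 • xn + k2 • b + k3 • u : m) : 𝔸)⁆ (e : 𝔸) =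
      Q ⁅(x : 𝔸), (y : 𝔸)⁆ e + k0 * Q ⁅(x : 𝔸), (xn : 𝔸)⁆ e - k2 * Q (p : 𝔸) e
      - k3 * Q (e : 𝔸) e := by
    have h1 : ⁅(x : 𝔸), (b : 𝔸)⁆ = -(p : 𝔸) := by rw [skew, pm']
    have h2 : ⁅(x : 𝔸), (u : 𝔸)⁆ = -(e : 𝔸) := by rw [skew, em']
    simp only [Submodule.coe_add, Submodule.coe_smul, lie_add', lie_smul',
      map_add, map_smul, LinearMap.add_apply, LinearMap.smul_apply, smul_eq_mul, h1, h2, map_neg,
      LinearMap.neg_apply]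
    ring
  -- comparison
  rw [← hψ, ← T3F_eq hN hxs hss hys, ← T3F_eq hN (x := x) (s := s) (y := y)
    (fun w => by rw [hx, gx_spec hN]) (fun w => by rw [hs, gs_spec hN])
    (fun w => by rw [hy, gy_spec hN])]
  unfold T3N
  rw [A1, A2, ← he, ← hp, ← hq]
  obtain ⟨r, hr⟩ : ∃ r : m, r = P ((2 : ℝ) • ⁅(b : 𝔸), (s : 𝔸)⁆ + ⁅(u : 𝔸), (y : 𝔸)⁆) := ⟨_, rfl⟩
  rw [← hr, hN.Qsymm ((p - q : m) : 𝔸) ⁅(x : 𝔸), ((s + k1 • b : m) : 𝔸)⁆, B1, B2,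
    hN.Qsymm ((p - q : m) : 𝔸) ⁅(x : 𝔸), (s : 𝔸)⁆]
  rw [w4, w3 b e ((2 : ℝ) • p - q), w2 e, w2 p, w2 p, w2 q, cp, cq, ce, cY, cbe, ceY, cbee, cee,
    ← hC1, D2_add_right hφ.smooth hu, D2_smul_right hφ.smooth hu, ← hl2]
  unfold E2 ee
  rw [← hx, ← hxn, ← he, ← hen, hk0, hk1, hk2, hk3]
  ring

end Pool.Agent.helper75.FL
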