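import Mathlib

/-!
# MP_f09395_gt, boosted layer: the angle function
-/

noncomputable section

namespace Pool.Agent.helper75.FL

open scoped ContDiff
open Filter Topology

private theorem hasDerivAt_glue' {y : ℝ} (hy : 0 < y) :
    HasDerivAt expNegInvGlue (expNegInvGlue y * (y ^ 2)⁻¹) y := by
  have h1 : HasDerivAt (fun x : ℝ => Real.exp (-x⁻¹)) (Real.exp (-y⁻¹) * (-(-(y ^ 2)⁻¹))) y :=
    ((hasDerivAt_inv hy.ne').neg).exp
  have h2 : expNegInvGlue =ᶠ[𝓝 y] fun x : ℝ => Real.exp (-x⁻¹) := by
    filter_upwards [lt_mem_nhds hy] with x hx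
    simp [expNegInvGlue, not_le.mpr hx]
  have h3 := h1.congr_of_eventuallyEq h2
  rw [neg_neg] at h3
  have h4 : expNegInvGlue y = Real.exp (-y⁻¹) := by simp [expNegInvGlue, not_le.mpr hy]
  rwa [h4]

private theorem hasDerivAt_st' {y : ℝ} (h0 : 0 < y) (h1 : y < 1) :
    HasDerivAt Real.smoothTransition
      (Real.smoothTransition y * (1 - Real.smoothTransition y) * ((y ^ 2)⁻¹ + ((1 - y) ^ 2)⁻¹))
      y := by
  have hf := hasDerivAt_glue' h0
  have hg : HasDerivAt (fun x : ℝ => expNegInvGlue (1 - x))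
      (expNegInvGlue (1 - y) * ((1 - y) ^ 2)⁻¹ * (-1)) y := by
    have h2 : HasDerivAt (fun x : ℝ => 1 - x) (-1) y := by
      simpa using (hasDerivAt_id y).const_sub 1
    exact (hasDerivAt_glue' (sub_pos.mpr h1)).comp y h2
  have hd : expNegInvGlue y + expNegInvGlue (1 - y) ≠ 0 := (Real.smoothTransition.pos_denom y).ne'
  have h3 := hf.div (hf.add hg) hd
  have h4 : Real.smoothTransition = fun x => expNegInvGlue x / (expNegInvGlue x + expNegInvGlue (1 - x)) := rfl
  have hy1 : (1 - y) ≠ 0 := (sub_pos.mpr h1).ne'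
  have hy0 : y ≠ 0 := h0.ne'
  rw [h4]
  refine h3.congr_deriv ?_
  simp only [Pi.add_apply]
  field_simp
  ring

theorem st_mono : Monotone Real.smoothTransition := by
  intro x y hxy
  unfold Real.smoothTransition
  have hx := Real.smoothTransition.pos_denom x
  have hy := Real.smoothTransition.pos_denom y
  have h1 := expNegInvGlue.monotone hxy
  have h2 := expNegInvGlue.monotone (show 1 - y ≤ 1 - x by linarith)
  have h3 := expNegInvGlue.nonneg x
  have h4 := expNegInvGlue.nonneg (1 - y)
  rw [div_le_div_iff₀ hx hy]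
  nlinarith [mul_le_mul h1 h2 h4 (expNegInvGlue.nonneg y)]

theorem st_deriv_nonneg (y : ℝ) : 0 ≤ deriv Real.smoothTransition y :=
  st_mono.deriv_nonneg

theorem st_deriv_lower (y : ℝ) :
    8 * (Real.smoothTransition y * (1 - Real.smoothTransition y)) ≤
      deriv Real.smoothTransition y := by
  rcases le_or_gt y 0 with h0 | h0
  · rw [Real.smoothTransition.zero_of_nonpos h0]
    simpa using st_deriv_nonneg y
  rcases le_or_gt 1 y with h1 | h1
  · rw [Real.smoothTransition.one_of_one_le h1]
    simpa using st_deriv_nonneg y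
  rw [(hasDerivAt_st' h0 h1).deriv]
  have h2 := Real.smoothTransition.nonneg y
  have h3 := Real.smoothTransition.le_one y
  have h4 : 8 ≤ (y ^ 2)⁻¹ + ((1 - y) ^ 2)⁻¹ := by
    have hy : 0 < y ^ 2 := by positivity
    have hy' : 0 < (1 - y) ^ 2 := by
      have : 0 < 1 - y := by linarith
      positivity
    have h5 : (y ^ 2)⁻¹ + ((1 - y) ^ 2)⁻¹ - 8 =
        ((1 - y) ^ 2 + y ^ 2 - 8 * (y ^ 2 * (1 - y) ^ 2)) / (y ^ 2 * (1 - y) ^ 2) := by
      field_simp
    have h6 : 0 ≤ (1 - y) ^ 2 + y ^ 2 - 8 * (y ^ 2 * (1 - y) ^ 2) := by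
      have h7 : 0 ≤ (2 * y - 1) ^ 2 := sq_nonneg _
      have h8 : 0 ≤ y * (1 - y) := mul_nonneg h0.le (by linarith)
      nlinarith [mul_nonneg h8 h7, sq_nonneg ((2 * y - 1) ^ 2)]
    have h9 : 0 ≤ (y ^ 2)⁻¹ + ((1 - y) ^ 2)⁻¹ - 8 := by
      rw [h5]; exact div_nonneg h6 (by positivity)
    linarith
  calc 8 * (Real.smoothTransition y * (1 - Real.smoothTransition y))
      = Real.smoothTransition y * (1 - Real.smoothTransition y) * 8 := by ring
    _ ≤ _ := mul_le_mul_of_nonneg_left h4 (mul_nonneg h2 (by linarith))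

/-- the slope function -/
def mu (a b A τ x : ℝ) : ℝ :=
  A * (Real.smoothTransition ((b - x) / τ) * Real.smoothTransition ((x - a) / τ))

theorem mu_smooth (a b A τ : ℝ) : ContDiff ℝ ∞ (mu a b A τ) := by
  unfold mu
  have h1 : ContDiff ℝ ∞ fun x : ℝ => (b - x) / τ := by fun_prop
  have h2 : ContDiff ℝ ∞ fun x : ℝ => (x - a) / τ := by fun_prop
  exact contDiff_const.mul ((Real.smoothTransition.contDiff.comp h1).mul
    (Real.smoothTransition.contDiff.comp h2))

/-- **the angle function** -/
theorem lam2 {a b ε Λ K : ℝ} (hab : a < b) (hε : 0 < ε) (hΛ : 0 < Λ) (hK : 0 < K) :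
    ∃ (l : ℝ → ℝ) (N : ℕ), ContDiff ℝ ∞ l ∧ (∀ x, b ≤ x → l x = 0) ∧
      (∀ x, x ≤ a → l x = 2 * Real.pi * N) ∧ (∀ x, deriv l x ≤ 0) ∧
      ∀ x, a ≤ x → x ≤ b →
        (deriv l x ≤ -Λ ∨
        (b - ε ≤ x ∧ |l x| ≤ ε ∧ -Λ ≤ deriv l x ∧ 0 ≤ deriv (deriv l) x ∧
          (-ε ≤ deriv l x ∨ K ≤ deriv (deriv l) x)) ∨
        (x ≤ a + ε ∧ |l x - 2 * Real.pi * N| ≤ ε ∧ -Λ ≤ deriv l x ∧ deriv (deriv l) x ≤ 0 ∧
          (-ε ≤ deriv l x ∨ deriv (deriv l) x ≤ -K))) := by
  have hpi := Real.pi_pos
  obtain ⟨L, hL⟩ : ∃ L, L = b - a := ⟨_, rfl⟩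
  have hL0 : 0 < L := by rw [hL]; linarith
  obtain ⟨N, hN⟩ := exists_nat_ge (2 * Λ * L / (2 * Real.pi) + 1)
  have hN1 : 0 < (N : ℝ) := by
    have : 0 < 2 * Λ * L / (2 * Real.pi) := by positivity
    linarith
  have hN2 : 2 * Λ * L ≤ 2 * Real.pi * N := by
    have h1 : 2 * Λ * L / (2 * Real.pi) ≤ N := by linarith
    rw [div_le_iff₀ (by positivity)] at h1
    linarith
  obtain ⟨A1, hA1⟩ : ∃ A1, A1 = 4 * Real.pi * N / L := ⟨_, rfl⟩
  have hA10 : 0 < A1 := by rw [hA1]; positivity
  obtain ⟨τ, hτ⟩ : ∃ τ, τ = min (min (L / 4) ε) (min (ε / A1) (4 * ε / K)) := ⟨_, rfl⟩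
  have hτ0 : 0 < τ := by rw [hτ]; positivity
  have hτ1 : τ ≤ L / 4 := by rw [hτ]; exact (min_le_left _ _).trans (min_le_left _ _)
  have hτ2 : τ ≤ ε := by rw [hτ]; exact (min_le_left _ _).trans (min_le_right _ _)
  have hτ3 : A1 * τ ≤ ε := by
    have : τ ≤ ε / A1 := by rw [hτ]; exact (min_le_right _ _).trans (min_le_left _ _)
    rw [le_div_iff₀ hA10] at this
    linarith
  have hτ4 : K * τ ≤ 4 * ε := by
    have : τ ≤ 4 * ε / K := by rw [hτ]; exact (min_le_right _ _).trans (min_le_right _ _)
    rw [le_div_iff₀ hK] at this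
    linarith
  -- the shape
  obtain ⟨I, hI⟩ : ∃ I, I = ∫ x in a..b, mu a b 1 τ x := ⟨_, rfl⟩
  have hc1 : ∀ A, Continuous (mu a b A τ) := fun A => (mu_smooth a b A τ).continuous
  have hS0 := Real.smoothTransition.nonneg
  have hS1 := Real.smoothTransition.le_one
  have hone : ∀ x, a + τ ≤ x → Real.smoothTransition ((x - a) / τ) = 1 := fun x hx =>
    Real.smoothTransition.one_of_one_le (by rw [le_div_iff₀ hτ0]; linarith)
  have hone' : ∀ x, x ≤ b - τ → Real.smoothTransition ((b - x) / τ) = 1 := fun x hx =>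
    Real.smoothTransition.one_of_one_le (by rw [le_div_iff₀ hτ0]; linarith)
  have hmu0 : ∀ A x, 0 ≤ A → 0 ≤ mu a b A τ x := fun A x hA =>
    mul_nonneg hA (mul_nonneg (hS0 _) (hS0 _))
  have hmuA : ∀ A x, 0 ≤ A → mu a b A τ x ≤ A := fun A x hA => by
    have h1 : Real.smoothTransition ((b - x) / τ) * Real.smoothTransition ((x - a) / τ) ≤ 1 * 1 :=
      mul_le_mul (hS1 _) (hS1 _) (hS0 _) zero_le_one
    calc mu a b A τ x = A * (Real.smoothTransition ((b - x) / τ) *
          Real.smoothTransition ((x - a) / τ)) := rfl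
      _ ≤ A * (1 * 1) := mul_le_mul_of_nonneg_left h1 hA
      _ = A := by ring
  have hI1 : I ≤ L := by
    have h1 : (∫ x in a..b, mu a b 1 τ x) ≤ ∫ x in a..b, (1 : ℝ) :=
      intervalIntegral.integral_mono_on hab.le ((hc1 1).intervalIntegrable _ _)
        (continuous_const.intervalIntegrable _ _) fun x _ => hmuA 1 x zero_le_one
    rw [hI, hL]
    simpa using h1
  have hI2 : L / 2 ≤ I := by
    have i1 := (hc1 1).intervalIntegrable (μ := MeasureTheory.volume) a (a + τ)
    have i2 := (hc1 1).intervalIntegrable (μ := MeasureTheory.volume) (a + τ) (b - τ)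
    have i3 := (hc1 1).intervalIntegrable (μ := MeasureTheory.volume) (b - τ) b
    have h1 : 0 ≤ ∫ x in a..(a + τ), mu a b 1 τ x :=
      intervalIntegral.integral_nonneg (by linarith) fun x _ => hmu0 1 x zero_le_one
    have h3 : 0 ≤ ∫ x in (b - τ)..b, mu a b 1 τ x :=
      intervalIntegral.integral_nonneg (by linarith) fun x _ => hmu0 1 x zero_le_one
    have h2 : (∫ x in (a + τ)..(b - τ), mu a b 1 τ x) = ∫ x in (a + τ)..(b - τ), (1 : ℝ) := by
      refine intervalIntegral.integral_congr fun x hx => ?_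
      rw [Set.uIcc_of_le (by linarith)] at hx
      simp only [mu, hone x hx.1, hone' x hx.2, mul_one]
    have h4 := intervalIntegral.integral_add_adjacent_intervals i1 i2
    have h5 := intervalIntegral.integral_add_adjacent_intervals (i1.trans i2) i3
    rw [intervalIntegral.integral_const, smul_eq_mul, mul_one] at h2
    rw [hI, ← h5, ← h4, h2]
    linarith
  have hI0 : 0 < I := by linarith
  obtain ⟨A, hA⟩ : ∃ A, A = 2 * Real.pi * N / I := ⟨_, rfl⟩
  have hAI : A * I = 2 * Real.pi * N := by rw [hA]; field_simp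
  have hA2 : 2 * Λ ≤ A := by
    rw [hA, le_div_iff₀ hI0]
    calc 2 * Λ * I ≤ 2 * Λ * L := by gcongr
      _ ≤ _ := hN2
  have hA0 : 0 < A := by linarith
  have hA3 : A ≤ A1 := by
    rw [hA, hA1, div_le_div_iff₀ hI0 hL0]
    have : 2 * Real.pi * N * L ≤ 2 * Real.pi * N * (2 * I) := by
      refine mul_le_mul_of_nonneg_left (by linarith) (by positivity)
    linarith
  have hcA := hc1 A
  -- the function
  obtain ⟨l, hl⟩ : ∃ l : ℝ → ℝ, l = fun x => ∫ t in x..b, mu a b A τ t := ⟨_, rfl⟩
  have hld : ∀ x, HasDerivAt l (-mu a b A τ x) x := by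
    intro x
    have h1 : HasDerivAt (fun x => ∫ t in b..x, mu a b A τ t) (mu a b A τ x) x :=
      intervalIntegral.integral_hasDerivAt_right (hcA.intervalIntegrable _ _)
        (hcA.stronglyMeasurableAtFilter _ _) hcA.continuousAt
    have h2 : l = fun x => -∫ t in b..x, mu a b A τ t := by
      rw [hl]; funext x; rw [intervalIntegral.integral_symm]
    rw [h2]
    exact h1.neg
  have hl1 : deriv l = fun x => -mu a b A τ x := funext fun x => (hld x).deriv
  have hls : ContDiff ℝ ∞ l := by
    rw [contDiff_infty_iff_deriv]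
    refine ⟨fun x => (hld x).differentiableAt, ?_⟩
    rw [hl1]
    exact (mu_smooth a b A τ).neg
  have hzero : ∀ x, b ≤ x → mu a b A τ x = 0 := fun x hx => by
    have : Real.smoothTransition ((b - x) / τ) = 0 :=
      Real.smoothTransition.zero_of_nonpos (div_nonpos_of_nonpos_of_nonneg (by linarith) hτ0.le)
    simp [mu, this]
  have hzero' : ∀ x, x ≤ a → mu a b A τ x = 0 := fun x hx => by
    have : Real.smoothTransition ((x - a) / τ) = 0 :=
      Real.smoothTransition.zero_of_nonpos (div_nonpos_of_nonpos_of_nonneg (by linarith) hτ0.le)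
    simp [mu, this]
  have hlb : ∀ x, b ≤ x → l x = 0 := by
    intro x hx
    have h1 : (∫ t in b..x, mu a b A τ t) = ∫ t in b..x, (0 : ℝ) :=
      intervalIntegral.integral_congr fun t ht => by
        rw [Set.uIcc_of_le hx] at ht
        exact hzero t ht.1
    rw [hl]
    simp only
    rw [intervalIntegral.integral_symm, h1]
    simp
  have htot : (∫ t in a..b, mu a b A τ t) = 2 * Real.pi * N := by
    have h1 : (∫ t in a..b, mu a b A τ t) = A * ∫ t in a..b, mu a b 1 τ t := by
      rw [← intervalIntegral.integral_const_mul]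
      refine intervalIntegral.integral_congr fun t _ => ?_
      simp only [mu]; ring
    rw [h1, ← hI, hAI]
  have hla : ∀ x, x ≤ a → l x = 2 * Real.pi * N := by
    intro x hx
    have i1 := hcA.intervalIntegrable (μ := MeasureTheory.volume) x a
    have i2 := hcA.intervalIntegrable (μ := MeasureTheory.volume) a b
    have h1 : (∫ t in x..a, mu a b A τ t) = ∫ t in x..a, (0 : ℝ) :=
      intervalIntegral.integral_congr fun t ht => by
        rw [Set.uIcc_of_le hx] at ht
        exact hzero' t ht.2
    rw [hl]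
    simp only
    rw [← intervalIntegral.integral_add_adjacent_intervals i1 i2, h1, htot]
    simp
  -- second derivatives near the ends
  have hst : ContDiff ℝ ∞ Real.smoothTransition := Real.smoothTransition.contDiff
  have hSd : ∀ y, HasDerivAt Real.smoothTransition (deriv Real.smoothTransition y) y := fun y =>
    (hst.differentiable (by simp)).differentiableAt.hasDerivAt
  have hd2b : ∀ x, b - τ ≤ x → deriv (deriv l) x =
      A * deriv Real.smoothTransition ((b - x) / τ) / τ := by
    intro x hx
    have h1 : HasDerivAt (fun x : ℝ => (b - x) / τ) (-1 / τ) x :=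
      ((hasDerivAt_id x).const_sub b).div_const τ
    have h2 := (((hSd ((b - x) / τ)).comp x h1).const_mul A).neg
    have h3 : deriv l =ᶠ[𝓝 x] fun x => -(A * (Real.smoothTransition ∘ fun x => (b - x) / τ) x) := by
      rw [hl1]
      filter_upwards [lt_mem_nhds (show a + τ < x by linarith)] with y hy
      simp only [mu, hone y hy.le, mul_one, Function.comp_apply]
    rw [h3.deriv_eq]
    have h4 : deriv (fun x => -(A * (Real.smoothTransition ∘ fun x => (b - x) / τ) x)) x = _ :=
      h2.deriv
    rw [h4]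
    ring
  have hd2a : ∀ x, x ≤ a + τ → deriv (deriv l) x =
      -(A * deriv Real.smoothTransition ((x - a) / τ) / τ) := by
    intro x hx
    have h1 : HasDerivAt (fun x : ℝ => (x - a) / τ) (1 / τ) x :=
      ((hasDerivAt_id x).sub_const a).div_const τ
    have h2 := (((hSd ((x - a) / τ)).comp x h1).const_mul A).neg
    have h3 : deriv l =ᶠ[𝓝 x] fun x => -(A * (Real.smoothTransition ∘ fun x => (x - a) / τ) x) := by
      rw [hl1]
      filter_upwards [gt_mem_nhds (show x < b - τ by linarith)] with y hy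
      simp only [mu, hone' y hy.le, one_mul, Function.comp_apply]
    rw [h3.deriv_eq]
    have h4 : deriv (fun x => -(A * (Real.smoothTransition ∘ fun x => (x - a) / τ) x)) x = _ :=
      h2.deriv
    rw [h4]
    ring
  -- lower bound of the second derivative
  have hkey : ∀ S S' : ℝ, 0 ≤ S → 8 * (S * (1 - S)) ≤ S' → A * S < Λ → ε < A * S →
      K ≤ A * S' / τ := by
    intro S S' hS hS' h1 h2
    have h3 : S ≤ 1 / 2 := by
      by_contra hcon
      push Not at hcon
      have : A * (1 / 2) < A * S := mul_lt_mul_of_pos_left hcon hA0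
      linarith
    have h4 : 4 * S ≤ S' := by nlinarith
    have h5 : 4 * ε ≤ A * S' := by
      calc 4 * ε ≤ 4 * (A * S) := by linarith
        _ = A * (4 * S) := by ring
        _ ≤ A * S' := mul_le_mul_of_nonneg_left h4 hA0.le
    rw [le_div_iff₀ hτ0]
    linarith
  refine ⟨l, N, hls, hlb, hla, fun x => ?_, fun x hxa hxb => ?_⟩
  · rw [hl1]
    have := hmu0 A x hA0.le
    simp only
    linarith
  by_cases hΛx : deriv l x ≤ -Λ
  · exact Or.inl hΛx
  right
  have hΛx' : mu a b A τ x < Λ := by
    rw [hl1] at hΛx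
    simp only at hΛx
    linarith
  rcases le_or_gt x (b - τ) with h1 | h1
  · rcases le_or_gt (a + τ) x with h2 | h2
    · exfalso
      have h3 : mu a b A τ x = A := by simp only [mu, hone x h2, hone' x h1, mul_one]
      rw [h3] at hΛx'
      linarith
    · right
      have hmux : mu a b A τ x = A * Real.smoothTransition ((x - a) / τ) := by
        simp only [mu, hone' x h1, one_mul]
      have hint : |l x - 2 * Real.pi * N| ≤ ε := by
        have i1 := hcA.intervalIntegrable (μ := MeasureTheory.volume) a x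
        have i2 := hcA.intervalIntegrable (μ := MeasureTheory.volume) x b
        have h4 := intervalIntegral.integral_add_adjacent_intervals i1 i2
        rw [htot] at h4
        have h5 : 0 ≤ ∫ t in a..x, mu a b A τ t :=
          intervalIntegral.integral_nonneg hxa fun t _ => hmu0 A t hA0.le
        have h6 : (∫ t in a..x, mu a b A τ t) ≤ ∫ t in a..x, A :=
          intervalIntegral.integral_mono_on hxa i1
            (continuous_const.intervalIntegrable _ _) fun t _ => hmuA A t hA0.le
        rw [intervalIntegral.integral_const, smul_eq_mul] at h6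
        have h7 : (x - a) * A ≤ τ * A1 :=
          mul_le_mul (by linarith) hA3 hA0.le hτ0.le
        have h8 : l x = ∫ t in x..b, mu a b A τ t := by rw [hl]
        rw [h8, abs_le]
        constructor <;> linarith
      refine ⟨by linarith, hint, by push Not at hΛx; exact hΛx.le, ?_, ?_⟩
      · rw [hd2a x h2.le]
        have := st_deriv_nonneg ((x - a) / τ)
        have : 0 ≤ A * deriv Real.smoothTransition ((x - a) / τ) / τ := by positivity
        linarith
      · rcases le_or_gt (-ε) (deriv l x) with h9 | h9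
        · exact Or.inl h9
        · right
          rw [hd2a x h2.le]
          have h10 := hkey _ _ (hS0 ((x - a) / τ)) (st_deriv_lower ((x - a) / τ))
            (by rw [← hmux]; exact hΛx') (by
              rw [← hmux]
              rw [hl1] at h9
              simp only at h9
              linarith)
          linarith
  · left
    have h2 : a + τ ≤ x := by linarith
    have hmux : mu a b A τ x = A * Real.smoothTransition ((b - x) / τ) := by
      simp only [mu, hone x h2, mul_one]
    have hint : |l x| ≤ ε := by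
      have i2 := hcA.intervalIntegrable (μ := MeasureTheory.volume) x b
      have h5 : 0 ≤ ∫ t in x..b, mu a b A τ t :=
        intervalIntegral.integral_nonneg hxb fun t _ => hmu0 A t hA0.le
      have h6 : (∫ t in x..b, mu a b A τ t) ≤ ∫ t in x..b, A :=
        intervalIntegral.integral_mono_on hxb i2
          (continuous_const.intervalIntegrable _ _) fun t _ => hmuA A t hA0.le
      rw [intervalIntegral.integral_const, smul_eq_mul] at h6
      have h7 : (b - x) * A ≤ τ * A1 :=
        mul_le_mul (by linarith) hA3 hA0.le hτ0.le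
      have h8 : l x = ∫ t in x..b, mu a b A τ t := by rw [hl]
      rw [h8, abs_le]
      constructor <;> linarith
    refine ⟨by linarith, hint, by push Not at hΛx; exact hΛx.le, ?_, ?_⟩
    · rw [hd2b x h1.le]
      have := st_deriv_nonneg ((b - x) / τ)
      positivity
    · rcases le_or_gt (-ε) (deriv l x) with h9 | h9
      · exact Or.inl h9
      · right
        rw [hd2b x h1.le]
        exact hkey _ _ (hS0 ((b - x) / τ)) (st_deriv_lower ((b - x) / τ))
          (by rw [← hmux]; exact hΛx') (by
            rw [← hmux]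
            rw [hl1] at h9
            simp only at h9
            linarith)

end Pool.Agent.helper75.FL
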