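import Pool.Agent.helper46.FR.Comp

/-!
# MP_f09395_gt, boosted layer: the compactness lemma
-/

noncomputable section

namespace Pool.Agent.helper75.FL

open scoped ContDiff
open Filter Topology
open Pool.Agent.helper79.FR

private theorem zf3 {a b c : ℝ} (h : a ^ 2 + b ^ 2 + c ^ 2 = 0) : a = 0 ∧ b = 0 ∧ c = 0 := by
  have ha := sq_nonneg a
  have hb := sq_nonneg b
  have hc := sq_nonneg c
  refine ⟨?_, ?_, ?_⟩ <;> refine pow_eq_zero_iff (two_ne_zero) |>.1 (le_antisymm ?_ (sq_nonneg _))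
  all_goals linarith

private theorem zf4 {a b c d : ℝ} (h : a ^ 2 + b ^ 2 + c ^ 2 + d ^ 2 = 0) :
    a = 0 ∧ b = 0 ∧ c = 0 ∧ d = 0 := by
  have ha := sq_nonneg a
  have hb := sq_nonneg b
  have hc := sq_nonneg c
  have hd := sq_nonneg d
  refine ⟨?_, ?_, ?_, ?_⟩ <;>
    refine pow_eq_zero_iff (two_ne_zero) |>.1 (le_antisymm ?_ (sq_nonneg _))
  all_goals linarith

/-- **compactness lemma of the boosted layer** -/
theorem layer {X : Type*} [TopologicalSpace X] {K : Set X} (hK : IsCompact K)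
    {p q p' q' γ r s : X → ℝ} {T : X × (ℝ × ℝ) → ℝ} {Ec : X × ℝ → ℝ}
    (hp : ContinuousOn p K) (hq : ContinuousOn q K) (hp' : ContinuousOn p' K)
    (hq' : ContinuousOn q' K) (hγ : ContinuousOn γ K) (hγ0 : ∀ x ∈ K, 0 ≤ γ x)
    (hs : ∀ x ∈ K, 0 ≤ s x) {r0 : ℝ} (hr0 : 0 < r0) (hr : ∀ x ∈ K, r0 ≤ r x)
    (hT : ContinuousOn T (K ×ˢ Set.univ)) (hE : ContinuousOn Ec (K ×ˢ Set.univ))
    (h1 : ∀ x ∈ K, γ x = 0 → p x = 0 → 0 < q x)
    (h2 : ∀ x ∈ K, γ x = 0 → p x = 0 → 0 < T (x, (0, 0)))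
    (h3 : ∀ x ∈ K, γ x = 0 → p x = 0 → Ec (x, 0) < 0 ∨ 0 < p' x) {Λ : ℝ} (_hΛ : 0 < Λ) :
    ∃ ε > 0, ∃ K0 > 0, ∀ x ∈ K, ∀ l σ l2 : ℝ, γ x ≤ ε → |l| ≤ ε → -Λ ≤ σ → σ ≤ 0 → 0 ≤ l2 →
      (-ε ≤ σ ∨ K0 ≤ l2) → Real.cos l * p x + Real.sin l * q x = 0 →
      0 < T (x, (l, σ)) - r x * (l2 * Ec (x, l)) ∨
      0 < (-s x * σ) * (-Real.sin l * p x + Real.cos l * q x) +
        Real.cos l * p' x + Real.sin l * q' x := by
  -- the compact sets
  have hK1 : IsCompact (K ×ˢ Set.Icc (-1 : ℝ) 1) := hK.prod isCompact_Icc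
  have hK2 : IsCompact (K ×ˢ (Set.Icc (-1 : ℝ) 1 ×ˢ Set.Icc (-Λ) 0)) :=
    hK.prod (isCompact_Icc.prod isCompact_Icc)
  have fst1 : ∀ {f : X → ℝ}, ContinuousOn f K →
      ContinuousOn (fun y : X × ℝ => f y.1) (K ×ˢ Set.Icc (-1 : ℝ) 1) := fun hf =>
    hf.comp continuous_fst.continuousOn fun y hy => hy.1
  have fst2 : ∀ {f : X → ℝ}, ContinuousOn f K →
      ContinuousOn (fun y : X × (ℝ × ℝ) => f y.1) (K ×ˢ (Set.Icc (-1 : ℝ) 1 ×ˢ Set.Icc (-Λ) 0)) :=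
    fun hf => hf.comp continuous_fst.continuousOn fun y hy => hy.1
  have cs1 : ContinuousOn (fun y : X × ℝ => Real.cos y.2) (K ×ˢ Set.Icc (-1 : ℝ) 1) :=
    (Real.continuous_cos.comp continuous_snd).continuousOn
  have sn1 : ContinuousOn (fun y : X × ℝ => Real.sin y.2) (K ×ˢ Set.Icc (-1 : ℝ) 1) :=
    (Real.continuous_sin.comp continuous_snd).continuousOn
  have cs2 : ContinuousOn (fun y : X × (ℝ × ℝ) => Real.cos y.2.1)
      (K ×ˢ (Set.Icc (-1 : ℝ) 1 ×ˢ Set.Icc (-Λ) 0)) :=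
    (Real.continuous_cos.comp (continuous_fst.comp continuous_snd)).continuousOn
  have sn2 : ContinuousOn (fun y : X × (ℝ × ℝ) => Real.sin y.2.1)
      (K ×ˢ (Set.Icc (-1 : ℝ) 1 ×ˢ Set.Icc (-Λ) 0)) :=
    (Real.continuous_sin.comp (continuous_fst.comp continuous_snd)).continuousOn
  have hE1 : ContinuousOn Ec (K ×ˢ Set.Icc (-1 : ℝ) 1) :=
    hE.mono (Set.prod_mono_right (Set.subset_univ _))
  have hT1 : ContinuousOn T (K ×ˢ (Set.Icc (-1 : ℝ) 1 ×ˢ Set.Icc (-Λ) 0)) :=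
    hT.mono (Set.prod_mono_right (Set.subset_univ _))
  -- constraint functions
  have g1 : ContinuousOn (fun y : X × ℝ => (Real.cos y.2 * p y.1 + Real.sin y.2 * q y.1) ^ 2 +
      γ y.1 ^ 2 + y.2 ^ 2) (K ×ˢ Set.Icc (-1 : ℝ) 1) :=
    ((((cs1.mul (fst1 hp)).add (sn1.mul (fst1 hq))).pow 2).add ((fst1 hγ).pow 2)).add
      (continuous_snd.continuousOn.pow 2)
  have g2 : ContinuousOn (fun y : X × (ℝ × ℝ) =>
      (Real.cos y.2.1 * p y.1 + Real.sin y.2.1 * q y.1) ^ 2 +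
      γ y.1 ^ 2 + y.2.1 ^ 2 + y.2.2 ^ 2) (K ×ˢ (Set.Icc (-1 : ℝ) 1 ×ˢ Set.Icc (-Λ) 0)) :=
    (((((cs2.mul (fst2 hp)).add (sn2.mul (fst2 hq))).pow 2).add ((fst2 hγ).pow 2)).add
      ((continuous_fst.comp continuous_snd).continuousOn.pow 2)).add
      ((continuous_snd.comp continuous_snd).continuousOn.pow 2)
  -- step 1
  obtain ⟨Ca, hCa, κ, hκ, ha⟩ := pos_add_sq' hK1
    (f := fun y : X × ℝ => max (-Ec y) (Real.cos y.2 * p' y.1 + Real.sin y.2 * q' y.1))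
    (hE1.neg.sup ((cs1.mul (fst1 hp')).add (sn1.mul (fst1 hq')))) g1 (by
      rintro ⟨x, l⟩ ⟨hx, -⟩ h0
      simp only at h0 hx
      obtain ⟨e3, g0, l0⟩ := zf3 h0
      have p0 : p x = 0 := by
        rw [l0] at e3
        simpa using e3
      rw [l0]
      simp only [Real.cos_zero, Real.sin_zero, one_mul, zero_mul, add_zero]
      rcases h3 x hx g0 p0 with h | h
      · exact lt_max_of_lt_left (by linarith)
      · exact lt_max_of_lt_right h)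
  -- step 2
  obtain ⟨Cb, hCb, κ', hκ', hb⟩ := pos_add_sq' hK1
    (f := fun y : X × ℝ => -Real.sin y.2 * p y.1 + Real.cos y.2 * q y.1)
    ((sn1.neg.mul (fst1 hp)).add (cs1.mul (fst1 hq))) g1 (by
      rintro ⟨x, l⟩ ⟨hx, -⟩ h0
      simp only at h0 hx
      obtain ⟨e3, g0, l0⟩ := zf3 h0
      have p0 : p x = 0 := by
        rw [l0] at e3
        simpa using e3
      rw [l0]
      simp only [Real.cos_zero, Real.sin_zero, one_mul, neg_zero, zero_mul, zero_add]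
      exact h1 x hx g0 p0)
  -- step 3
  obtain ⟨Cc, hCc, κ2, hκ2, hc⟩ := pos_add_sq' hK2 (f := T) hT1 g2 (by
      rintro ⟨x, l, σ⟩ ⟨hx, -⟩ h0
      simp only at h0 hx
      obtain ⟨e3, g0, l0, s0⟩ := zf4 h0
      have p0 : p x = 0 := by
        rw [l0] at e3
        simpa using e3
      rw [l0, s0]
      exact h2 x hx g0 p0)
  -- step 4
  obtain ⟨M, hM⟩ := hK2.exists_bound_of_continuousOn hT1
  have hM' : ∀ x ∈ K, ∀ l σ : ℝ, |l| ≤ 1 → -Λ ≤ σ → σ ≤ 0 → -|M| ≤ T (x, (l, σ)) := by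
    intro x hx l σ hl h4 h5
    have h6 := hM (x, (l, σ)) ⟨hx, ⟨abs_le.1 hl, ⟨h4, h5⟩⟩⟩
    rw [Real.norm_eq_abs] at h6
    have h7 := le_abs_self M
    have h8 := neg_abs_le (T (x, (l, σ)))
    linarith
  -- the constants
  have hsm : ∀ C κ : ℝ, 0 < C → 0 < κ → ∃ ε > 0, ε ≤ 1 ∧ ∀ t, 0 ≤ t → t ≤ 3 * ε ^ 2 →
      C * t ^ 2 ≤ κ / 2 := by
    intro C κ hC hκ
    refine ⟨min 1 (κ / (18 * C)), by positivity, min_le_left _ _, fun t ht0 ht => ?_⟩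
    obtain ⟨ε, hε⟩ : ∃ ε, ε = min 1 (κ / (18 * C)) := ⟨_, rfl⟩
    have e1 : 0 < ε := by rw [hε]; positivity
    have e2 : ε ≤ 1 := by rw [hε]; exact min_le_left _ _
    have e3 : ε * (18 * C) ≤ κ := by
      have : ε ≤ κ / (18 * C) := by rw [hε]; exact min_le_right _ _
      rwa [le_div_iff₀ (by positivity)] at this
    rw [← hε] at ht
    have e4 : ε ^ 2 ≤ ε := by nlinarith
    have e5 : t ≤ 3 := by nlinarith
    have e6 : t ^ 2 ≤ 3 * t := by nlinarith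
    have e7 : t ^ 2 ≤ 9 * ε := by nlinarith
    calc C * t ^ 2 ≤ C * (9 * ε) := by gcongr
      _ = ε * (18 * C) / 2 := by ring
      _ ≤ κ / 2 := by linarith
  obtain ⟨εa, ea0, ea1, ea⟩ := hsm Ca κ hCa hκ
  obtain ⟨εb, eb0, eb1, eb⟩ := hsm Cb κ' hCb hκ'
  obtain ⟨εc, ec0, ec1, ec⟩ := hsm Cc κ2 hCc hκ2
  obtain ⟨ε, hε⟩ : ∃ ε, ε = min εa (min εb εc) := ⟨_, rfl⟩
  have hε0 : 0 < ε := by rw [hε]; positivity
  have hεa : ε ≤ εa := by rw [hε]; exact min_le_left _ _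
  have hεb : ε ≤ εb := by rw [hε]; exact (min_le_right _ _).trans (min_le_left _ _)
  have hεc : ε ≤ εc := by rw [hε]; exact (min_le_right _ _).trans (min_le_right _ _)
  refine ⟨ε, hε0, (|M| + 1) / (r0 * (κ / 2)), by positivity, ?_⟩
  intro x hx l σ l2 hγx hl hσ1 hσ2 hl2 hor h0
  have hl1 : |l| ≤ 1 := by linarith
  have hlI : l ∈ Set.Icc (-1 : ℝ) 1 := abs_le.1 hl1
  have hlε : l ^ 2 ≤ ε ^ 2 := by
    rw [← sq_abs l]
    exact pow_le_pow_left₀ (abs_nonneg _) hl 2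
  have hγε : γ x ^ 2 ≤ ε ^ 2 := pow_le_pow_left₀ (hγ0 x hx) hγx 2
  have hpow : ∀ δ, ε ≤ δ → ε ^ 2 ≤ δ ^ 2 := fun δ hδ => pow_le_pow_left₀ hε0.le hδ 2
  have A := ha (x, l) ⟨hx, hlI⟩
  have Bb := hb (x, l) ⟨hx, hlI⟩
  simp only [h0] at A Bb
  have A' := ea ((0 : ℝ) ^ 2 + γ x ^ 2 + l ^ 2) (by positivity) (by
    have := hpow εa hεa; have := sq_nonneg εa; linarith)
  have B' := eb ((0 : ℝ) ^ 2 + γ x ^ 2 + l ^ 2) (by positivity) (by
    have := hpow εb hεb; have := sq_nonneg εb; linarith)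
  have A2 : κ / 2 ≤ max (-Ec (x, l)) (Real.cos l * p' x + Real.sin l * q' x) := by linarith
  have B2 : κ' / 2 ≤ -Real.sin l * p x + Real.cos l * q x := by linarith
  rcases le_max_iff.1 A2 with h | h
  · left
    have hrx := hr x hx
    have hpos : 0 ≤ r x * l2 * (-Ec (x, l)) :=
      mul_nonneg (mul_nonneg (hr0.le.trans hrx) hl2) (by linarith)
    rcases hor with h4 | h4
    · have C := hc (x, (l, σ)) ⟨hx, ⟨hlI, ⟨hσ1, hσ2⟩⟩⟩
      simp only [h0] at C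
      have hσε : σ ^ 2 ≤ ε ^ 2 := by
        rw [← sq_abs σ]
        exact pow_le_pow_left₀ (abs_nonneg _) (abs_le.2 ⟨h4, hσ2.trans hε0.le⟩) 2
      have C' := ec ((0 : ℝ) ^ 2 + γ x ^ 2 + l ^ 2 + σ ^ 2) (by positivity) (by
        have := hpow εc hεc; linarith)
      linarith
    · have h5 := hM' x hx l σ hl1 hσ1 hσ2
      have h6 : |M| + 1 ≤ r x * l2 * (-Ec (x, l)) := by
        have h7 : (|M| + 1) / (r0 * (κ / 2)) * (r0 * (κ / 2)) = |M| + 1 := by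
          field_simp
        calc |M| + 1 = (|M| + 1) / (r0 * (κ / 2)) * (r0 * (κ / 2)) := h7.symm
          _ ≤ l2 * (r x * (-Ec (x, l))) := by
            refine mul_le_mul h4 (mul_le_mul hrx h (by positivity) (hr0.le.trans hrx))
              (by positivity) hl2
          _ = _ := by ring
      linarith
  · right
    have h8 : 0 ≤ (-s x * σ) * (-Real.sin l * p x + Real.cos l * q x) := by
      refine mul_nonneg ?_ (by linarith)
      have := hs x hx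
      nlinarith
    linarith

end Pool.Agent.helper75.FL
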