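import Pool.Agent.helper75.FL.Fam
import Pool.Agent.helper75.FL.Lam
import Pool.Agent.helper75.FL.Layer

/-!
# MP_f09395_gt: the generalised step B (boosted layers at two levels, fast rotation in between)

Everything is in the sign convention of `T3F`.
-/

set_option linter.unusedSectionVars false

noncomputable section

namespace Pool.Agent.helper75.FL

open scoped ContDiff
open Pool.Agent.Helper93.Fin Pool.Agent.helper79.FP Pool.Agent.helper79.FR
open Filter Topology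

variable {𝔸 : Type*} [NormedRing 𝔸] [NormedAlgebra ℝ 𝔸] [FiniteDimensional ℝ 𝔸]
variable {g h m : Submodule ℝ 𝔸} {Q : 𝔸 →ₗ[ℝ] 𝔸 →ₗ[ℝ] ℝ} {P : 𝔸 →L[ℝ] m} {φ ψ n v z : m → ℝ}
variable {h0 : 𝔸} {B : m → 𝔸} {c : m → ℝ} {H : Subgroup 𝔸ˣ}

/-! ### evenness of the third order form in `b` -/

theorem gs_neg (hN : NData g h m Q P) (hf : ContDiffOn ℝ ∞ φ {0}ᶜ) {u : m} (hu : u ≠ 0) (b : m) :
    gs Q φ u (-b) = -gs Q φ u b := by
  refine rep_unique hN fun w => ?_
  have h2 : -b = (-1 : ℝ) • b := by rw [neg_one_smul]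
  rw [gs_spec hN, h2, D2_smul hf hu, Submodule.coe_neg, map_neg, LinearMap.neg_apply, gs_spec hN]
  ring

theorem gy_neg (hN : NData g h m Q P) (hf : ContDiffOn ℝ ∞ φ {0}ᶜ) {u : m} (hu : u ≠ 0) (b : m) :
    gy Q φ u (-b) = gy Q φ u b := by
  refine rep_unique hN fun w => ?_
  have h2 : -b = (-1 : ℝ) • b := by rw [neg_one_smul]
  rw [gy_spec hN, h2, D3_smul hf hu, D3_smul_mid hf hu, gy_spec hN]
  ring

theorem T3F_neg (hN : NData g h m Q P) (hf : ContDiffOn ℝ ∞ φ {0}ᶜ) {u : m} (hu : u ≠ 0) (b : m) :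
    T3F Q P φ u (-b) = T3F Q P φ u b := by
  unfold T3F
  rw [gs_neg hN hf hu, gy_neg hN hf hu]
  obtain ⟨x, hx⟩ : ∃ x : m, x = gx Q φ u := ⟨_, rfl⟩
  obtain ⟨s, hs⟩ : ∃ s : m, s = gs Q φ u b := ⟨_, rfl⟩
  obtain ⟨y, hy⟩ : ∃ y : m, y = gy Q φ u b := ⟨_, rfl⟩
  rw [← hx, ← hs, ← hy]
  obtain ⟨e, he⟩ : ∃ e : m, e = P ⁅(u : 𝔸), (x : 𝔸)⁆ := ⟨_, rfl⟩
  obtain ⟨p, hp⟩ : ∃ p : m, p = P ⁅(b : 𝔸), (x : 𝔸)⁆ := ⟨_, rfl⟩
  obtain ⟨q, hq⟩ : ∃ q : m, q = P ⁅(u : 𝔸), (s : 𝔸)⁆ := ⟨_, rfl⟩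
  obtain ⟨xs, hxs⟩ : ∃ q : 𝔸, q = ⁅(x : 𝔸), (s : 𝔸)⁆ := ⟨_, rfl⟩
  have e1 : P ⁅((-b : m) : 𝔸), (x : 𝔸)⁆ = -p := by
    rw [hp, ← map_neg]
    congr 1
    simp only [Ring.lie_def, Submodule.coe_neg, mul_neg, neg_mul]; abel
  have e2 : P ⁅(u : 𝔸), ((-s : m) : 𝔸)⁆ = -q := by
    rw [hq, ← map_neg]
    congr 1
    simp only [Ring.lie_def, Submodule.coe_neg, mul_neg, neg_mul]; abel
  have e3 : ⁅((-b : m) : 𝔸), ((-s : m) : 𝔸)⁆ = ⁅(b : 𝔸), (s : 𝔸)⁆ := by
    simp only [Ring.lie_def, Submodule.coe_neg, mul_neg, neg_mul, neg_neg]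
  have e4 : ⁅(x : 𝔸), ((-s : m) : 𝔸)⁆ = -xs := by
    rw [hxs]
    simp only [Ring.lie_def, Submodule.coe_neg, mul_neg, neg_mul]; abel
  have hb : -b = (-1 : ℝ) • b := by rw [neg_one_smul]
  have hp' : -p = (-1 : ℝ) • p := by rw [neg_one_smul]
  have hq' : -q = (-1 : ℝ) • q := by rw [neg_one_smul]
  have e5 : (2 : ℝ) • (-p) - -q = (-1 : ℝ) • ((2 : ℝ) • p - q) := by module
  have e6 : Q (((-p - -q : m)) : 𝔸) (-xs) = Q ((p - q : m) : 𝔸) xs := by
    have : (-p - -q : m) = -(p - q) := by abel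
    rw [this, Submodule.coe_neg, map_neg, map_neg, LinearMap.neg_apply, neg_neg]
  unfold T3N
  rw [e1, e2, e3, e4, e5, e6, ← he, ← hp, ← hq, ← hxs, hb, hp', hq']
  rw [D4_smul hf hu, D4_smul_2 hf hu, D3_smul hf hu, D3_smul_right hf hu, D2_smul hf hu,
    D2_smul_right hf hu, D2_smul hf hu, D2_smul_right hf hu, D2_smul hf hu, D2_smul_right hf hu]
  ring

/-! ### the third order form of a rotation -/

/-- the functions whose combinations occur -/
def psi4 (c v z : m → ℝ) : Fin 4 → m → ℝ :=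
  ![v, fun u => c u * v u, z, fun u => c u * z u]

/-- the coefficients of the first order Taylor polynomials of `cos l`, `sin l` -/
def co4 (l σ t : ℝ) : Fin 4 → ℝ :=
  ![Real.cos l + Real.sin l * σ * t, -Real.sin l * σ, Real.sin l - Real.cos l * σ * t,
    Real.cos l * σ]

theorem psi4_smooth (hC : Cas g h m Q P h0 B c) (hv : ContDiffOn ℝ ∞ v {0}ᶜ)
    (hz : ContDiffOn ℝ ∞ z {0}ᶜ) (i : Fin 4) : ContDiffOn ℝ ∞ (psi4 c v z i) {0}ᶜ := by
  fin_cases i
  · exact hv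
  · exact hC.csm.mul hv
  · exact hz
  · exact hC.csm.mul hz

/-- the part of the third order form without second derivatives of the angle -/
def TT (Q : 𝔸 →ₗ[ℝ] 𝔸 →ₗ[ℝ] ℝ) (P : 𝔸 →L[ℝ] m) (c v z : m → ℝ) (p : (m × m) × (ℝ × ℝ)) : ℝ :=
  T3F Q P (cmb (co4 p.2.1 p.2.2 (c p.1.1)) (psi4 c v z)) p.1.1 p.1.2 +
    (1 / 2) * (D1 c p.1.1 p.1.2 ^ 2 * p.2.2 ^ 2) *
      (Real.cos p.2.1 * E2 Q P (kcmb (Real.cos p.2.1) (Real.sin p.2.1) v z) v p.1.1 +
        Real.sin p.2.1 * E2 Q P (kcmb (Real.cos p.2.1) (Real.sin p.2.1) v z) z p.1.1)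

/-- the coefficient of the second derivative of the angle -/
def EE (Q : 𝔸 →ₗ[ℝ] 𝔸 →ₗ[ℝ] ℝ) (P : 𝔸 →L[ℝ] m) (v z : m → ℝ) (p : (m × m) × ℝ) : ℝ :=
  Real.cos p.2 * E2 Q P (kcmb (Real.cos p.2) (Real.sin p.2) v z) z p.1.1 -
    Real.sin p.2 * E2 Q P (kcmb (Real.cos p.2) (Real.sin p.2) v z) v p.1.1

theorem T3F_rot (hN : NData g h m Q P) (hC : Cas g h m Q P h0 B c) (hG : GrpD H h m Q h0 B c)
    (hv : PhiN h m P v) (hvH : InvH H v) (hz : PhiN h m P z) (hzH : InvH H z)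
    {l : ℝ → ℝ} (hl : ContDiff ℝ ∞ l) {u b : m} (hF : Flag Q u b)
    (ha : Real.cos (l (c u)) * al P h0 v u b + Real.sin (l (c u)) * al P h0 z u b = 0) :
    T3F Q P (rot l c v z) u b = TT Q P c v z ((u, b), (l (c u), deriv l (c u))) -
      (1 / 2) * D1 c u b ^ 2 * (deriv (deriv l) (c u) * EE Q P v z ((u, b), l (c u))) := by
  obtain ⟨t, ht⟩ : ∃ t, t = c u := ⟨_, rfl⟩
  obtain ⟨σ, hσ⟩ : ∃ σ, σ = deriv l t := ⟨_, rfl⟩
  obtain ⟨l2, hl2⟩ : ∃ σ, σ = deriv (deriv l) t := ⟨_, rfl⟩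
  have hl' := deriv_smooth hl
  have hld : ∀ x, HasDerivAt l (deriv l x) x := fun x =>
    (hl.differentiable (by simp)).differentiableAt.hasDerivAt
  have hld' : ∀ x, HasDerivAt (deriv l) (deriv (deriv l) x) x := fun x =>
    (hl'.differentiable (by simp)).differentiableAt.hasDerivAt
  have c1 : deriv (fun x => Real.cos (l x)) = fun x => -Real.sin (l x) * deriv l x :=
    funext fun x => ((Real.hasDerivAt_cos (l x)).comp x (hld x)).deriv
  have s1 : deriv (fun x => Real.sin (l x)) = fun x => Real.cos (l x) * deriv l x :=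
    funext fun x => ((Real.hasDerivAt_sin (l x)).comp x (hld x)).deriv
  have c2 : deriv (deriv fun x => Real.cos (l x)) t =
      -Real.cos (l t) * σ ^ 2 - Real.sin (l t) * l2 := by
    rw [c1]
    have h1 : HasDerivAt (fun x => -Real.sin (l x) * deriv l x) _ t :=
      ((Real.hasDerivAt_sin (l t)).comp t (hld t)).neg.mul (hld' t)
    rw [h1.deriv, hσ, hl2]
    simp only [Pi.neg_apply, Function.comp_apply]
    ring
  have s2 : deriv (deriv fun x => Real.sin (l x)) t =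
      -Real.sin (l t) * σ ^ 2 + Real.cos (l t) * l2 := by
    rw [s1]
    have h1 : HasDerivAt (fun x => Real.cos (l x) * deriv l x) _ t :=
      ((Real.hasDerivAt_cos (l t)).comp t (hld t)).mul (hld' t)
    rw [h1.deriv, hσ, hl2]
    simp only [Function.comp_apply]
    ring
  -- the first order Taylor polynomials
  obtain ⟨f1, hf1⟩ : ∃ f : ℝ → ℝ, f = fun x => Real.cos (l t) + (-Real.sin (l t) * σ) * (x - t) :=
    ⟨_, rfl⟩
  obtain ⟨k1, hk1⟩ : ∃ f : ℝ → ℝ, f = fun x => Real.sin (l t) + (Real.cos (l t) * σ) * (x - t) :=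
    ⟨_, rfl⟩
  have lin : ∀ a r : ℝ, deriv (fun x : ℝ => a + r * (x - t)) = fun _ => r := by
    intro a r
    funext x
    have h1 : HasDerivAt (fun x : ℝ => a + r * (x - t)) (r * 1) x :=
      (((hasDerivAt_id x).sub_const t).const_mul r).const_add a
    rw [h1.deriv, mul_one]
  have f1s : ContDiff ℝ ∞ f1 := by rw [hf1]; fun_prop
  have k1s : ContDiff ℝ ∞ k1 := by rw [hk1]; fun_prop
  have hrot : rot l c v z = ccmb c (fun x => Real.cos (l x)) (fun x => Real.sin (l x)) v z := rfl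
  have key := T3F_ccmb hN hC hG hv hvH hz hzH (f := fun x => Real.cos (l x))
    (k := fun x => Real.sin (l x)) (f1 := f1) (k1 := k1) (Real.contDiff_cos.comp hl)
    (Real.contDiff_sin.comp hl) f1s k1s hF ha (by rw [hf1, ht]; simp) (by
      rw [hf1, lin, c1, hσ, ht]) (by rw [hk1, ht]; simp) (by
      rw [hk1, lin, s1, hσ, ht]) (by rw [hf1, lin]; simp) (by rw [hk1, lin]; simp)
  have hcm : ccmb c f1 k1 v z = cmb (co4 (l t) σ t) (psi4 c v z) := by
    funext w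
    unfold ccmb cmb
    simp only [Fin.sum_univ_four, psi4, co4, hf1, hk1, Matrix.cons_val_zero, Matrix.cons_val_one,
      Matrix.cons_val]
    ring
  rw [hrot, key, hcm]
  unfold TT EE
  simp only
  rw [← ht, c2, s2, ← hσ, ← hl2]
  ring

theorem tend_cos {ι : Type*} {l : Filter ι} {a : ι → ℝ} {a₀ : ℝ} (ha : Tendsto a l (𝓝 a₀)) :
    Tendsto (fun n => Real.cos (a n)) l (𝓝 (Real.cos a₀)) :=
  (Real.continuous_cos.tendsto a₀).comp ha

theorem tend_sin {ι : Type*} {l : Filter ι} {a : ι → ℝ} {a₀ : ℝ} (ha : Tendsto a l (𝓝 a₀)) :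
    Tendsto (fun n => Real.sin (a n)) l (𝓝 (Real.sin a₀)) :=
  (Real.continuous_sin.tendsto a₀).comp ha

theorem TT_cont (hN : NData g h m Q P) (hC : Cas g h m Q P h0 B c)
    (hv : ContDiffOn ℝ ∞ v {0}ᶜ) (hz : ContDiffOn ℝ ∞ z {0}ᶜ) {S : Set ((m × m) × (ℝ × ℝ))}
    (hS : ∀ p ∈ S, p.1.1 ≠ 0) : ContinuousOn (TT Q P c v z) S := by
  intro p hp
  have hu := hS p hp
  refine Tendsto.mono_left ?_ nhdsWithin_le_nhds
  have tu : Tendsto (fun q : (m × m) × (ℝ × ℝ) => q.1.1) (𝓝 p) (𝓝 p.1.1) :=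
    (continuous_fst.comp continuous_fst).tendsto p
  have tb : Tendsto (fun q : (m × m) × (ℝ × ℝ) => q.1.2) (𝓝 p) (𝓝 p.1.2) :=
    (continuous_snd.comp continuous_fst).tendsto p
  have tl : Tendsto (fun q : (m × m) × (ℝ × ℝ) => q.2.1) (𝓝 p) (𝓝 p.2.1) :=
    (continuous_fst.comp continuous_snd).tendsto p
  have ts : Tendsto (fun q : (m × m) × (ℝ × ℝ) => q.2.2) (𝓝 p) (𝓝 p.2.2) :=
    (continuous_snd.comp continuous_snd).tendsto p
  have tc : Tendsto (fun q : (m × m) × (ℝ × ℝ) => c q.1.1) (𝓝 p) (𝓝 (c p.1.1)) :=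
    tendsto_of_ne hC.csm hu tu
  have J1 : JT (𝓝 p) (fun q : (m × m) × (ℝ × ℝ) => cmb (co4 q.2.1 q.2.2 (c q.1.1)) (psi4 c v z))
      (fun q => q.1.1) (cmb (co4 p.2.1 p.2.2 (c p.1.1)) (psi4 c v z)) p.1.1 := by
    refine JT.cmb (ψ := psi4 c v z) (psi4_smooth hC hv hz) (fun i => ?_) hu tu
    fin_cases i
    · exact (tend_cos tl).add (((tend_sin tl).mul ts).mul tc)
    · exact (tend_sin tl).neg.mul ts
    · exact (tend_sin tl).sub (((tend_cos tl).mul ts).mul tc)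
    · exact (tend_cos tl).mul ts
  have J2 : JT (𝓝 p) (fun q : (m × m) × (ℝ × ℝ) => kcmb (Real.cos q.2.1) (Real.sin q.2.1) v z)
      (fun q => q.1.1) (kcmb (Real.cos p.2.1) (Real.sin p.2.1) v z) p.1.1 :=
    kcmb_JT hv hz (tend_cos tl) (tend_sin tl) hu tu
  have c2 : Tendsto (fun _ : (m × m) × (ℝ × ℝ) => (1 / 2 : ℝ)) (𝓝 p) (𝓝 (1 / 2)) :=
    tendsto_const_nhds
  exact (T3F_JT hN J1 tu tb).add ((c2.mul (((D1_tendsto hC.csm hu tu tb).pow 2).mul
    (ts.pow 2))).mul (((tend_cos tl).mul (E2_JT hN J2 (JT.const hv hu tu) tu)).add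
      ((tend_sin tl).mul (E2_JT hN J2 (JT.const hz hu tu) tu))))

theorem EE_cont (hN : NData g h m Q P) (hv : ContDiffOn ℝ ∞ v {0}ᶜ)
    (hz : ContDiffOn ℝ ∞ z {0}ᶜ) {S : Set ((m × m) × ℝ)}
    (hS : ∀ p ∈ S, p.1.1 ≠ 0) : ContinuousOn (EE Q P v z) S := by
  intro p hp
  have hu := hS p hp
  refine Tendsto.mono_left ?_ nhdsWithin_le_nhds
  have tu : Tendsto (fun q : (m × m) × ℝ => q.1.1) (𝓝 p) (𝓝 p.1.1) :=
    (continuous_fst.comp continuous_fst).tendsto p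
  have tl : Tendsto (fun q : (m × m) × ℝ => q.2) (𝓝 p) (𝓝 p.2) := continuous_snd.tendsto p
  have J2 : JT (𝓝 p) (fun q : (m × m) × ℝ => kcmb (Real.cos q.2) (Real.sin q.2) v z)
      (fun q => q.1.1) (kcmb (Real.cos p.2) (Real.sin p.2) v z) p.1.1 :=
    kcmb_JT hv hz (tend_cos tl) (tend_sin tl) hu tu
  exact ((tend_cos tl).mul (E2_JT hN J2 (JT.const hz hu tu) tu)).sub
    ((tend_sin tl).mul (E2_JT hN J2 (JT.const hv hu tu) tu))

theorem E2_congr (hN : NData g h m Q P) {φ' : m → ℝ} {u : m} (hf : φ =ᶠ[𝓝 u] φ') :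
    E2 Q P φ n u = E2 Q P φ' n u := by
  have h1 : gx Q φ u = gx Q φ' u := by
    refine rep_unique hN fun w => ?_
    rw [gx_spec hN, gx_spec hN]
    exact (ev_D1 hf w).self_of_nhds
  have h2 : ∀ a b, D2 φ u a b = D2 φ' u a b := fun a b => (ev_D2 hf a b).self_of_nhds
  unfold E2 ee
  simp only [h1, h2]

theorem kcmb_one (v z : m → ℝ) : kcmb 1 0 v z = v := by
  funext w; simp [kcmb]

/-- the value of `TT` at the start of the layer -/
theorem TT_zero (u b : m) : TT Q P c v z ((u, b), (0, 0)) = T3F Q P v u b := by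
  have h1 : cmb (co4 0 0 (c u)) (psi4 c v z) = v := by
    funext w
    simp [cmb, Fin.sum_univ_four, co4, psi4]
  unfold TT
  simp only
  rw [h1]
  ring

theorem EE_zero (u b : m) : EE Q P v z ((u, b), 0) = E2 Q P v z u := by
  unfold EE
  simp only [Real.cos_zero, Real.sin_zero, kcmb_one]
  ring

theorem TT_per (p : m × m) (l σ : ℝ) (N : ℕ) :
    TT Q P c v z (p, (l - 2 * Real.pi * N, σ)) = TT Q P c v z (p, (l, σ)) := by
  have h1 : Real.cos (l - 2 * Real.pi * N) = Real.cos l := by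
    rw [mul_comm (2 * Real.pi) (N : ℝ), Real.cos_sub_nat_mul_two_pi]
  have h2 : Real.sin (l - 2 * Real.pi * N) = Real.sin l := by
    rw [mul_comm (2 * Real.pi) (N : ℝ), Real.sin_sub_nat_mul_two_pi]
  unfold TT co4
  simp only [h1, h2]

theorem EE_per (p : m × m) (l : ℝ) (N : ℕ) :
    EE Q P v z (p, l - 2 * Real.pi * N) = EE Q P v z (p, l) := by
  have h1 : Real.cos (l - 2 * Real.pi * N) = Real.cos l := by
    rw [mul_comm (2 * Real.pi) (N : ℝ), Real.cos_sub_nat_mul_two_pi]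
  have h2 : Real.sin (l - 2 * Real.pi * N) = Real.sin l := by
    rw [mul_comm (2 * Real.pi) (N : ℝ), Real.sin_sub_nat_mul_two_pi]
  unfold EE
  simp only [h1, h2]

/-- **Theorem SB**: the generalised step B.  Between the levels `cB < cA` of the Casimir the flags
of the zero set of `al v` are regular for the pair `(v, z)`; above `cA` and below `cB` the
function `v` itself is good; at the two levels the sign of `E² z` is right where the first
condition fails. -/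
theorem SB (hN : NData g h m Q P) (hC : Cas g h m Q P h0 B c) (hG : GrpD H h m Q h0 B c)
    (hv : PhiN h m P v) (hvH : InvH H v) (hz : PhiN h m P z) (hzH : InvH H z) {cB cA : ℝ}
    (hcc : cB < cA) (hA1 : cA < 1) (hB1 : -1 < cB)
    (R : ∀ u b : m, Flag Q u b → cB ≤ c u → c u ≤ cA → al P h0 v u b = 0 →
      0 < Q (B u) b * al P h0 z u b)
    (TA : ∀ u b : m, Flag Q u b → cA ≤ c u → al P h0 v u b = 0 → 0 < T3F Q P v u b)
    (TB : ∀ u b : m, Flag Q u b → c u ≤ cB → al P h0 v u b = 0 → 0 < T3F Q P v u b)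
    (EA : ∀ u b : m, Flag Q u b → c u = cA → al P h0 v u b = 0 →
      E2 Q P v z u < 0 ∨ 0 < al' P h0 v u b)
    (EB : ∀ u b : m, Flag Q u b → c u = cB → al P h0 v u b = 0 →
      0 < E2 Q P v z u ∨ 0 < al' P h0 v u b) :
    ∃ φ : m → ℝ, PhiN h m P φ ∧ InvH H φ ∧ ∀ u b : m, Flag Q u b → al P h0 φ u b = 0 →
      0 < T3F Q P φ u b ∨ Q (B u) b * al' P h0 φ u b ≠ 0 := by
  have hS : ∀ p ∈ (FlagSet Q : Set (m × m)), p.1 ≠ 0 := fun p hp => flag_ne hN hp
  -- the compact regular part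
  obtain ⟨w1, hw1⟩ : ∃ w1 : ℝ, w1 = min (1 - cA ^ 2) (1 - cB ^ 2) := ⟨_, rfl⟩
  have hcA2 : cA ^ 2 < 1 := by nlinarith
  have hcB2 : cB ^ 2 < 1 := by nlinarith
  have hw1p : 0 < w1 := by rw [hw1]; exact lt_min (by linarith) (by linarith)
  have hlev : ∀ x, cB ≤ x → x ≤ cA → w1 ≤ 1 - x ^ 2 := by
    intro x h1 h2
    rcases le_total 0 x with h3 | h3
    · have h4 : w1 ≤ 1 - cA ^ 2 := by rw [hw1]; exact min_le_left _ _
      nlinarith
    · have h4 : w1 ≤ 1 - cB ^ 2 := by rw [hw1]; exact min_le_right _ _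
      nlinarith
  obtain ⟨w0, hw0⟩ : ∃ w0 : ℝ, w0 = Real.sqrt w1 := ⟨_, rfl⟩
  have hw0' : 0 < w0 := by rw [hw0]; exact Real.sqrt_pos.2 hw1p
  have hw0s : w0 ^ 2 = w1 := by rw [hw0, Real.sq_sqrt hw1p.le]
  obtain ⟨K, hKd⟩ : ∃ K : Set (m × m), K = ((FlagSet Q : Set (m × m)) ∩
      (fun p : m × m => c p.1) ⁻¹' (Set.Icc cB cA)) ∩
      (fun p : m × m => Q (B p.1) p.2) ⁻¹' (Set.Ici 0) := ⟨_, rfl⟩
  have hKm : ∀ u b : m, (u, b) ∈ K ↔ Flag Q u b ∧ (cB ≤ c u ∧ c u ≤ cA) ∧ 0 ≤ Q (B u) b := by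
    intro u b
    rw [hKd]
    constructor
    · rintro ⟨⟨h1, h2⟩, h3⟩; exact ⟨h1, h2, h3⟩
    · rintro ⟨h1, h2, h3⟩; exact ⟨⟨h1, h2⟩, h3⟩
  have hK : IsCompact K := by
    have k1 := compact_sub hN (cont_fst hC.csm hS) (isClosed_Icc (a := cB) (b := cA))
    have hS1 : ∀ p ∈ (FlagSet Q : Set (m × m)) ∩ (fun p : m × m => c p.1) ⁻¹'
      (Set.Icc cB cA), p.1 ≠ 0 := fun p hp => hS p hp.1
    rw [hKd]
    exact k1.of_isClosed_subset ((w_cont hC hS1).preimage_isClosed_of_isClosed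
        k1.isClosed isClosed_Ici) Set.inter_subset_left
  have hSK : ∀ p ∈ K, p.1 ≠ 0 := fun p hp => hS p ((hKm p.1 p.2).1 hp).1
  have hwK : ∀ u b : m, (u, b) ∈ K → w0 ≤ Q (B u) b := by
    intro u b hp
    obtain ⟨h1, ⟨h2, h3⟩, h4⟩ := (hKm u b).1 hp
    have h5 := hC.cw u b h1
    have h6 : w0 ^ 2 ≤ Q (B u) b ^ 2 := by rw [hw0s]; have := hlev (c u) h2 h3; linarith
    exact (pow_le_pow_iff_left₀ hw0'.le h4 two_ne_zero).1 h6
  have hRK : ∀ p ∈ K, al P h0 v p.1 p.2 = 0 → 0 < al P h0 z p.1 p.2 := by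
    rintro ⟨u, b⟩ hp ha
    obtain ⟨h1, ⟨h2, h3⟩, -⟩ := (hKm u b).1 hp
    exact (mul_pos_iff_of_pos_left (lt_of_lt_of_le hw0' (hwK u b hp))).1 (R u b h1 h2 h3 ha)
  -- continuity
  have cvp := al_cont (P := P) (h0 := h0) hv.smooth hSK
  have czp := al_cont (P := P) (h0 := h0) hz.smooth hSK
  have cvp' := al'_cont (P := P) (h0 := h0) hv.smooth hSK
  have czp' := al'_cont (P := P) (h0 := h0) hz.smooth hSK
  have ccc : ContinuousOn (fun p : m × m => c p.1) K := cont_fst hC.csm hSK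
  have cww : ContinuousOn (fun p : m × m => Q (B p.1) p.2) K := w_cont hC hSK
  -- the constant of the fast rotation
  obtain ⟨κ, hκ, ε1, hε1', hrot⟩ := rot_exists hK (A := ∅) isCompact_empty (Set.empty_subset _)
    (p := fun p => al P h0 v p.1 p.2) (q := fun p => al P h0 z p.1 p.2)
    (p' := fun p => al' P h0 v p.1 p.2) (q' := fun p => al' P h0 z p.1 p.2) cvp czp cvp' czp' hRK
    (fun p hp => absurd hp (Set.notMem_empty _))
  obtain ⟨Λ, hΛd⟩ : ∃ Λ, Λ = κ / (4 * w0) + 1 := ⟨_, rfl⟩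
  have hΛ : 0 < Λ := by rw [hΛd]; positivity
  have hΛκ : κ ≤ 4 * w0 * Λ := by
    rw [hΛd, mul_add, mul_div_cancel₀ _ (by positivity)]
    linarith
  -- the layers
  have hKT : ∀ y ∈ K ×ˢ (Set.univ : Set (ℝ × ℝ)), y.1.1 ≠ 0 := fun y hy => hSK _ hy.1
  have hKE : ∀ y ∈ K ×ˢ (Set.univ : Set ℝ), y.1.1 ≠ 0 := fun y hy => hSK _ hy.1
  obtain ⟨r, hrd⟩ : ∃ r : m × m → ℝ, r = fun p => 8 * Q (B p.1) p.2 ^ 2 := ⟨_, rfl⟩
  have hr : ∀ x ∈ K, 8 * w0 ^ 2 ≤ r x := by
    intro x hx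
    rw [hrd]
    have h1 := hwK x.1 x.2 hx
    have h2 : w0 ^ 2 ≤ Q (B x.1) x.2 ^ 2 := pow_le_pow_left₀ hw0'.le h1 2
    simp only
    linarith
  have hs4 : ∀ x ∈ K, 0 ≤ 4 * Q (B x.1) x.2 := by
    intro x hx
    have h1 := hwK x.1 x.2 hx
    linarith
  obtain ⟨εA, hεA, KA, hKA, layA⟩ := layer hK (p := fun p => al P h0 v p.1 p.2)
    (q := fun p => al P h0 z p.1 p.2) (p' := fun p => al' P h0 v p.1 p.2)
    (q' := fun p => al' P h0 z p.1 p.2) (γ := fun p => cA - c p.1)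
    (s := fun p => 4 * Q (B p.1) p.2) (r := r) (T := TT Q P c v z) (Ec := EE Q P v z)
    cvp czp cvp' czp' (continuousOn_const.sub ccc)
    (fun x hx => by have := ((hKm x.1 x.2).1 hx).2.1.2; linarith) hs4
    (r0 := 8 * w0 ^ 2) (by positivity) hr (TT_cont hN hC hv.smooth hz.smooth hKT)
    (EE_cont hN hv.smooth hz.smooth hKE) (fun x hx _ hp => hRK x hx hp)
    (fun x hx hg hp => by
      obtain ⟨u, b⟩ := x
      rw [TT_zero]
      exact TA u b ((hKm u b).1 hx).1 (by have : cA - c u = 0 := hg; linarith) hp)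
    (fun x hx hg hp => by
      obtain ⟨u, b⟩ := x
      rw [EE_zero]
      exact EA u b ((hKm u b).1 hx).1 (by have : cA - c u = 0 := hg; linarith) hp) hΛ
  obtain ⟨εB, hεB, KB, hKB, layB⟩ := layer hK (p := fun p => al P h0 v p.1 p.2)
    (q := fun p => al P h0 z p.1 p.2) (p' := fun p => al' P h0 v p.1 p.2)
    (q' := fun p => al' P h0 z p.1 p.2) (γ := fun p => c p.1 - cB)
    (s := fun p => 4 * Q (B p.1) p.2) (r := r) (T := TT Q P c v z)
    (Ec := fun y => -EE Q P v z y)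
    cvp czp cvp' czp' (ccc.sub continuousOn_const)
    (fun x hx => by have := ((hKm x.1 x.2).1 hx).2.1.1; linarith) hs4
    (r0 := 8 * w0 ^ 2) (by positivity) hr (TT_cont hN hC hv.smooth hz.smooth hKT)
    (EE_cont hN hv.smooth hz.smooth hKE).neg (fun x hx _ hp => hRK x hx hp)
    (fun x hx hg hp => by
      obtain ⟨u, b⟩ := x
      rw [TT_zero]
      exact TB u b ((hKm u b).1 hx).1 (by have : c u - cB = 0 := hg; linarith) hp)
    (fun x hx hg hp => by
      obtain ⟨u, b⟩ := x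
      rw [EE_zero]
      rcases EB u b ((hKm u b).1 hx).1 (by have : c u - cB = 0 := hg; linarith) hp with h1 | h1
      · left; linarith
      · right; exact h1) hΛ
  -- the angle function
  obtain ⟨l, N, hl, hl2, hl3, hl1, hl4⟩ := lam2 (a := cB) (b := cA) (ε := min εA εB) (Λ := Λ)
    (K := max KA KB) hcc (lt_min hεA hεB) hΛ (lt_of_lt_of_le hKA (le_max_left _ _))
  have hεA' := min_le_left εA εB
  have hεB' := min_le_right εA εB
  have hKA' := le_max_left KA KB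
  have hKB' := le_max_right KA KB
  -- the function
  have hφs := rot_smooth hC hl hv.smooth hz.smooth
  have hφH : InvH H (rot l c v z) := rot_inv hG hvH hzH
  refine ⟨rot l c v z, ⟨hφs, rot_hom hC hv.hom hz.hom, inv_of_InvH hN hG hφs hφH⟩, hφH, ?_⟩
  have hsinN : Real.sin (2 * Real.pi * N) = 0 := by
    have h3 : (2 * Real.pi * (N : ℝ)) = (N : ℝ) * (2 * Real.pi) := by ring
    have := Real.sin_nat_mul_pi (N * 2)
    push_cast at this
    rw [mul_assoc] at this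
    rw [h3]
    exact this
  have hcosN : Real.cos (2 * Real.pi * N) = 1 := by
    have h3 : (2 * Real.pi * (N : ℝ)) = (N : ℝ) * (2 * Real.pi) := by ring
    rw [h3, Real.cos_nat_mul_two_pi]
  have hnear : ∀ u : m, u ≠ 0 → (c u < cB ∨ cA < c u) → rot l c v z =ᶠ[𝓝 u] v := by
    intro u hu hcu
    have hcc : ContinuousAt c u := (dAt hC.csm hu).continuousAt
    rcases hcu with h1 | h1
    · filter_upwards [hcc.eventually (gt_mem_nhds h1)] with x hx
      have h2 := hl3 (c x) (le_of_lt hx)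
      unfold rot
      rw [h2, hcosN, hsinN]
      ring
    · filter_upwards [hcc.eventually (lt_mem_nhds h1)] with x hx
      have h2 := hl2 (c x) (le_of_lt hx)
      unfold rot
      rw [h2, Real.cos_zero, Real.sin_zero]
      ring
  -- flags in `K`
  have hpos : ∀ u b : m, (u, b) ∈ K → al P h0 (rot l c v z) u b = 0 →
      0 < T3F Q P (rot l c v z) u b ∨ al' P h0 (rot l c v z) u b ≠ 0 := by
    intro u b hp ha
    obtain ⟨hF, ⟨hc1, hc2⟩, hw⟩ := (hKm u b).1 hp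
    have hw1 := hwK u b hp
    rw [rot_al hN hC hl hv.smooth hz.smooth hF] at ha
    rw [rot_al' hN hC hl hv.smooth hz.smooth hF, T3F_rot hN hC hG hv hvH hz hzH hl hF ha]
    have h8 : 1 / 2 * D1 c u b ^ 2 = r (u, b) := by
      rw [flag_c1 hN hC hF, hrd]
      ring
    rw [h8]
    have hlc := hl1 (c u)
    rcases hl4 (c u) hc1 hc2 with h1 | ⟨h1, h2, h3, h4, h5⟩ | ⟨h1, h2, h3, h4, h5⟩
    · right
      have h6 : κ ≤ -4 * Q (B u) b * deriv l (c u) := by nlinarith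
      have h7 := hrot (u, b) hp (l (c u)) (-4 * Q (B u) b * deriv l (c u)) (hκ.le.trans h6)
        (Or.inl h6) ha
      exact h7
    · have h6 := layA (u, b) hp (l (c u)) (deriv l (c u)) (deriv (deriv l) (c u))
        (by have : cA - c u ≤ εA := by linarith
            exact this) (h2.trans hεA') h3 hlc h4
        (by rcases h5 with h5 | h5
            · left; linarith
            · right; linarith) ha
      rcases h6 with h6 | h6
      · left; exact h6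
      · right
        simp only at h6
        refine ne_of_gt (lt_of_lt_of_eq h6 ?_)
        ring
    · have hcp : Real.cos (l (c u) - 2 * Real.pi * N) = Real.cos (l (c u)) := by
        rw [mul_comm (2 * Real.pi) (N : ℝ), Real.cos_sub_nat_mul_two_pi]
      have hsp : Real.sin (l (c u) - 2 * Real.pi * N) = Real.sin (l (c u)) := by
        rw [mul_comm (2 * Real.pi) (N : ℝ), Real.sin_sub_nat_mul_two_pi]
      have h6 := layB (u, b) hp (l (c u) - 2 * Real.pi * N) (deriv l (c u))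
        (-deriv (deriv l) (c u))
        (by have : c u - cB ≤ εB := by linarith
            exact this) (h2.trans hεB') h3 hlc (by linarith)
        (by rcases h5 with h5 | h5
            · left; linarith
            · right; linarith) (by rw [hcp, hsp]; exact ha)
      rw [hcp, hsp, TT_per, EE_per] at h6
      rcases h6 with h6 | h6
      · left
        refine lt_of_lt_of_eq h6 ?_
        ring
      · right
        simp only at h6
        refine ne_of_gt (lt_of_lt_of_eq h6 ?_)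
        ring
  intro u b hF ha
  have hu := hF.ne hN
  by_cases hcu : c u < cB ∨ cA < c u
  · left
    have h3 := hnear u hu hcu
    rw [al_congr h3] at ha
    rw [T3F_congr hN h3]
    rcases hcu with h1 | h1
    · exact TB u b hF h1.le ha
    · exact TA u b hF h1.le ha
  · rw [not_or, not_lt, not_lt] at hcu
    have hwne : Q (B u) b ≠ 0 := by
      intro h0'
      have h1 := hC.cw u b hF
      rw [h0'] at h1
      have h2 := hlev (c u) hcu.1 hcu.2
      nlinarith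
    rcases lt_or_gt_of_ne hwne with hw | hw
    · have hF' := hF.neg
      have h1 : 0 < Q (B u) ((-b : m) : 𝔸) := by
        rw [Submodule.coe_neg, map_neg]; linarith
      have hp : (u, -b) ∈ K := (hKm u (-b)).2 ⟨hF', hcu, h1.le⟩
      have h2 := hpos u (-b) hp (by rw [al_neg, ha, neg_zero])
      rw [al'_neg hφs hu, T3F_neg hN hφs hu] at h2
      rcases h2 with h2 | h2
      · exact Or.inl h2
      · exact Or.inr (mul_ne_zero hw.ne h2)
    · have hp : (u, b) ∈ K := (hKm u b).2 ⟨hF, hcu, hw.le⟩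
      rcases hpos u b hp ha with h2 | h2
      · exact Or.inl h2
      · exact Or.inr (mul_ne_zero hw.ne' h2)

/-- the generalised step B together with step A -/
theorem SB_T3Pos (hN : NData g h m Q P) (hC : Cas g h m Q P h0 B c) (hG : GrpD H h m Q h0 B c)
    (hv : PhiN h m P v) (hvH : InvH H v) (hz : PhiN h m P z) (hzH : InvH H z) {cB cA : ℝ}
    (hcc : cB < cA) (hA1 : cA < 1) (hB1 : -1 < cB)
    (R : ∀ u b : m, Flag Q u b → cB ≤ c u → c u ≤ cA → al P h0 v u b = 0 →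
      0 < Q (B u) b * al P h0 z u b)
    (TA : ∀ u b : m, Flag Q u b → cA ≤ c u → al P h0 v u b = 0 → 0 < T3F Q P v u b)
    (TB : ∀ u b : m, Flag Q u b → c u ≤ cB → al P h0 v u b = 0 → 0 < T3F Q P v u b)
    (EA : ∀ u b : m, Flag Q u b → c u = cA → al P h0 v u b = 0 →
      E2 Q P v z u < 0 ∨ 0 < al' P h0 v u b)
    (EB : ∀ u b : m, Flag Q u b → c u = cB → al P h0 v u b = 0 →
      0 < E2 Q P v z u ∨ 0 < al' P h0 v u b) :
    ∃ φ : m → ℝ, PhiN h m P φ ∧ InvH H φ ∧ T3Pos h Q P φ := by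
  obtain ⟨φ, h1, h2, h3⟩ := SB hN hC hG hv hvH hz hzH hcc hA1 hB1 R TA TB EA EB
  obtain ⟨κ, hκ⟩ := stepA hN hC h1 h3
  obtain ⟨h4, h5⟩ := sq_PhiN hN hC hG h1 h2 κ
  exact ⟨_, h4, h5, hκ⟩

end Pool.Agent.helper75.FL
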