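import Pool.Agent.helper75.FL.F2d
import Pool.Agent.FL.EndAB
import Pool.Agent.FL.MidAB
import Pool.Agent.FL.GE4w

/-!
# MP_f09395_gt, space (2): the final assembly
-/

set_option linter.unusedSectionVars false

noncomputable section

namespace Pool.Agent.FL.S2

open scoped ContDiff Quaternion Matrix
open Pool.Agent.Helper93.Fin Pool.Agent.helper79.FP Pool.Agent.helper79.FR
open Pool.Agent.helper79.FR.Sp2 (Mat QQ h0 m gg hh PP BB cc)
open Pool.Agent.helper79.FR Pool.Agent.helper75.FL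
open Filter Topology

attribute [local instance] Matrix.linftyOpNormedRing Matrix.linftyOpNormedAlgebra

/-! ### the cut-off functions -/

/-- positive exactly on `(a, b)` -/
def bump (a b x : ℝ) : ℝ := Real.smoothTransition (x - a) * Real.smoothTransition (b - x)

theorem bump_smooth (a b : ℝ) : ContDiff ℝ ∞ (bump a b) :=
  (Real.smoothTransition.contDiff.comp (contDiff_id.sub contDiff_const)).mul
    (Real.smoothTransition.contDiff.comp (contDiff_const.sub contDiff_id))

theorem bump_nonneg (a b x : ℝ) : 0 ≤ bump a b x :=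
  mul_nonneg (Real.smoothTransition.nonneg _) (Real.smoothTransition.nonneg _)

theorem bump_pos {a b x : ℝ} (h1 : a < x) (h2 : x < b) : 0 < bump a b x :=
  mul_pos (Real.smoothTransition.pos_of_pos (by linarith))
    (Real.smoothTransition.pos_of_pos (by linarith))

theorem bump_zero {a b x : ℝ} (h : x ≤ a ∨ b ≤ x) : bump a b x = 0 := by
  unfold bump
  rcases h with h | h
  · rw [Real.smoothTransition.zero_of_nonpos (by linarith), zero_mul]
  · rw [Real.smoothTransition.zero_of_nonpos (x := b - x) (by linarith), mul_zero]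

/-- the relative size of `a` -/
def ra (u : R9) : ℝ := aa u / dot9 u u

theorem ra_smooth : ContDiffOn ℝ ∞ ra {0}ᶜ := by
  have h1 : ContDiff ℝ ∞ (fun u : R9 => aa u) := by
    have e : (fun u : R9 => aa u) = fun u => u.1 0 * u.1 0 + u.1 1 * u.1 1 + u.1 2 * u.1 2 := by
      funext u; rw [aa, dot3]
    rw [e]; fun_prop
  exact h1.contDiffOn.div GE5_smooth_dot9.contDiffOn fun u hu => (GE5_dot9_pos hu).ne'

theorem ra_hom (r : ℝ) (u : R9) (hr : r ≠ 0) : ra (r • u) = ra u := by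
  unfold ra
  rw [GE5_smul_dot9]
  have h1 : aa (r • u) = r ^ 2 * aa u := by
    simp only [aa, Prod.smul_fst, smul_dotProduct, dotProduct_smul, smul_eq_mul]; ring
  rw [h1, mul_div_mul_left _ _ (pow_ne_zero 2 hr)]

theorem ra_inv (t : ℝ) (u : R9) : ra (rotH t u) = ra u := by
  unfold ra
  rw [GE5_rot_dot9]
  rfl

theorem ra_flag {u b : R9} (h : Flg u b) : ra u = aa u := by
  unfold ra; rw [h.uu, div_one]

/-- functions of `ra` and `cM` -/
theorem rc_al {Φ : ℝ × ℝ → ℝ} (hΦ : ContDiff ℝ ∞ Φ) {u b : R9} (h : Flg u b) :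
    alM (fun z => Φ (ra z, cM z)) u b = 0 := by
  have hu := h.ne
  have h1 : DifferentiableAt ℝ (fun z : R9 => ra z) u := dAt ra_smooth hu
  have h2 : DifferentiableAt ℝ (fun z : R9 => cM z) u := dAt GE5_smooth_cM hu
  refine GE5_comp (J := fun z => (ra z, cM z)) (h1.prodMk h2) ?_
    ((hΦ.differentiable (by simp)).differentiableAt)
  have h3 : fderiv ℝ (fun z : R9 => ra z) u (rot b) = 0 := by
    have hd : DifferentiableAt ℝ (fun z : R9 => (z.1, dot9 z z)) u :=
      ((GE5_smooth_fst.prodMk GE5_smooth_dot9).differentiable (by simp)).differentiableAt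
    have hd1 : DifferentiableAt ℝ (fun z : R9 => z.1) u :=
      (GE5_smooth_fst.differentiable (by simp)).differentiableAt
    have hd2 : DifferentiableAt ℝ (fun z : R9 => dot9 z z) u :=
      (GE5_smooth_dot9.differentiable (by simp)).differentiableAt
    have h4 : fderiv ℝ (fun z : R9 => (z.1, dot9 z z)) u (rot b) = 0 := by
      rw [(hd1.hasFDerivAt.prodMk hd2.hasFDerivAt).fderiv]
      simp only [ContinuousLinearMap.prod_apply]
      rw [GE5_D_fst, GE5_D_dot9 h]
      rfl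
    have hΨ : DifferentiableAt ℝ (fun q : R3 × ℝ => (q.1 ⬝ᵥ q.1) / q.2) (u.1, dot9 u u) := by
      have e : (fun q : R3 × ℝ => (q.1 ⬝ᵥ q.1) / q.2) = fun q =>
          (q.1 0 * q.1 0 + q.1 1 * q.1 1 + q.1 2 * q.1 2) * (q.2)⁻¹ := by
        funext q; rw [dot3, div_eq_mul_inv]
      rw [e]
      have : (u.1, dot9 u u).2 ≠ 0 := by simp only; rw [h.uu]; norm_num
      have h6 : DifferentiableAt ℝ (fun q : R3 × ℝ => (q.2)⁻¹) (u.1, dot9 u u) :=
        (differentiableAt_inv this).comp (u.1, dot9 u u) differentiableAt_snd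
      exact DifferentiableAt.fun_mul (by fun_prop) h6
    exact GE5_comp (J := fun z : R9 => (z.1, dot9 z z))
      (Φ := fun q : R3 × ℝ => (q.1 ⬝ᵥ q.1) / q.2) hd h4 hΨ
  have h5 : fderiv ℝ (fun z : R9 => cM z) u (rot b) = 0 := GE5_D_cM h
  rw [(h1.hasFDerivAt.prodMk h2.hasFDerivAt).fderiv]
  simp only [ContinuousLinearMap.prod_apply]
  rw [h3, h5]
  rfl

/-- the cut-off function `ζ` -/
def zM (dA dB : ℝ) (u : R9) : ℝ :=
  bump dA (1 - dA) (ra u) * bump (1 - 4 * dA * (1 - dA)) 2 (cM u) +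
    bump dB (1 / 2 - dB) (ra u) * bump (-2) (-1 + 4 * dB ^ 2) (cM u)

theorem zM_smooth (dA dB : ℝ) : ContDiffOn ℝ ∞ (zM dA dB) {0}ᶜ :=
  (((bump_smooth _ _).comp_contDiffOn ra_smooth).mul
    ((bump_smooth _ _).comp_contDiffOn GE5_smooth_cM)).add
  (((bump_smooth _ _).comp_contDiffOn ra_smooth).mul
    ((bump_smooth _ _).comp_contDiffOn GE5_smooth_cM))

theorem zM_al {dA dB : ℝ} {u b : R9} (h : Flg u b) : alM (zM dA dB) u b = 0 := by
  have hΦ : ContDiff ℝ ∞ fun q : ℝ × ℝ =>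
      bump dA (1 - dA) q.1 * bump (1 - 4 * dA * (1 - dA)) 2 q.2 +
        bump dB (1 / 2 - dB) q.1 * bump (-2) (-1 + 4 * dB ^ 2) q.2 :=
    (((bump_smooth _ _).comp contDiff_fst).mul ((bump_smooth _ _).comp contDiff_snd)).add
      (((bump_smooth _ _).comp contDiff_fst).mul ((bump_smooth _ _).comp contDiff_snd))
  exact rc_al hΦ h

theorem zM_nonneg (dA dB : ℝ) (u : R9) : 0 ≤ zM dA dB u :=
  add_nonneg (mul_nonneg (bump_nonneg _ _ _) (bump_nonneg _ _ _))
    (mul_nonneg (bump_nonneg _ _ _) (bump_nonneg _ _ _))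

/-- at wall A -/
theorem zM_A {dA dB : ℝ} (hA : 0 < dA) (hA1 : dA < 1 / 8) {u b : R9} (h : Flg u b)
    (hc : cM u = 1) (hz : zM dA dB u = 0) : aa u ≤ 2 * dA ∨ 1 - 2 * dA ≤ aa u := by
  by_contra hcon
  rw [not_or, not_le, not_le] at hcon
  have h1 : 0 < bump dA (1 - dA) (ra u) :=
    bump_pos (by rw [ra_flag h]; linarith [hcon.1]) (by rw [ra_flag h]; linarith [hcon.2])
  have h2 : 0 < bump (1 - 4 * dA * (1 - dA)) 2 (cM u) :=
    bump_pos (by rw [hc]; nlinarith) (by rw [hc]; norm_num)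
  have h3 := mul_pos h1 h2
  have h4 : 0 ≤ bump dB (1 / 2 - dB) (ra u) * bump (-2) (-1 + 4 * dB ^ 2) (cM u) :=
    mul_nonneg (bump_nonneg _ _ _) (bump_nonneg _ _ _)
  unfold zM at hz
  linarith

/-- at wall B -/
theorem zM_B {dA dB : ℝ} (hB : 0 < dB) {u b : R9} (h : Flg u b)
    (hc : cM u = -1) (hz : zM dA dB u = 0) : aa u ≤ 2 * dB ∨ 1 / 2 - 2 * dB ≤ aa u := by
  by_contra hcon
  rw [not_or, not_le, not_le] at hcon
  have h1 : 0 < bump dB (1 / 2 - dB) (ra u) :=
    bump_pos (by rw [ra_flag h]; linarith [hcon.1]) (by rw [ra_flag h]; linarith [hcon.2])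
  have h2 : 0 < bump (-2) (-1 + 4 * dB ^ 2) (cM u) :=
    bump_pos (by rw [hc]; norm_num) (by rw [hc]; nlinarith)
  have h3 := mul_pos h1 h2
  have h4 : 0 ≤ bump dA (1 - dA) (ra u) * bump (1 - 4 * dA * (1 - dA)) 2 (cM u) :=
    mul_nonneg (bump_nonneg _ _ _) (bump_nonneg _ _ _)
  unfold zM at hz
  linarith

/-- `ζ = 0` near the exceptional set -/
theorem zM_T {p : Par} {dA dB : ℝ} (hA : 0 < dA) (hA1 : dA < 1 / 8) (hB : 0 < dB)
    (hB1 : dB < 1 / 16) {k : R9 × R9} (hk : k ∈ TS p) : zM dA dB =ᶠ[𝓝 k.1] 0 := by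
  have hF := TS_Flg hk
  have hu := hF.ne
  have hrc : ContinuousAt ra k.1 := (dAt ra_smooth hu).continuousAt
  have hcc : ContinuousAt cM k.1 := (dAt GE5_smooth_cM hu).continuousAt
  have hra := ra_flag hF
  have haa0 : 0 ≤ aa k.1 := by
    unfold aa; rw [dot3]; nlinarith [mul_self_nonneg (k.1.1 0), mul_self_nonneg (k.1.1 1),
      mul_self_nonneg (k.1.1 2)]
  -- first summand
  have hA' : ∀ᶠ z in 𝓝 k.1,
      bump dA (1 - dA) (ra z) * bump (1 - 4 * dA * (1 - dA)) 2 (cM z) = 0 := by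
    by_cases h1 : aa k.1 < dA
    · filter_upwards [hrc.eventually (gt_mem_nhds (by rw [hra]; exact h1))] with z hz
      rw [bump_zero (Or.inl (le_of_lt hz)), zero_mul]
    · by_cases h2 : 1 - dA < aa k.1
      · filter_upwards [hrc.eventually (lt_mem_nhds (by rw [hra]; exact h2))] with z hz
        rw [bump_zero (Or.inr (le_of_lt hz)), zero_mul]
      · rw [not_lt] at h1 h2
        have h3 : cM k.1 < 1 - 4 * dA * (1 - dA) := by
          rcases TS_cM hk with h4 | h4
          · rw [h4] at h1; linarith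
          · rw [h4]
            have h5 : dA * (1 - dA) ≤ aa k.1 * (1 - aa k.1) := by nlinarith
            have h6 : 0 < dA * (1 - dA) := by nlinarith
            linarith
        filter_upwards [hcc.eventually (gt_mem_nhds h3)] with z hz
        rw [bump_zero (x := cM z) (Or.inl (le_of_lt hz)), mul_zero]
  have hB' : ∀ᶠ z in 𝓝 k.1,
      bump dB (1 / 2 - dB) (ra z) * bump (-2) (-1 + 4 * dB ^ 2) (cM z) = 0 := by
    by_cases h1 : aa k.1 < dB
    · filter_upwards [hrc.eventually (gt_mem_nhds (by rw [hra]; exact h1))] with z hz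
      rw [bump_zero (Or.inl (le_of_lt hz)), zero_mul]
    · by_cases h2 : 1 / 2 - dB < aa k.1
      · filter_upwards [hrc.eventually (lt_mem_nhds (by rw [hra]; exact h2))] with z hz
        rw [bump_zero (Or.inr (le_of_lt hz)), zero_mul]
      · rw [not_lt] at h1 h2
        have h3 : -1 + 4 * dB ^ 2 < cM k.1 := by
          rcases TS_cM hk with h4 | h4
          · rw [h4] at h1; linarith
          · rw [h4]
            have h5 : 2 * dB ≤ 1 - 2 * aa k.1 := by linarith
            have h6 : (2 * dB) ^ 2 ≤ (1 - 2 * aa k.1) ^ 2 :=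
              pow_le_pow_left₀ (by linarith) h5 2
            have h7 : 0 < dB ^ 2 := by positivity
            nlinarith
        filter_upwards [hcc.eventually (lt_mem_nhds h3)] with z hz
        rw [bump_zero (x := cM z) (Or.inr (le_of_lt hz)), mul_zero]
  filter_upwards [hA', hB'] with z h1 h2
  unfold zM
  rw [h1, h2]
  simp

/-! ### the cut-off of the `W`-invariant functions -/

theorem chi_wm {n : R9 → ℝ} (hn : WM n) (ς : ℝ) :
    WM fun u => Real.smoothTransition (1 + 2 * (ς * cM u)) * n u :=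
  GE5_WM_cM (l := fun x => Real.smoothTransition (1 + 2 * (ς * x)))
    (Real.smoothTransition.contDiff.comp (by fun_prop)) hn

theorem chi_near {n : R9 → ℝ} {ς : ℝ} {u : R9} (hu : u ≠ 0) (h : 0 < ς * cM u) :
    (fun u => Real.smoothTransition (1 + 2 * (ς * cM u)) * n u) =ᶠ[𝓝 u] n := by
  have hcc : ContinuousAt (fun z => ς * cM z) u :=
    continuousAt_const.mul (dAt GE5_smooth_cM hu).continuousAt
  filter_upwards [hcc.eventually (lt_mem_nhds h)] with z hz
  rw [Real.smoothTransition.one_of_one_le (by linarith), one_mul]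

theorem chi_far {n : R9 → ℝ} {ς : ℝ} {u : R9} (hu : u ≠ 0) (h : ς * cM u < -(1 / 2)) :
    (fun u => Real.smoothTransition (1 + 2 * (ς * cM u)) * n u) =ᶠ[𝓝 u] fun _ => 0 := by
  have hcc : ContinuousAt (fun z => ς * cM z) u :=
    continuousAt_const.mul (dAt GE5_smooth_cM hu).continuousAt
  filter_upwards [hcc.eventually (gt_mem_nhds h)] with z hz
  rw [Real.smoothTransition.zero_of_nonpos (by linarith), zero_mul]

/-- the sum of a family -/
theorem fam_wm {N : ℕ} {ψ : Fin N → R9 → ℝ} (h : ∀ i, WM (ψ i)) (τ : Fin N → ℝ) :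
    WM fun u => ∑ i, τ i * ψ i u :=
  GE5_WM_sum Finset.univ fun i _ => GE5_WM_smul (τ i) (h i)

theorem fam_far {N : ℕ} {ψ : Fin N → R9 → ℝ} {ς : ℝ}
    (h : ∀ i u, u ≠ 0 → cM u * ς ≤ 0 → ψ i =ᶠ[𝓝 u] 0) (τ : Fin N → ℝ) {u : R9} (hu : u ≠ 0)
    (hc : cM u * ς ≤ 0) : (fun u => ∑ i, τ i * ψ i u) =ᶠ[𝓝 u] fun _ => 0 := by
  have h1 : ∀ᶠ z in 𝓝 u, ∀ i, ψ i z = 0 := by
    rw [eventually_all]
    intro i
    exact h i u hu hc
  filter_upwards [h1] with z hz
  exact Finset.sum_eq_zero fun i _ => by rw [hz i, mul_zero]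

theorem a2M_congr {v v' : R9 → ℝ} (hv : PhiM v) (hv' : PhiM v') {u : R9} (hu : u ≠ 0) (b : R9)
    (h : v =ᶠ[𝓝 u] v') : a2M v u b = a2M v' u b := by
  rw [← a2_toM hv hu, ← a2_toM hv' hu]
  exact a2_congr nData2 (eventuallyEq_toM h)

/-- **the final assembly** -/
theorem fin2 {p : Par} (hp : ParOK p) : ∃ ψ : m 1 1 → ℝ,
    PhiN (hh 1 1) (m 1 1) (PP 1 1) ψ ∧ InvH (Sp2.H 1 1) ψ ∧
      T3Pos (hh 1 1) Q2 (PP 1 1) ψ := by
  have hv0 := GE5_v0 p
  obtain ⟨nA, dA, hnA, hdA, hdA1, hendA⟩ := endA hp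
  obtain ⟨nB, dB, hnB, hdB, hdB1, hendB⟩ := endB hp
  obtain ⟨NA, ψA, hψA, hsA, hmA⟩ := midA hp hnA hdA hdA1 hendA
  obtain ⟨NB, ψB, hψB, hsB, hmB⟩ := midB hp hnB hdB hdB1 hendB
  -- the compact set of exceptional flags
  obtain ⟨S, hSd⟩ : ∃ S : Set (m 1 1 × m 1 1), S = (fun k : R9 × R9 => (iota k.1, iota k.2)) '' TS p :=
    ⟨_, rfl⟩
  have hS : IsCompact S := by
    rw [hSd]
    exact (isCompact_TS p).image ((iota.continuous.comp continuous_fst).prodMk
      (iota.continuous.comp continuous_snd))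
  have hSF : ∀ q ∈ S, Flag Q2 q.1 q.2 := by
    rw [hSd]
    rintro _ ⟨k, hk, rfl⟩
    exact (flag_iff _ _).2 (TS_Flg hk)
  have hSne : ∀ q ∈ S, q.1 ≠ 0 := fun q hq => (hSF q hq).ne nData2
  -- openness
  obtain ⟨Ψ, hΨ⟩ : ∃ Ψ : Option (Fin NA ⊕ Fin NB) → m 1 1 → ℝ, Ψ = fun i => match i with
    | none => toM (v0 p)
    | some (Sum.inl i) => toM (ψA i)
    | some (Sum.inr i) => toM (ψB i) := ⟨_, rfl⟩
  have hΨs : ∀ i, ContDiffOn ℝ ∞ (Ψ i) {0}ᶜ := by
    rw [hΨ]
    rintro (_ | i | i)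
    · exact (phiN_toM hv0).1.smooth
    · exact (WM.winv (hψA i)).phi.smooth
    · exact (WM.winv (hψB i)).phi.smooth
  have hcmb : ∀ (τA : Fin NA → ℝ) (τB : Fin NB → ℝ),
      cmb (fun i : Option (Fin NA ⊕ Fin NB) => match i with
        | none => 1
        | some (Sum.inl i) => τA i
        | some (Sum.inr i) => τB i) Ψ =
      toM (fun u => v0 p u + ((∑ i, τA i * ψA i u) + ∑ i, τB i * ψB i u)) := by
    intro τA τB
    funext z
    simp only [cmb, Fintype.sum_option, Fintype.sum_sum_type, hΨ, one_mul]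
    rfl
  obtain ⟨a0, ha0⟩ : ∃ a0 : Option (Fin NA ⊕ Fin NB) → ℝ, a0 = fun i => match i with
        | none => 1
        | some (Sum.inl _) => 0
        | some (Sum.inr _) => 0 := ⟨_, rfl⟩
  obtain ⟨ε, hε, hopen⟩ := T3F_open nData2 hΨs hS hSne a0 (by
    rw [hSd]
    rintro _ ⟨k, hk, rfl⟩
    have h1 := hcmb 0 0
    have h2 : a0 = (fun i : Option (Fin NA ⊕ Fin NB) => match i with
        | none => 1
        | some (Sum.inl i) => (0 : Fin NA → ℝ) i
        | some (Sum.inr i) => (0 : Fin NB → ℝ) i) := ha0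
    rw [h2, h1]
    have h3 : (fun u => v0 p u + ((∑ i, (0 : Fin NA → ℝ) i * ψA i u) +
        ∑ i, (0 : Fin NB → ℝ) i * ψB i u)) = v0 p := by
      funext u
      simp
    rw [h3]
    exact TS_pos hp hk)
  obtain ⟨τA, hτA, nA', hnA', hA⟩ := hmA ε hε
  obtain ⟨τB, hτB, nB', hnB', hB⟩ := hmB ε hε
  have hwA := fam_wm hψA τA
  have hwB := fam_wm hψB τB
  obtain ⟨w, hwd⟩ : ∃ w : R9 → ℝ, w = fun u => (∑ i, τA i * ψA i u) + ∑ i, τB i * ψB i u :=
    ⟨_, rfl⟩
  have hw : WM w := by rw [hwd]; exact GE5_WM_add hwA hwB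
  obtain ⟨v1, hv1d⟩ : ∃ v1 : R9 → ℝ, v1 = fun u => v0 p u + w u := ⟨_, rfl⟩
  have hv1 : PhiM v1 := by rw [hv1d]; exact hv0.add hw.phi
  obtain ⟨vA, hvAd⟩ : ∃ vA : R9 → ℝ, vA = fun u => v0 p u + ∑ i, τA i * ψA i u := ⟨_, rfl⟩
  have hvA : PhiM vA := by rw [hvAd]; exact hv0.add hwA.phi
  obtain ⟨vB, hvBd⟩ : ∃ vB : R9 → ℝ, vB = fun u => v0 p u + ∑ i, τB i * ψB i u := ⟨_, rfl⟩
  have hvB : PhiM vB := by rw [hvBd]; exact hv0.add hwB.phi
  have hS1 : ∀ q ∈ S, 0 < T3F Q2 (PP 1 1) (toM v1) q.1 q.2 := by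
    intro q hq
    have h1 := hopen (fun i => match i with
        | none => 1
        | some (Sum.inl i) => τA i
        | some (Sum.inr i) => τB i) (by
      rw [ha0, pi_norm_lt_iff hε]
      rintro (_ | i | i)
      · simp [hε]
      · simp only [Pi.sub_apply, sub_zero]
        exact (norm_le_pi_norm τA i).trans_lt hτA
      · simp only [Pi.sub_apply, sub_zero]
        exact (norm_le_pi_norm τB i).trans_lt hτB) q hq
    rw [hcmb] at h1
    rw [hv1d, hwd]
    exact h1
  have hv1A : ∀ u : R9, u ≠ 0 → cM u = 1 → v1 =ᶠ[𝓝 u] vA := by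
    intro u hu hc
    filter_upwards [fam_far hsB τB hu (by rw [hc]; norm_num)] with z hz
    rw [hv1d, hwd, hvAd]
    simp only at hz ⊢
    rw [hz, add_zero]
  have hv1B : ∀ u : R9, u ≠ 0 → cM u = -1 → v1 =ᶠ[𝓝 u] vB := by
    intro u hu hc
    filter_upwards [fam_far hsA τA hu (by rw [hc]; norm_num)] with z hz
    rw [hv1d, hwd, hvBd]
    simp only at hz ⊢
    rw [hz, zero_add]
  -- the functions at the walls
  obtain ⟨mA, hmAd⟩ : ∃ mA : R9 → ℝ, mA = fun u =>
      Real.smoothTransition (1 + 2 * (1 * cM u)) * (nA u + nA' u) := ⟨_, rfl⟩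
  obtain ⟨mB, hmBd⟩ : ∃ mB : R9 → ℝ, mB = fun u =>
      Real.smoothTransition (1 + 2 * (-1 * cM u)) * (nB u + nB' u) := ⟨_, rfl⟩
  have hsumA := GE5_WM_add hnA hnA'
  have hsumB := GE5_WM_add hnB hnB'
  have hmA : WM mA := by rw [hmAd]; exact chi_wm hsumA 1
  have hmB : WM mB := by rw [hmBd]; exact chi_wm hsumB (-1)
  have hmA1 : ∀ u : R9, u ≠ 0 → cM u = 1 → mA =ᶠ[𝓝 u] fun u => nA u + nA' u := by
    intro u hu hc
    rw [hmAd]
    exact chi_near (n := fun u => nA u + nA' u) hu (by rw [hc]; norm_num)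
  have hmB1 : ∀ u : R9, u ≠ 0 → cM u = -1 → mB =ᶠ[𝓝 u] fun u => nB u + nB' u := by
    intro u hu hc
    rw [hmBd]
    exact chi_near (n := fun u => nB u + nB' u) hu (by rw [hc]; norm_num)
  have hmA0 : ∀ u : R9, u ≠ 0 → cM u = -1 → mA =ᶠ[𝓝 u] fun _ => 0 := by
    intro u hu hc
    rw [hmAd]
    exact chi_far (n := fun u => nA u + nA' u) hu (by rw [hc]; norm_num)
  have hmB0 : ∀ u : R9, u ≠ 0 → cM u = 1 → mB =ᶠ[𝓝 u] fun _ => 0 := by
    intro u hu hc
    rw [hmBd]
    exact chi_far (n := fun u => nB u + nB' u) hu (by rw [hc]; norm_num)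
  -- `α` and `α'`
  have halv : ∀ u b : R9, Flg u b → alM v1 u b = alM (v0 p) u b := by
    intro u b hF
    have h1 : alM v1 u b = alM (v0 p) u b + alM w u b := by
      rw [hv1d]
      unfold alM
      rw [fderiv_fun_add (dAt hv0.smooth hF.ne) (dAt hw.phi.smooth hF.ne)]
      rfl
    rw [h1, hw.al u b hF, add_zero]
  have hal1 : ∀ u b : m 1 1, Flag Q2 u b →
      al (PP 1 1) hU (toM v1) u b = al (PP 1 1) hU (toM (v0 p)) u b := by
    intro u b hF
    have hF' := (flag_iff' u b).1 hF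
    have h1 := al_toM hv1.smooth hF'.ne (iota.symm b)
    have h2 := al_toM hv0.smooth hF'.ne (iota.symm b)
    rw [ContinuousLinearEquiv.apply_symm_apply, ContinuousLinearEquiv.apply_symm_apply] at h1 h2
    rw [h1, h2, halv _ _ hF']
  have hal1' : ∀ u b : m 1 1, Flag Q2 u b → al' (PP 1 1) hU (toM v1) u b = 0 := by
    intro u b hF
    have hF' := (flag_iff' u b).1 hF
    have h1 := al'_v0 p hF'
    rw [ContinuousLinearEquiv.apply_symm_apply, ContinuousLinearEquiv.apply_symm_apply] at h1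
    have h2 := (WM.winv hw).al' nData2 cas2 hF
    have h3 : al' (PP 1 1) hU (toM v1) u b =
        al' (PP 1 1) hU (toM (v0 p)) u b + al' (PP 1 1) hU (toM w) u b := by
      rw [hv1d]
      exact D2_sum (phiN_toM hv0).1.smooth (WM.winv hw).phi.smooth (hF.ne nData2) _ _
    rw [h3, h1, h2, add_zero]
  -- the combination with the third order form
  have TEA : ∀ u b : R9, Flg u b → cM u = 1 → T3F Q2 (PP 1 1) (toM v1) (iota u) (iota b) -
      Wall.EE Q2 (PP 1 1) (toM v1) (Wall.EE Q2 (PP 1 1) (toM v1) (toM mA)) (iota u) =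
      TE vA (fun u => nA u + nA' u) (u, b) := by
    intro u b hF hc
    have hu := hF.ne
    rw [EE_toM hv1 hmA.phi hu, ← TE_congr hv1 hvA hmA.phi hsumA.phi hu b (hv1A u hu hc)
      (hmA1 u hu hc)]
    rfl
  have TEB : ∀ u b : R9, Flg u b → cM u = -1 → T3F Q2 (PP 1 1) (toM v1) (iota u) (iota b) -
      Wall.EE Q2 (PP 1 1) (toM v1) (Wall.EE Q2 (PP 1 1) (toM v1) (toM mB)) (iota u) =
      TE vB (fun u => nB u + nB' u) (u, b) := by
    intro u b hF hc
    have hu := hF.ne
    rw [EE_toM hv1 hmB.phi hu, ← TE_congr hv1 hvB hmB.phi hsumB.phi hu b (hv1B u hu hc)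
      (hmB1 u hu hc)]
    rfl
  have hcc : ∀ u : m 1 1, u ≠ 0 → cc 1 1 u = -cM (iota.symm u) := by
    intro u hu
    have hu' : iota.symm u ≠ 0 := fun h => hu (by
      have := congrArg iota h
      rwa [ContinuousLinearEquiv.apply_symm_apply, map_zero] at this)
    have h1 := cc_iota hu'
    rwa [ContinuousLinearEquiv.apply_symm_apply] at h1
  have near : ∀ {f : R9 → ℝ} (u : m 1 1), f =ᶠ[𝓝 (iota.symm u)] (fun _ => 0) →
      toM f =ᶠ[𝓝 u] fun _ => 0 := by
    intro f u hf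
    have h1 := eventuallyEq_toM hf
    rw [ContinuousLinearEquiv.apply_symm_apply] at h1
    exact h1
  have hne' : ∀ u : m 1 1, u ≠ 0 → iota.symm u ≠ 0 := fun u hu h => hu (by
      have := congrArg iota h
      rwa [ContinuousLinearEquiv.apply_symm_apply, map_zero] at this)
  have iA := WM.winv hmA
  have iB := WM.winv hmB
  obtain ⟨φ, q1, q2, q3, q4, q5, q6, q7⟩ := wlayAB nData2 cas2 grpD2 casW2 (phiN_toM hv1).1
    (phiN_toM hv1).2 iB.phi iB.inv iA.phi iA.inv iB.al0 (fun u b hF => iB.al' nData2 cas2 hF)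
    iA.al0 (fun u b hF => iA.al' nData2 cas2 hF)
    (fun u hu hc => near u (hmB0 _ (hne' u hu) (by have := hcc u hu; linarith)))
    (fun u hu hc => near u (hmA0 _ (hne' u hu) (by have := hcc u hu; linarith)))
    hS hSF (by
      intro q hq
      rw [hal1 _ _ (hSF q hq)]
      rw [hSd] at hq
      obtain ⟨k, hk, rfl⟩ := hq
      have hF := TS_Flg hk
      simp only
      rw [al_toM hv0.smooth hF.ne]
      exact TS_al hp.S hk) hS1 (by
      rw [hSd]
      rintro _ ⟨⟨u, b⟩, hk, rfl⟩ hc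
      have hF := TS_Flg hk
      simp only at hF hc ⊢
      rw [cc_iota hF.ne] at hc
      have hc' : cM u = -1 := by linarith
      rw [TEB u b hF hc', hvBd]
      refine hB (u, b) ⟨hF, hc', TS_al hp.S hk⟩ (Or.inr ?_)
      rcases TS_cM hk with h4 | h4
      · left; rw [h4]; linarith
      · right
        simp only at h4 ⊢
        rw [hc'] at h4
        have h5 : (1 - 2 * aa u) ^ 2 = 0 := by linear_combination (-1 / 2) * h4
        have h6 : 1 - 2 * aa u = 0 := pow_eq_zero_iff (two_ne_zero) |>.1 h5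
        linarith) (by
      rw [hSd]
      rintro _ ⟨⟨u, b⟩, hk, rfl⟩ hc
      have hF := TS_Flg hk
      simp only at hF hc ⊢
      rw [cc_iota hF.ne] at hc
      have hc' : cM u = 1 := by linarith
      rw [TEA u b hF hc', hvAd]
      refine hA (u, b) ⟨hF, hc', TS_al hp.S hk⟩ (Or.inr ?_)
      rcases TS_cM hk with h4 | h4
      · left; rw [h4]; linarith
      · simp only at h4 ⊢
        rw [hc'] at h4
        have h5 : aa u * (1 - aa u) = 0 := by linarith
        rcases mul_eq_zero.1 h5 with h6 | h6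
        · left; rw [h6]; linarith
        · right; linarith)
  have hwall : ∀ u b : m 1 1, Flag Q2 u b →
      (Q2 (BB 1 1 u) b = 0 ↔ cM (iota.symm u) = 1 ∨ cM (iota.symm u) = -1) := by
    intro u b hF
    have hu := hF.ne nData2
    have h1 := cas2.cw u b hF
    rw [hcc u hu] at h1
    constructor
    · intro h2
      rw [h2] at h1
      rcases mul_eq_zero.1 (show (cM (iota.symm u) - 1) * (cM (iota.symm u) + 1) = 0 by
        linear_combination h1) with h | h
      · left; linarith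
      · right; linarith
    · intro h2
      have h3 : cM (iota.symm u) ^ 2 = 1 := by
        rcases h2 with h2 | h2 <;> rw [h2] <;> norm_num
      exact pow_eq_zero_iff (two_ne_zero) |>.1 (by linear_combination h1 - h3)
  refine AB8 nData2 cas2 grpD2 casW2 (phiN_toM hv0).1 (phiN_toM hv0).2 q1 q2
    (fun u b hF => by rw [q3 u b hF, hal1 u b hF]) (fun u b hF => by rw [q4 u b hF, hal1' u b hF])
    (ζ := toM (zM dA dB)) ?_ ?_ ?_ ?_ ?_
  · refine inv0_toM (zM_smooth dA dB) (fun r u hr => ?_) fun t u => ?_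
    · unfold zM; rw [ra_hom r u hr, GE5_smul_cM hr]
    · unfold zM; rw [ra_inv, GE5_rot_cM]
  · intro u b hF
    have hF' := (flag_iff' u b).1 hF
    have h1 := al_toM (zM_smooth dA dB) hF'.ne (iota.symm b)
    rw [ContinuousLinearEquiv.apply_symm_apply, ContinuousLinearEquiv.apply_symm_apply] at h1
    rw [h1]
    exact zM_al hF'
  · exact fun u _ => zM_nonneg _ _ _
  · -- wall flags
    intro u b hF hw0 ha hor
    have hF' := (flag_iff' u b).1 hF
    have hu' := hF'.ne
    have hu := hF.ne nData2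
    have hcu := hcc u hu
    rw [q3 u b hF] at ha
    have ha0' : alM (v0 p) (iota.symm u) (iota.symm b) = 0 := by
      have h2 := al_toM hv0.smooth hu' (iota.symm b)
      rw [ContinuousLinearEquiv.apply_symm_apply, ContinuousLinearEquiv.apply_symm_apply] at h2
      rw [← h2, ← hal1 u b hF]
      exact ha
    rcases (hwall u b hF).1 hw0 with hc | hc
    · obtain ⟨r1, r2⟩ := q7 u b hF (by rw [hcu, hc]) ha
      have h1 := TEA _ _ hF' hc
      rw [ContinuousLinearEquiv.apply_symm_apply, ContinuousLinearEquiv.apply_symm_apply] at h1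
      rw [r1, h1, hvAd]
      refine hA (iota.symm u, iota.symm b) ⟨hF', hc, ha0'⟩ ?_
      rcases hor with h2 | h2
      · exact Or.inr (zM_A hdA hdA1 hF' hc h2)
      · left
        rw [r2] at h2
        have h3 := a2_toM hv1 hu' (iota.symm b)
        rw [ContinuousLinearEquiv.apply_symm_apply, ContinuousLinearEquiv.apply_symm_apply] at h3
        rw [← hvAd]
        simp only
        rw [← a2M_congr hv1 hvA hu' _ (hv1A _ hu' hc), ← h3]
        exact h2
    · obtain ⟨r1, r2⟩ := q6 u b hF (by rw [hcu, hc]; norm_num) ha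
      have h1 := TEB _ _ hF' hc
      rw [ContinuousLinearEquiv.apply_symm_apply, ContinuousLinearEquiv.apply_symm_apply] at h1
      rw [r1, h1, hvBd]
      refine hB (iota.symm u, iota.symm b) ⟨hF', hc, ha0'⟩ ?_
      rcases hor with h2 | h2
      · exact Or.inr (zM_B hdB hF' hc h2)
      · left
        rw [r2] at h2
        have h3 := a2_toM hv1 hu' (iota.symm b)
        rw [ContinuousLinearEquiv.apply_symm_apply, ContinuousLinearEquiv.apply_symm_apply] at h3
        rw [← hvBd]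
        simp only
        rw [← a2M_congr hv1 hvB hu' _ (hv1B _ hu' hc), ← h3]
        exact h2
  · -- regular flags
    intro u b hF hw0 ha
    have hF' := (flag_iff' u b).1 hF
    have hu' := hF'.ne
    have hc : ¬(cM (iota.symm u) = 1 ∨ cM (iota.symm u) = -1) := fun h =>
      hw0 ((hwall u b hF).2 h)
    rw [not_or] at hc
    by_cases hT : T0p p (iota.symm u)
    · right
      have hk := regular_TS hp.S hF' hT hc.1 hc.2
      have hmem : (u, b) ∈ S := by
        rw [hSd]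
        refine ⟨_, hk, ?_⟩
        simp only [ContinuousLinearEquiv.apply_symm_apply]
      have h5 : 0 < T3F Q2 (PP 1 1) φ u b := q5 (u, b) hmem
      have h1 : zM dA dB =ᶠ[𝓝 (iota.symm u)] fun _ => 0 := zM_T hdA hdA1 hdB hdB1 hk
      have h6 : toM (zM dA dB) =ᶠ[𝓝 u] fun _ => 0 := near (f := zM dA dB) u h1
      exact ⟨h5, h6⟩
    · left
      obtain ⟨j, hj1, hj2⟩ := wft hp hF' hc.1 hc.2 hT
      rw [ContinuousLinearEquiv.apply_symm_apply] at hj2
      exact ⟨j, hj1, hj2⟩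

end Pool.Agent.FL.S2
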