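import Pool.Agent.helper75.FL.E2Flag

/-!
# MP_f09395_gt, boosted layer: the Euler derivative as a differential operator
-/

set_option linter.unusedSectionVars false

noncomputable section

namespace Pool.Agent.helper75.FL

open scoped ContDiff
open Pool.Agent.Helper93.Fin Pool.Agent.helper79.FP Pool.Agent.helper79.FR
open Filter Topology

variable {𝔸 : Type*} [NormedRing 𝔸] [NormedAlgebra ℝ 𝔸] [FiniteDimensional ℝ 𝔸]
variable {g h m : Submodule ℝ 𝔸} {Q : 𝔸 →ₗ[ℝ] 𝔸 →ₗ[ℝ] ℝ} {P : 𝔸 →L[ℝ] m} {φ ψ n v z f k : m → ℝ}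
variable {h0 : 𝔸} {B : m → 𝔸} {c : m → ℝ} {H : Subgroup 𝔸ˣ}

/-- the derivative of `f` along the Euler flow of `φ` -/
def Ev {m : Submodule ℝ 𝔸} (Q : 𝔸 →ₗ[ℝ] 𝔸 →ₗ[ℝ] ℝ) (P : 𝔸 →L[ℝ] m) (φ f : m → ℝ) (u : m) : ℝ :=
  D1 f u (ee Q P φ u)

/-- the representation isomorphism -/
def BNe (hN : NData g h m Q P) : m ≃L[ℝ] (m →L[ℝ] ℝ) :=
  (LinearEquiv.ofBijective (BN m Q).toLinearMap ⟨by
    intro x x' hx
    refine rep_unique hN fun w => ?_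
    have h1 : (BN m Q x) w = (BN m Q x') w := by
      have h2 : BN m Q x = BN m Q x' := hx
      rw [h2]
    simpa only [BN_apply] using h1, by
    intro f
    refine ⟨rep Q f, ?_⟩
    ext w
    have h1 := rep_spec hN f w
    simpa using h1⟩).toContinuousLinearEquiv

theorem BNe_symm (hN : NData g h m Q P) (f : m →L[ℝ] ℝ) : (BNe hN).symm f = rep Q f := by
  have h1 : BNe hN (rep Q f) = f := by
    ext w
    have h1 := rep_spec hN f w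
    have h2 : BNe hN (rep Q f) w = BN m Q (rep Q f) w := rfl
    rw [h2, BN_apply, h1]
  rw [← h1, ContinuousLinearEquiv.symm_apply_apply, h1]

theorem gx_eq (hN : NData g h m Q P) (φ : m → ℝ) :
    (fun u => gx Q φ u) = fun u => (BNe hN).symm (fderiv ℝ φ u) := by
  funext u
  rw [BNe_symm hN]; rfl

theorem gx_smooth (hN : NData g h m Q P) (hf : ContDiffOn ℝ ∞ φ {0}ᶜ) :
    ContDiffOn ℝ ∞ (fun u => gx Q φ u) {0}ᶜ := by
  rw [gx_eq hN]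
  exact (BNe hN).symm.contDiff.comp_contDiffOn (smooth_fderiv hf)

theorem ee_smooth (hN : NData g h m Q P) (hf : ContDiffOn ℝ ∞ φ {0}ᶜ) :
    ContDiffOn ℝ ∞ (fun u => ee Q P φ u) {0}ᶜ := by
  have h1 : ContDiffOn ℝ ∞ (fun u : m => (u : 𝔸)) {0}ᶜ := m.subtypeL.contDiff.contDiffOn
  have h2 : ContDiffOn ℝ ∞ (fun u : m => (gx Q φ u : 𝔸)) {0}ᶜ :=
    m.subtypeL.contDiff.comp_contDiffOn (gx_smooth hN hf)
  have h3 : ContDiffOn ℝ ∞ (fun u : m => P ((u : 𝔸) * (gx Q φ u : 𝔸) -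
      (gx Q φ u : 𝔸) * (u : 𝔸))) {0}ᶜ :=
    P.contDiff.comp_contDiffOn ((h1.mul h2).sub (h2.mul h1))
  exact h3

theorem Ev_smooth (hN : NData g h m Q P) (hφ : ContDiffOn ℝ ∞ φ {0}ᶜ)
    (hf : ContDiffOn ℝ ∞ f {0}ᶜ) : ContDiffOn ℝ ∞ (Ev Q P φ f) {0}ᶜ :=
  (smooth_fderiv hf).clm_apply (ee_smooth hN hφ)

/-- derivative of the gradient -/
theorem gx_deriv (hN : NData g h m Q P) (hf : ContDiffOn ℝ ∞ φ {0}ᶜ) {u : m} (hu : u ≠ 0)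
    (a w : m) : Q (fderiv ℝ (fun u => gx Q φ u) u a : 𝔸) w = D2 φ u w a := by
  have h1 : DifferentiableAt ℝ (fun u => gx Q φ u) u := dAt (gx_smooth hN hf) hu
  have h2 : HasFDerivAt (fun z => (BN m Q).flip w (gx Q φ z))
      (((BN m Q).flip w).comp (fderiv ℝ (fun u => gx Q φ u) u)) u :=
    ((BN m Q).flip w).hasFDerivAt.comp u h1.hasFDerivAt
  have h3 : (fun z => (BN m Q).flip w (gx Q φ z)) = fun z => D1 φ z w := by
    funext z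
    rw [ContinuousLinearMap.flip_apply, BN_apply, gx_spec hN]
  rw [h3] at h2
  have h4 : D2 φ u w a = fderiv ℝ (fun z => D1 φ z w) u a := rfl
  rw [h4, h2.fderiv]
  simp

/-- derivative of the Euler field -/
theorem ee_deriv (hN : NData g h m Q P) (hf : ContDiffOn ℝ ∞ φ {0}ᶜ) {u : m} (hu : u ≠ 0)
    (a : m) : fderiv ℝ (fun u => ee Q P φ u) u a = P (⁅(a : 𝔸), (gx Q φ u : 𝔸)⁆ +
      ⁅(u : 𝔸), (fderiv ℝ (fun u => gx Q φ u) u a : 𝔸)⁆) := by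
  have h1 : HasFDerivAt (fun z : m => (z : 𝔸)) m.subtypeL u := m.subtypeL.hasFDerivAt
  have h2 : HasFDerivAt (fun z : m => (gx Q φ z : 𝔸))
      (m.subtypeL.comp (fderiv ℝ (fun u => gx Q φ u) u)) u :=
    m.subtypeL.hasFDerivAt.comp u (dAt (gx_smooth hN hf) hu).hasFDerivAt
  have h3 := P.hasFDerivAt.comp u ((h1.mul' h2).sub (h2.mul' h1))
  have h4 : HasFDerivAt (fun z : m => ee Q P φ z) _ u := h3
  rw [h4.fderiv]
  simp only [ContinuousLinearMap.comp_apply, _root_.sub_apply, _root_.add_apply,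
    _root_.smul_apply, Submodule.subtypeL_apply, smul_eq_mul, MulOpposite.smul_eq_mul_unop,
    MulOpposite.unop_op, Ring.lie_def]
  congr 1
  abel

/-- **`E² n` as an iterated derivative** -/
theorem Ev_Ev (hN : NData g h m Q P) (hφ : ContDiffOn ℝ ∞ φ {0}ᶜ) (hn : ContDiffOn ℝ ∞ n {0}ᶜ)
    {u : m} (hu : u ≠ 0) : Ev Q P φ (Ev Q P φ n) u = E2 Q P φ n u := by
  obtain ⟨e, he⟩ : ∃ e : m, e = ee Q P φ u := ⟨_, rfl⟩
  obtain ⟨x, hx⟩ : ∃ x : m, x = gx Q φ u := ⟨_, rfl⟩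
  obtain ⟨y, hy⟩ : ∃ y : m, y = gx Q n u := ⟨_, rfl⟩
  obtain ⟨G, hG⟩ : ∃ G : m, G = fderiv ℝ (fun u => gx Q φ u) u e := ⟨_, rfl⟩
  have h1 : DifferentiableAt ℝ (fderiv ℝ n) u := dAt (smooth_fderiv hn) hu
  have h2 : DifferentiableAt ℝ (fun u => ee Q P φ u) u := dAt (ee_smooth hN hφ) hu
  have h3 : HasFDerivAt (fun z => fderiv ℝ n z (ee Q P φ z)) _ u :=
    h1.hasFDerivAt.clm_apply h2.hasFDerivAt
  have h4 : Ev Q P φ (Ev Q P φ n) u = fderiv ℝ (fun z => fderiv ℝ n z (ee Q P φ z)) u e := by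
    rw [he]; rfl
  have h5 : fderiv ℝ (fderiv ℝ n) u e e = D2 n u e e := (D2_eq' hn hu e e).symm
  have h6 : fderiv ℝ n u (P (⁅(e : 𝔸), (x : 𝔸)⁆ + ⁅(u : 𝔸), (G : 𝔸)⁆)) =
      Q (y : 𝔸) (⁅(e : 𝔸), (x : 𝔸)⁆ + ⁅(u : 𝔸), (G : 𝔸)⁆) := by
    rw [← Q_P hN y ((hN.red.m_le.trans le_rfl |> fun _ => g.add_mem (lm hN _ _) (lm hN _ _))),
      hy, gx_spec hN]; rfl
  have h7 : Q (y : 𝔸) ⁅(e : 𝔸), (x : 𝔸)⁆ = Q ⁅(x : 𝔸), (y : 𝔸)⁆ e := by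
    rw [← hN.Qinv, hN.Qsymm, ← hN.Qinv]
  have h8 : Q (y : 𝔸) ⁅(u : 𝔸), (G : 𝔸)⁆ = - D2 φ u e (ee Q P n u) := by
    have h9 : Q (G : 𝔸) (ee Q P n u) = D2 φ u (ee Q P n u) e := by
      rw [hG]; exact gx_deriv hN hφ hu e _
    rw [D2_symm hφ hu, ← h9, ee, ← hy, Q_P hN G (lm hN _ _), ← hN.Qinv, skew (y : 𝔸) u,
      map_neg, LinearMap.neg_apply, hN.Qsymm]
  rw [h4, h3.fderiv]
  simp only [_root_.add_apply, ContinuousLinearMap.comp_apply, ContinuousLinearMap.flip_apply]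
  rw [ee_deriv hN hφ hu, ← hx, ← hG, h6, map_add, h7, h8, ← he, h5]
  unfold E2
  rw [← hx, ← hy, ← he]
  ring

theorem Ev_congr {f' : m → ℝ} {u : m} (hf : f =ᶠ[𝓝 u] f') : Ev Q P φ f u = Ev Q P φ f' u :=
  (ev_D1 hf _).self_of_nhds

theorem Ev_add (hf : ContDiffOn ℝ ∞ f {0}ᶜ) (hk : ContDiffOn ℝ ∞ k {0}ᶜ) {u : m} (hu : u ≠ 0) :
    Ev Q P φ (fun z => f z + k z) u = Ev Q P φ f u + Ev Q P φ k u := D1_sum hf hk hu _

theorem Ev_mul (hf : ContDiffOn ℝ ∞ f {0}ᶜ) (hk : ContDiffOn ℝ ∞ k {0}ᶜ) {u : m} (hu : u ≠ 0) :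
    Ev Q P φ (fun z => f z * k z) u = f u * Ev Q P φ k u + k u * Ev Q P φ f u :=
  D1_mul hf hk hu _

theorem Ev_comp {l : ℝ → ℝ} (hl : ContDiff ℝ ∞ l) (hf : ContDiffOn ℝ ∞ f {0}ᶜ) {u : m}
    (hu : u ≠ 0) : Ev Q P φ (fun z => l (f z)) u = deriv l (f u) * Ev Q P φ f u :=
  comp_D1 hl hf hu _

theorem Ev_cmul (r : ℝ) (hf : ContDiffOn ℝ ∞ f {0}ᶜ) {u : m} (hu : u ≠ 0) :
    Ev Q P φ (fun z => r * f z) u = r * Ev Q P φ f u := fd_cmul r hf hu _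

end Pool.Agent.helper75.FL
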