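import Pool.Agent.helper79.FR.StepB

/-!
# MP_f09395_gt, boosted layer: higher derivatives of products and compositions
-/

set_option linter.unusedSectionVars false

noncomputable section

namespace Pool.Agent.helper75.FL

open scoped ContDiff
open Pool.Agent.Helper93.Fin Pool.Agent.helper79.FP Pool.Agent.helper79.FR
open Filter Topology

variable {E : Type*} [NormedAddCommGroup E] [NormedSpace ℝ E] {f k : E → ℝ}

theorem D3_mul (hf : ContDiffOn ℝ ∞ f {0}ᶜ) (hk : ContDiffOn ℝ ∞ k {0}ᶜ) {u : E} (hu : u ≠ 0)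
    (a b c : E) : D3 (fun z => f z * k z) u a b c =
      f u * D3 k u a b c + k u * D3 f u a b c
      + (D1 f u a * D2 k u b c + D1 f u b * D2 k u a c + D1 f u c * D2 k u a b)
      + (D1 k u a * D2 f u b c + D1 k u b * D2 f u a c + D1 k u c * D2 f u a b) := by
  have s1 := hf.mul (D2_smooth hk a b)
  have s2 := (D1_smooth hk a).mul (D1_smooth hf b)
  have s3 := hk.mul (D2_smooth hf a b)
  have s4 := (D1_smooth hf a).mul (D1_smooth hk b)
  rw [D3, fd_congr (fun z hz => D2_mul hf hk hz a b) hu,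
    fd_add (s1.add s2) (s3.add s4) hu, fd_add s1 s2 hu, fd_add s3 s4 hu,
    fd_mul hf (D2_smooth hk a b) hu, fd_mul (D1_smooth hk a) (D1_smooth hf b) hu,
    fd_mul hk (D2_smooth hf a b) hu, fd_mul (D1_smooth hf a) (D1_smooth hk b) hu]
  simp only [D1, D2, D3]
  ring

theorem D4_mul (hf : ContDiffOn ℝ ∞ f {0}ᶜ) (hk : ContDiffOn ℝ ∞ k {0}ᶜ) {u : E} (hu : u ≠ 0)
    (a b c d : E) : D4 (fun z => f z * k z) u a b c d =
      f u * D4 k u a b c d + k u * D4 f u a b c d
      + (D1 f u a * D3 k u b c d + D1 f u b * D3 k u a c d + D1 f u c * D3 k u a b d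
        + D1 f u d * D3 k u a b c)
      + (D1 k u a * D3 f u b c d + D1 k u b * D3 f u a c d + D1 k u c * D3 f u a b d
        + D1 k u d * D3 f u a b c)
      + (D2 f u a b * D2 k u c d + D2 f u a c * D2 k u b d + D2 f u a d * D2 k u b c
        + D2 f u b c * D2 k u a d + D2 f u b d * D2 k u a c + D2 f u c d * D2 k u a b) := by
  have s1 := hf.mul (D3_smooth hk a b c)
  have s2 := hk.mul (D3_smooth hf a b c)
  have t1 := (D1_smooth hf a).mul (D2_smooth hk b c)
  have t2 := (D1_smooth hf b).mul (D2_smooth hk a c)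
  have t3 := (D1_smooth hf c).mul (D2_smooth hk a b)
  have r1 := (D1_smooth hk a).mul (D2_smooth hf b c)
  have r2 := (D1_smooth hk b).mul (D2_smooth hf a c)
  have r3 := (D1_smooth hk c).mul (D2_smooth hf a b)
  rw [D4, fd_congr (fun z hz => D3_mul hf hk hz a b c) hu,
    fd_add ((s1.add s2).add ((t1.add t2).add t3)) ((r1.add r2).add r3) hu,
    fd_add (s1.add s2) ((t1.add t2).add t3) hu, fd_add s1 s2 hu,
    fd_add (t1.add t2) t3 hu, fd_add t1 t2 hu, fd_add (r1.add r2) r3 hu, fd_add r1 r2 hu,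
    fd_mul hf (D3_smooth hk a b c) hu, fd_mul hk (D3_smooth hf a b c) hu,
    fd_mul (D1_smooth hf a) (D2_smooth hk b c) hu, fd_mul (D1_smooth hf b) (D2_smooth hk a c) hu,
    fd_mul (D1_smooth hf c) (D2_smooth hk a b) hu, fd_mul (D1_smooth hk a) (D2_smooth hf b c) hu,
    fd_mul (D1_smooth hk b) (D2_smooth hf a c) hu, fd_mul (D1_smooth hk c) (D2_smooth hf a b) hu]
  simp only [D1, D2, D3, D4]
  ring

/-! ### composition with a function of one variable -/

theorem deriv_smooth {l : ℝ → ℝ} (hl : ContDiff ℝ ∞ l) : ContDiff ℝ ∞ (deriv l) :=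
  (contDiff_infty_iff_deriv.1 hl).2

theorem comp_D3 {l : ℝ → ℝ} (hl : ContDiff ℝ ∞ l) (hf : ContDiffOn ℝ ∞ f {0}ᶜ) {u : E}
    (hu : u ≠ 0) (a b c : E) : D3 (fun z => l (f z)) u a b c =
      deriv l (f u) * D3 f u a b c
      + deriv (deriv l) (f u) * (D1 f u a * D2 f u b c + D1 f u b * D2 f u a c
        + D1 f u c * D2 f u a b)
      + deriv (deriv (deriv l)) (f u) * (D1 f u a * D1 f u b * D1 f u c) := by
  have hl1 := deriv_smooth hl
  have hl2 := deriv_smooth hl1
  have e1 : ∀ z : E, z ≠ 0 → D2 (fun z => l (f z)) z a b =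
      deriv l (f z) * D2 f z a b + deriv (deriv l) (f z) * (D1 f z a * D1 f z b) := by
    intro z hz
    rw [comp_D2 hl hf hz]; ring
  have s1 := (comp_smooth hl1 hf).mul (D2_smooth hf a b)
  have s2 := (D1_smooth hf a).mul (D1_smooth hf b)
  have s3 := (comp_smooth hl2 hf).mul s2
  have k1 : fderiv ℝ (fun z => deriv l (f z)) u c = deriv (deriv l) (f u) * D1 f u c :=
    comp_D1 hl1 hf hu c
  have k2 : fderiv ℝ (fun z => deriv (deriv l) (f z)) u c =
      deriv (deriv (deriv l)) (f u) * D1 f u c := comp_D1 hl2 hf hu c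
  rw [D3, fd_congr e1 hu, fd_add s1 s3 hu, fd_mul (comp_smooth hl1 hf) (D2_smooth hf a b) hu,
    fd_mul (comp_smooth hl2 hf) s2 hu, fd_mul (D1_smooth hf a) (D1_smooth hf b) hu, k1, k2]
  simp only [D1, D2, D3]
  ring

theorem comp_D4 {l : ℝ → ℝ} (hl : ContDiff ℝ ∞ l) (hf : ContDiffOn ℝ ∞ f {0}ᶜ) {u : E}
    (hu : u ≠ 0) (a b c d : E) : D4 (fun z => l (f z)) u a b c d =
      deriv l (f u) * D4 f u a b c d
      + deriv (deriv l) (f u) * (D1 f u a * D3 f u b c d + D1 f u b * D3 f u a c d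
        + D1 f u c * D3 f u a b d + D1 f u d * D3 f u a b c
        + D2 f u a b * D2 f u c d + D2 f u a c * D2 f u b d + D2 f u a d * D2 f u b c)
      + deriv (deriv (deriv l)) (f u) * (D1 f u a * D1 f u b * D2 f u c d
        + D1 f u a * D1 f u c * D2 f u b d + D1 f u a * D1 f u d * D2 f u b c
        + D1 f u b * D1 f u c * D2 f u a d + D1 f u b * D1 f u d * D2 f u a c
        + D1 f u c * D1 f u d * D2 f u a b)
      + deriv (deriv (deriv (deriv l))) (f u) * (D1 f u a * D1 f u b * D1 f u c * D1 f u d) := by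
  have hl1 := deriv_smooth hl
  have hl2 := deriv_smooth hl1
  have hl3 := deriv_smooth hl2
  have s0 := (comp_smooth hl1 hf).mul (D3_smooth hf a b c)
  have t1 := (D1_smooth hf a).mul (D2_smooth hf b c)
  have t2 := (D1_smooth hf b).mul (D2_smooth hf a c)
  have t3 := (D1_smooth hf c).mul (D2_smooth hf a b)
  have s1 := (comp_smooth hl2 hf).mul ((t1.add t2).add t3)
  have r1 := (D1_smooth hf a).mul (D1_smooth hf b)
  have r2 := r1.mul (D1_smooth hf c)
  have s2 := (comp_smooth hl3 hf).mul r2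
  have k1 : fderiv ℝ (fun z => deriv l (f z)) u d = deriv (deriv l) (f u) * D1 f u d :=
    comp_D1 hl1 hf hu d
  have k2 : fderiv ℝ (fun z => deriv (deriv l) (f z)) u d =
      deriv (deriv (deriv l)) (f u) * D1 f u d := comp_D1 hl2 hf hu d
  have k3 : fderiv ℝ (fun z => deriv (deriv (deriv l)) (f z)) u d =
      deriv (deriv (deriv (deriv l))) (f u) * D1 f u d := comp_D1 hl3 hf hu d
  rw [D4, fd_congr (fun z hz => comp_D3 hl hf hz a b c) hu, fd_add (s0.add s1) s2 hu,
    fd_add s0 s1 hu, fd_mul (comp_smooth hl1 hf) (D3_smooth hf a b c) hu,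
    fd_mul (comp_smooth hl2 hf) ((t1.add t2).add t3) hu, fd_add (t1.add t2) t3 hu,
    fd_add t1 t2 hu, fd_mul (D1_smooth hf a) (D2_smooth hf b c) hu,
    fd_mul (D1_smooth hf b) (D2_smooth hf a c) hu, fd_mul (D1_smooth hf c) (D2_smooth hf a b) hu,
    fd_mul (comp_smooth hl3 hf) r2 hu, fd_mul r1 (D1_smooth hf c) hu,
    fd_mul (D1_smooth hf a) (D1_smooth hf b) hu, k1, k2, k3]
  simp only [D1, D2, D3, D4]
  ring

end Pool.Agent.helper75.FL
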