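import Pool.Agent.helper75.FL.Jet

/-!
# MP_f09395_gt, boosted layer: derivatives of the Casimir function `c` at flat flags
-/

set_option linter.unusedSectionVars false

noncomputable section

namespace Pool.Agent.helper75.FL

open scoped ContDiff
open Pool.Agent.Helper93.Fin Pool.Agent.helper79.FP Pool.Agent.helper79.FR
open Filter Topology

variable {𝔸 : Type*} [NormedRing 𝔸] [NormedAlgebra ℝ 𝔸] [FiniteDimensional ℝ 𝔸]
variable {g h m : Submodule ℝ 𝔸} {Q : 𝔸 →ₗ[ℝ] 𝔸 →ₗ[ℝ] ℝ} {P : 𝔸 →L[ℝ] m} {φ ψ n : m → ℝ}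
variable {h0 : 𝔸} {B : m → 𝔸} {c : m → ℝ}

/-- second derivatives of `c`, from the formula for the first ones -/
theorem cD2 (hN : NData g h m Q P) (hC : Cas g h m Q P h0 B c) {u : m} (hu : u ≠ 0) (a v : m) :
    D2 c u a v * Q (u : 𝔸) u + 2 * D1 c u a * Q (u : 𝔸) v = -4 * Q (fderiv ℝ B u v) a := by
  have h1 : HasFDerivAt (fun z : m => D1 c z a * BN m Q z z)
      (D1 c u a • ((BN m Q u).comp (ContinuousLinearMap.id ℝ m) + (BN m Q).flip (id u)) +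
        BN m Q u u • fderiv ℝ (fun z => D1 c z a) u) u :=
    (diffAt_ne (D1_smooth hC.csm a) hu).hasFDerivAt.mul
      (((BN m Q).hasFDerivAt).clm_apply (hasFDerivAt_id u))
  have h2 : HasFDerivAt (fun z : m => -4 * (Qc Q).flip a (B z))
      ((-4 : ℝ) • ((Qc Q).flip a).comp (fderiv ℝ B u)) u :=
    (((Qc Q).flip (a : 𝔸)).hasFDerivAt.comp u (diffAt_ne hC.Bsm hu).hasFDerivAt).const_mul (-4)
  have h3 : (fun z : m => D1 c z a * BN m Q z z) =ᶠ[𝓝 u] fun z : m => -4 * (Qc Q).flip a (B z) := by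
    filter_upwards [eventually_ne' hu] with z hz
    rw [BN_apply]
    exact hC.cD z hz a
  have h4 := (h2.congr_of_eventuallyEq h3).unique h1
  have h5 := DFunLike.congr_fun h4 v
  simp only [_root_.add_apply, _root_.smul_apply,
    ContinuousLinearMap.comp_apply, ContinuousLinearMap.flip_apply, smul_eq_mul, Qc_apply,
    BN_apply, ContinuousLinearMap.id_apply, id_eq] at h5
  have h6 : Q (v : 𝔸) u = Q (u : 𝔸) v := hN.Qsymm _ _
  have h9 : D2 c u a v = (fderiv ℝ (fun z => D1 c z a) u) v := rfl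
  rw [h6] at h5
  rw [h9]
  linarith

/-- `Dc_u(a) = C₁ Q(b, a)` at a flag -/
theorem flag_cD1 (hN : NData g h m Q P) (hC : Cas g h m Q P h0 B c) {u b : m} (hF : Flag Q u b)
    (a : m) : D1 c u a = D1 c u b * Q (b : 𝔸) a := by
  have h1 := hC.cD u (hF.ne hN) a
  rw [hF.1, mul_one] at h1
  rw [h1, flag_c1 hN hC hF]
  conv_lhs => rw [hC.flat u b hF]
  rw [map_smul, LinearMap.smul_apply, smul_eq_mul]
  ring

/-- `D²c_u(b, a)` at a flag -/
theorem flag_cD2b (hN : NData g h m Q P) (hC : Cas g h m Q P h0 B c) {u b : m} (hF : Flag Q u b)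
    (a : m) : D2 c u b a = D2 c u b b * Q (b : 𝔸) a - D1 c u b * Q (u : 𝔸) a := by
  have hu := hF.ne hN
  obtain ⟨w', hw'⟩ := flag_B hN hC hF
  have e : ∀ a : m, D2 c u a b = -4 * (w' * Q (b : 𝔸) a - Q (B u) b * Q (u : 𝔸) a) := by
    intro a
    have h1 := cD2 hN hC hu a b
    rw [hF.1, hF.2.2.1, hw'] at h1
    simp only [map_sub, map_smul, LinearMap.sub_apply, LinearMap.smul_apply, smul_eq_mul] at h1
    linarith
  rw [D2_symm hC.csm hu b a, e a, e b, hF.2.1, hF.2.2.1, flag_c1 hN hC hF]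
  ring

/-- `D²c_u(a, [u, x]) = C₁ Q([b, x], a)` at a flag -/
theorem flag_cD2e (hN : NData g h m Q P) (hC : Cas g h m Q P h0 B c) {u b : m} (hF : Flag Q u b)
    {X : 𝔸} (hX : X ∈ g) (hm : (P ⁅(u : 𝔸), X⁆ : 𝔸) = ⁅(u : 𝔸), X⁆) (a : m) :
    D2 c u a (P ⁅(u : 𝔸), X⁆) = D1 c u b * Q ⁅(b : 𝔸), X⁆ a := by
  have hu := hF.ne hN
  have h1 := cD2 hN hC hu a (P ⁅(u : 𝔸), X⁆)
  rw [hF.1, hm, Q_self_lie' hN, hC.Bequi u hu X hX (hm ▸ (P ⁅(u : 𝔸), X⁆).2)] at h1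
  rw [flag_c1 hN hC hF]
  have h2 : ⁅B u, X⁆ = (Q (B u) b) • ⁅(b : 𝔸), X⁆ := by
    conv_lhs => rw [hC.flat u b hF]
    rw [smul_lie']
  rw [h2, map_smul, LinearMap.smul_apply, smul_eq_mul] at h1
  linarith

/-- the third derivative `D³c_u(e, e, b)`, `e = [u, x]`, `p = [b, x]` -/
theorem flag_cD3 (hN : NData g h m Q P) (hC : Cas g h m Q P h0 B c) {u b : m} (hF : Flag Q u b)
    {X : 𝔸} (hX : X ∈ g) (hm : (P ⁅(u : 𝔸), X⁆ : 𝔸) = ⁅(u : 𝔸), X⁆)
    (hm' : (P ⁅(b : 𝔸), X⁆ : 𝔸) = ⁅(b : 𝔸), X⁆) {e p : m} (he : e = P ⁅(u : 𝔸), X⁆)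
    (hp : p = P ⁅(b : 𝔸), X⁆) :
    D3 c u e e b = D2 c u b b * Q (p : 𝔸) e - D1 c u b * Q (e : 𝔸) e
      - D1 c u b * Q (p : 𝔸) p := by
  have hu := hF.ne hN
  have hs := hC.csm
  obtain ⟨w', hw'⟩ := flag_B hN hC hF
  have he' : (e : 𝔸) = ⁅(u : 𝔸), X⁆ := by rw [he, hm]
  have hp' : (p : 𝔸) = ⁅(b : 𝔸), X⁆ := by rw [hp, hm']
  -- the line `u + τ b`
  have hl : HasDerivAt (fun τ : ℝ => u + τ • b) b 0 := by
    simpa using ((hasDerivAt_id (0 : ℝ)).smul_const b).const_add u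
  have hz : u + (0 : ℝ) • b = u := by rw [zero_smul, add_zero]
  have d2 : ∀ a v : m, HasDerivAt (fun τ : ℝ => D2 c (u + τ • b) a v) (D3 c u a v b) 0 := by
    intro a v
    have h1 : DifferentiableAt ℝ (fun z => D2 c z a v) (u + (0 : ℝ) • b) := by
      rw [hz]; exact diffAt_ne (D2_smooth hs a v) hu
    have h2 := h1.hasFDerivAt.comp_hasDerivAt (0 : ℝ) hl
    rw [hz] at h2
    exact h2
  -- `Q([B z, X], a)` along the line
  have dB : ∀ a : m, HasDerivAt (fun τ : ℝ => Q ⁅B (u + τ • b), X⁆ a)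
      (Q ⁅fderiv ℝ B u b, X⁆ a) 0 := by
    intro a
    have h1 : DifferentiableAt ℝ B (u + (0 : ℝ) • b) := by
      rw [hz]; exact diffAt_ne hC.Bsm hu
    have h2 := h1.hasFDerivAt.comp_hasDerivAt (0 : ℝ) hl
    rw [hz] at h2
    have h3 : HasDerivAt (fun τ : ℝ => B (u + τ • b) * X - X * B (u + τ • b))
        (fderiv ℝ B u b * X - X * fderiv ℝ B u b) 0 :=
      (h2.mul_const X).sub (h2.const_mul X)
    exact ((Qc Q).flip (a : 𝔸)).hasFDerivAt.comp_hasDerivAt (0 : ℝ) h3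
  have hne : ∀ᶠ τ : ℝ in 𝓝 0, u + τ • b ≠ 0 := by
    have h1 := hl.continuousAt.tendsto
    rw [hz] at h1
    exact h1.eventually (eventually_ne' hu)
  have hbu : Q (b : 𝔸) u = 0 := by rw [hN.Qsymm]; exact hF.2.2.1
  -- the identity on the line
  have he1 : (fun τ : ℝ => (D2 c (u + τ • b) e e + 2 * (τ * D2 c (u + τ • b) e p)
        + τ ^ 2 * D2 c (u + τ • b) p p) * (1 + τ ^ 2)) =ᶠ[𝓝 0]
      fun τ : ℝ => -4 * (Q ⁅B (u + τ • b), X⁆ e + τ * Q ⁅B (u + τ • b), X⁆ p) := by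
    filter_upwards [hne] with τ hτ
    have e1 : ⁅((u + τ • b : m) : 𝔸), X⁆ = ⁅(u : 𝔸), X⁆ + τ • ⁅(b : 𝔸), X⁆ := by
      rw [Submodule.coe_add, Submodule.coe_smul, add_lie', smul_lie']
    have e3 : P ⁅((u + τ • b : m) : 𝔸), X⁆ = e + τ • p := by
      rw [e1, map_add, map_smul, he, hp]
    have e2 : (P ⁅((u + τ • b : m) : 𝔸), X⁆ : 𝔸) = ⁅((u + τ • b : m) : 𝔸), X⁆ := by
      rw [e3, e1, Submodule.coe_add, Submodule.coe_smul, he', hp']
    have e4 : Q ((u + τ • b : m) : 𝔸) ((u + τ • b : m) : 𝔸) = 1 + τ ^ 2 := by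
      simp only [Submodule.coe_add, Submodule.coe_smul, map_add, map_smul,
        LinearMap.add_apply, LinearMap.smul_apply, smul_eq_mul, hF.1, hF.2.1, hF.2.2.1, hbu]
      ring
    have e5 : Q ((u + τ • b : m) : 𝔸) (P ⁅((u + τ • b : m) : 𝔸), X⁆ : m) = 0 := by
      rw [e2, Q_self_lie' hN]
    have h1 := cD2 hN hC hτ (e + τ • p) (P ⁅((u + τ • b : m) : 𝔸), X⁆)
    rw [e4, e5, hC.Bequi _ hτ X hX (e2 ▸ (P ⁅((u + τ • b : m) : 𝔸), X⁆).2), e3] at h1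
    rw [D2_add hs hτ, D2_smul hs hτ, D2_add_right hs hτ, D2_smul_right hs hτ,
      D2_add_right hs hτ, D2_smul_right hs hτ, D2_symm hs hτ p e, Submodule.coe_add,
      Submodule.coe_smul, map_add, map_smul, smul_eq_mul] at h1
    linarith
  have k0 := hasDerivAt_id (0 : ℝ)
  have k2 : HasDerivAt (fun τ : ℝ => τ ^ 2) 0 0 := by simpa using hasDerivAt_pow 2 (0 : ℝ)
  have h3 := (((d2 e e).add ((k0.mul (d2 e p)).const_mul 2)).add (k2.mul (d2 p p))).mul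
    (k2.const_add 1)
  have h4 : HasDerivAt (fun τ : ℝ => (D2 c (u + τ • b) e e + 2 * (τ * D2 c (u + τ • b) e p)
        + τ ^ 2 * D2 c (u + τ • b) p p) * (1 + τ ^ 2)) _ 0 := h3
  have h5 := ((dB e).add (k0.mul (dB p))).const_mul (-4)
  have h6 : HasDerivAt (fun τ : ℝ => -4 * (Q ⁅B (u + τ • b), X⁆ e +
      τ * Q ⁅B (u + τ • b), X⁆ p)) _ 0 := h5
  have h7 := h4.unique (h6.congr_of_eventuallyEq he1)
  simp only [hz, id_eq, zero_mul, mul_zero, add_zero, one_mul, mul_one, Pi.add_apply,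
    Pi.mul_apply, ne_eq, OfNat.ofNat_ne_zero, not_false_eq_true, zero_pow] at h7
  have h8 : ⁅fderiv ℝ B u b, X⁆ = w' • (p : 𝔸) - (Q (B u) b) • (e : 𝔸) := by
    rw [hw', sub_lie', smul_lie', smul_lie', he', hp']
  have h9 : ⁅B u, X⁆ = (Q (B u) b) • (p : 𝔸) := by
    conv_lhs => rw [hC.flat u b hF]
    rw [smul_lie', hp']
  have h10 : D2 c u e p = D1 c u b * Q (p : 𝔸) p := by
    rw [D2_symm hs hu, he, flag_cD2e hN hC hF hX hm, hp']
  have h11 : D2 c u b b = -4 * w' := by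
    have h1 := cD2 hN hC hu b b
    rw [hF.1, hF.2.2.1, hw'] at h1
    simp only [map_sub, map_smul, LinearMap.sub_apply, LinearMap.smul_apply, smul_eq_mul,
      hF.2.1, hF.2.2.1] at h1
    linarith
  rw [h8, h9, h10] at h7
  simp only [map_sub, map_smul, LinearMap.sub_apply, LinearMap.smul_apply, smul_eq_mul] at h7
  rw [h11, flag_c1 hN hC hF]
  rw [flag_c1 hN hC hF] at h7
  linarith

end Pool.Agent.helper75.FL
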