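import Pool.Agent.helper75.FL.LemJ

/-!
# MP_f09395_gt, boosted layer: Casimir combinations `f(c) v + g(c) z` at a flat flag
-/

set_option linter.unusedSectionVars false

noncomputable section

namespace Pool.Agent.helper75.FL

open scoped ContDiff
open Pool.Agent.Helper93.Fin Pool.Agent.helper79.FP Pool.Agent.helper79.FR
open Filter Topology

variable {𝔸 : Type*} [NormedRing 𝔸] [NormedAlgebra ℝ 𝔸] [FiniteDimensional ℝ 𝔸]
variable {g h m : Submodule ℝ 𝔸} {Q : 𝔸 →ₗ[ℝ] 𝔸 →ₗ[ℝ] ℝ} {P : 𝔸 →L[ℝ] m} {φ ψ n v z : m → ℝ}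
variable {h0 : 𝔸} {B : m → 𝔸} {c : m → ℝ} {H : Subgroup 𝔸ˣ}

/-- Casimir combination -/
def ccmb (c : m → ℝ) (f k : ℝ → ℝ) (v z : m → ℝ) (u : m) : ℝ := f (c u) * v u + k (c u) * z u

/-- constant combination -/
def kcmb (a b : ℝ) (v z : m → ℝ) (u : m) : ℝ := a * v u + b * z u

theorem ccmb_smooth (hC : Cas g h m Q P h0 B c) {f k : ℝ → ℝ} (hf : ContDiff ℝ ∞ f)
    (hk : ContDiff ℝ ∞ k) (hv : ContDiffOn ℝ ∞ v {0}ᶜ) (hz : ContDiffOn ℝ ∞ z {0}ᶜ) :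
    ContDiffOn ℝ ∞ (ccmb c f k v z) {0}ᶜ :=
  ((comp_smooth hf hC.csm).mul hv).add ((comp_smooth hk hC.csm).mul hz)

theorem kcmb_smooth (a b : ℝ) (hv : ContDiffOn ℝ ∞ v {0}ᶜ) (hz : ContDiffOn ℝ ∞ z {0}ᶜ) :
    ContDiffOn ℝ ∞ (kcmb a b v z) {0}ᶜ :=
  (contDiffOn_const.mul hv).add (contDiffOn_const.mul hz)

theorem ccmb_PhiN (hN : NData g h m Q P) (hC : Cas g h m Q P h0 B c) (hG : GrpD H h m Q h0 B c)
    {f k : ℝ → ℝ} (hf : ContDiff ℝ ∞ f)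
    (hk : ContDiff ℝ ∞ k) (hv : PhiN h m P v) (hvH : InvH H v) (hz : PhiN h m P z)
    (hzH : InvH H z) : PhiN h m P (ccmb c f k v z) ∧ InvH H (ccmb c f k v z) := by
  have h1 := ccmb_smooth hC hf hk hv.smooth hz.smooth
  have h2 : InvH H (ccmb c f k v z) := by
    intro l hl u u' huu
    unfold ccmb
    rw [hvH l hl u u' huu, hzH l hl u u' huu, hG.c l hl u u' huu]
  refine ⟨⟨h1, fun r u => ?_, inv_of_InvH hN hG h1 h2⟩, h2⟩
  unfold ccmb
  by_cases hr : r = 0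
  · rw [hv.hom, hz.hom, hr]; ring
  · rw [hv.hom, hz.hom, hC.chom r u hr]; ring

theorem kcmb_PhiN (hN : NData g h m Q P) (hG : GrpD H h m Q h0 B c)
    (a b : ℝ) (hv : PhiN h m P v) (hvH : InvH H v) (hz : PhiN h m P z)
    (hzH : InvH H z) : PhiN h m P (kcmb a b v z) ∧ InvH H (kcmb a b v z) := by
  have h1 : ContDiffOn ℝ ∞ (kcmb a b v z) {0}ᶜ := kcmb_smooth a b hv.smooth hz.smooth
  have h2 : InvH H (kcmb a b v z) := by
    intro l hl u u' huu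
    unfold kcmb
    rw [hvH l hl u u' huu, hzH l hl u u' huu]
  refine ⟨⟨h1, fun r u => ?_, inv_of_InvH hN hG h1 h2⟩, h2⟩
  unfold kcmb
  rw [hv.hom, hz.hom]; ring

theorem cm_D1 (hC : Cas g h m Q P h0 B c) {f : ℝ → ℝ} (hf : ContDiff ℝ ∞ f)
    (hv : ContDiffOn ℝ ∞ v {0}ᶜ) {u : m} (hu : u ≠ 0) (a : m) :
    D1 (fun w => f (c w) * v w) u a = f (c u) * D1 v u a + v u * (deriv f (c u) * D1 c u a) := by
  rw [D1_mul (comp_smooth hf hC.csm) hv hu, comp_D1 hf hC.csm hu]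

theorem cm_D2 (hC : Cas g h m Q P h0 B c) {f : ℝ → ℝ} (hf : ContDiff ℝ ∞ f)
    (hv : ContDiffOn ℝ ∞ v {0}ᶜ) {u : m} (hu : u ≠ 0) {a a' : m} (h1 : D1 c u a = 0)
    (h2 : D1 c u a' = 0) :
    D2 (fun w => f (c w) * v w) u a a' =
      f (c u) * D2 v u a a' + v u * (deriv f (c u) * D2 c u a a') := by
  rw [D2_mul (comp_smooth hf hC.csm) hv hu, comp_D1 hf hC.csm hu, comp_D1 hf hC.csm hu,
    comp_D2 hf hC.csm hu, h1, h2]
  ring

theorem ccmb_D1 (hC : Cas g h m Q P h0 B c) {f k : ℝ → ℝ} (hf : ContDiff ℝ ∞ f)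
    (hk : ContDiff ℝ ∞ k) (hv : ContDiffOn ℝ ∞ v {0}ᶜ) (hz : ContDiffOn ℝ ∞ z {0}ᶜ) {u : m}
    (hu : u ≠ 0) (a : m) : D1 (ccmb c f k v z) u a = D1 (kcmb (f (c u)) (k (c u)) v z) u a +
      (deriv f (c u) * v u + deriv k (c u) * z u) * D1 c u a := by
  have e1 : D1 (ccmb c f k v z) u a = D1 (fun w => f (c w) * v w) u a +
      D1 (fun w => k (c w) * z w) u a :=
    D1_sum ((comp_smooth hf hC.csm).mul hv) ((comp_smooth hk hC.csm).mul hz) hu a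
  have e2 : D1 (kcmb (f (c u)) (k (c u)) v z) u a = D1 (fun w => f (c u) * v w) u a +
      D1 (fun w => k (c u) * z w) u a :=
    D1_sum (contDiffOn_const.mul hv) (contDiffOn_const.mul hz) hu a
  have e3 : ∀ (r : ℝ) {y : m → ℝ}, ContDiffOn ℝ ∞ y {0}ᶜ →
      D1 (fun w => r * y w) u a = r * D1 y u a := fun r y hy => fd_cmul r hy hu a
  rw [e1, e2, cm_D1 hC hf hv hu, cm_D1 hC hk hz hu, e3 _ hv, e3 _ hz]
  ring

theorem ccmb_D2 (hC : Cas g h m Q P h0 B c) {f k : ℝ → ℝ} (hf : ContDiff ℝ ∞ f)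
    (hk : ContDiff ℝ ∞ k) (hv : ContDiffOn ℝ ∞ v {0}ᶜ) (hz : ContDiffOn ℝ ∞ z {0}ᶜ) {u : m}
    (hu : u ≠ 0) {a a' : m} (h1 : D1 c u a = 0) (h2 : D1 c u a' = 0) :
    D2 (ccmb c f k v z) u a a' = D2 (kcmb (f (c u)) (k (c u)) v z) u a a' +
      (deriv f (c u) * v u + deriv k (c u) * z u) * D2 c u a a' := by
  have e1 : D2 (ccmb c f k v z) u a a' = D2 (fun w => f (c w) * v w) u a a' +
      D2 (fun w => k (c w) * z w) u a a' :=
    D2_sum ((comp_smooth hf hC.csm).mul hv) ((comp_smooth hk hC.csm).mul hz) hu a a'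
  have e2 : D2 (kcmb (f (c u)) (k (c u)) v z) u a a' = D2 (fun w => f (c u) * v w) u a a' +
      D2 (fun w => k (c u) * z w) u a a' :=
    D2_sum (contDiffOn_const.mul hv) (contDiffOn_const.mul hz) hu a a'
  have e3 : ∀ (r : ℝ) {y : m → ℝ}, ContDiffOn ℝ ∞ y {0}ᶜ →
      D2 (fun w => r * y w) u a a' = r * D2 y u a a' := by
    intro r y hy
    have h3 : ∀ w : m, w ≠ 0 → D1 (fun w => r * y w) w a = r * D1 y w a :=
      fun w hw => fd_cmul r hy hw a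
    rw [D2, fd_congr h3 hu, fd_cmul r (D1_smooth hy a) hu]; rfl
  rw [e1, e2, cm_D2 hC hf hv hu h1 h2, cm_D2 hC hk hz hu h1 h2, e3 _ hv, e3 _ hz]
  ring

theorem ccmb_gx (hN : NData g h m Q P) (hC : Cas g h m Q P h0 B c) {f k : ℝ → ℝ}
    (hf : ContDiff ℝ ∞ f) (hk : ContDiff ℝ ∞ k) (hv : ContDiffOn ℝ ∞ v {0}ᶜ)
    (hz : ContDiffOn ℝ ∞ z {0}ᶜ) {u b : m} (hF : Flag Q u b) :
    gx Q (ccmb c f k v z) u = gx Q (kcmb (f (c u)) (k (c u)) v z) u +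
      ((deriv f (c u) * v u + deriv k (c u) * z u) * D1 c u b) • b := by
  have hu := hF.ne hN
  refine rep_unique hN fun w => ?_
  rw [gx_spec hN, ccmb_D1 hC hf hk hv hz hu, Submodule.coe_add, Submodule.coe_smul, map_add,
    map_smul, LinearMap.add_apply, LinearMap.smul_apply, smul_eq_mul, gx_spec hN,
    flag_cD1 hN hC hF w]
  ring

theorem ccmb_ee (hN : NData g h m Q P) (hC : Cas g h m Q P h0 B c) {f k : ℝ → ℝ}
    (hf : ContDiff ℝ ∞ f) (hk : ContDiff ℝ ∞ k) (hv : ContDiffOn ℝ ∞ v {0}ᶜ)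
    (hz : ContDiffOn ℝ ∞ z {0}ᶜ) {u b : m} (hF : Flag Q u b) :
    ee Q P (ccmb c f k v z) u = ee Q P (kcmb (f (c u)) (k (c u)) v z) u := by
  unfold ee
  rw [ccmb_gx hN hC hf hk hv hz hF, Submodule.coe_add, Submodule.coe_smul, lie_add', lie_smul',
    hF.2.2.2, smul_zero, add_zero]

/-- `Dc` vanishes on the Euler direction -/
theorem flag_ce (hN : NData g h m Q P) (hC : Cas g h m Q P h0 B c) {u b : m} (hF : Flag Q u b)
    (X : 𝔸) (hX : X ∈ g) : D1 c u (P ⁅(u : 𝔸), X⁆) = 0 := by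
  have hbr : ⁅(b : 𝔸), (u : 𝔸)⁆ = 0 := by rw [skew, hF.2.2.2, neg_zero]
  rw [flag_cD1 hN hC hF, Q_P hN b (lg hN (mg hN u) hX), ← hN.Qinv, hbr]
  simp

theorem E2_ccmb (hN : NData g h m Q P) (hC : Cas g h m Q P h0 B c) {f k : ℝ → ℝ}
    (hf : ContDiff ℝ ∞ f) (hk : ContDiff ℝ ∞ k) (hv : ContDiffOn ℝ ∞ v {0}ᶜ)
    (hz : ContDiffOn ℝ ∞ z {0}ᶜ) (hn : PhiN h m P n) {u b : m} (hF : Flag Q u b) :
    E2 Q P (ccmb c f k v z) n u = E2 Q P (kcmb (f (c u)) (k (c u)) v z) n u := by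
  have hu := hF.ne hN
  have hs0 : ContDiffOn ℝ ∞ (kcmb (f (c u)) (k (c u)) v z) {0}ᶜ := kcmb_smooth _ _ hv hz
  unfold E2
  rw [ccmb_ee hN hC hf hk hv hz hF, ccmb_gx hN hC hf hk hv hz hF]
  obtain ⟨φ0, hφ0⟩ : ∃ φ0 : m → ℝ, φ0 = kcmb (f (c u)) (k (c u)) v z := ⟨_, rfl⟩
  obtain ⟨κ, hκ⟩ : ∃ κ, κ = deriv f (c u) * v u + deriv k (c u) * z u := ⟨_, rfl⟩
  have c1 : D1 c u (ee Q P φ0 u) = 0 := flag_ce hN hC hF _ (mg hN _)
  have c2 : D1 c u (ee Q P n u) = 0 := flag_ce hN hC hF _ (mg hN _)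
  have nm : (P ⁅(u : 𝔸), (gx Q n u : 𝔸)⁆ : 𝔸) = ⁅(u : 𝔸), (gx Q n u : 𝔸)⁆ :=
    e_mem hN hn hu (gx_spec hN u)
  have c3 : D2 c u (ee Q P φ0 u) (ee Q P n u) =
      D1 c u b * Q ⁅(b : 𝔸), (gx Q n u : 𝔸)⁆ (ee Q P φ0 u) :=
    flag_cD2e hN hC hF (mg hN _) nm _
  rw [← hφ0, ← hκ, ccmb_D2 hC hf hk hv hz hu c1 c2, ← hφ0, ← hκ, c3, Submodule.coe_add,
    Submodule.coe_smul, add_lie', smul_lie', map_add, map_smul, LinearMap.add_apply,
    LinearMap.smul_apply, smul_eq_mul]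
  ring

/-- **the third order form of a Casimir combination**: the second derivatives of the coefficients
enter linearly, with the coefficient `-½ (D_b c)² E²` -/
theorem T3F_ccmb (hN : NData g h m Q P) (hC : Cas g h m Q P h0 B c) (hG : GrpD H h m Q h0 B c)
    (hv : PhiN h m P v) (hvH : InvH H v) (hz : PhiN h m P z) (hzH : InvH H z)
    {f k f1 k1 : ℝ → ℝ} (hf : ContDiff ℝ ∞ f) (hk : ContDiff ℝ ∞ k) (hf1 : ContDiff ℝ ∞ f1)
    (hk1 : ContDiff ℝ ∞ k1) {u b : m} (hF : Flag Q u b)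
    (ha : f (c u) * al P h0 v u b + k (c u) * al P h0 z u b = 0)
    (e0 : f1 (c u) = f (c u)) (e1 : deriv f1 (c u) = deriv f (c u))
    (e0' : k1 (c u) = k (c u)) (e1' : deriv k1 (c u) = deriv k (c u))
    (e2 : deriv (deriv f1) (c u) = 0) (e2' : deriv (deriv k1) (c u) = 0) :
    T3F Q P (ccmb c f k v z) u b = T3F Q P (ccmb c f1 k1 v z) u b
      - (1 / 2) * (D1 c u b ^ 2 * deriv (deriv f) (c u)) * E2 Q P (kcmb (f (c u)) (k (c u)) v z) v u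
      - (1 / 2) * (D1 c u b ^ 2 * deriv (deriv k) (c u)) *
          E2 Q P (kcmb (f (c u)) (k (c u)) v z) z u := by
  have hu := hF.ne hN
  -- `al` of a combination
  have hal : ∀ {p q : ℝ → ℝ}, ContDiff ℝ ∞ p → ContDiff ℝ ∞ q → al P h0 (ccmb c p q v z) u b =
      p (c u) * al P h0 v u b + q (c u) * al P h0 z u b := by
    intro p q hp hq
    have h1 : al P h0 (ccmb c p q v z) u b = al P h0 (fun w => p (c w) * v w) u b +
        al P h0 (fun w => q (c w) * z w) u b :=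
      D1_sum ((comp_smooth hp hC.csm).mul hv.smooth) ((comp_smooth hq hC.csm).mul hz.smooth) hu _
    rw [h1, cas_al hN hC hp hv.smooth hF, cas_al hN hC hq hz.smooth hF]
  have s1 := (ccmb_PhiN hN hC hG hf1 hk1 hv hvH hz hzH).1
  have s2 := (ccmb_PhiN hN hC hG hf hk1 hv hvH hz hzH).1
  have a1 : al P h0 (ccmb c f1 k1 v z) u b = 0 := by rw [hal hf1 hk1, e0, e0', ha]
  have a2 : al P h0 (ccmb c f k1 v z) u b = 0 := by rw [hal hf hk1, e0', ha]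
  have dsub : ∀ {p q : ℝ → ℝ}, ContDiff ℝ ∞ p → ContDiff ℝ ∞ q →
      deriv (fun t => p t - q t) = fun t => deriv p t - deriv q t := by
    intro p q hp hq
    funext t
    exact ((hp.differentiable (by simp)).differentiableAt.hasDerivAt.sub
      (hq.differentiable (by simp)).differentiableAt.hasDerivAt).deriv
  have df := dsub hf hf1
  have dk := dsub hk hk1
  have ddf : deriv (deriv fun t => f t - f1 t) (c u) = deriv (deriv f) (c u) := by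
    rw [df, dsub (deriv_smooth hf) (deriv_smooth hf1)]
    simp only [e2, sub_zero]
  have ddk : deriv (deriv fun t => k t - k1 t) (c u) = deriv (deriv k) (c u) := by
    rw [dk, dsub (deriv_smooth hk) (deriv_smooth hk1)]
    simp only [e2', sub_zero]
  have J1 := lemJ hN hC s1 hv.smooth (hf.sub hf1) hF a1 (by simp [e0]) (by
    have := congrFun df (c u)
    simp only [e1, sub_self] at this
    exact this)
  have J2 := lemJ hN hC s2 hz.smooth (hk.sub hk1) hF a2 (by simp [e0']) (by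
    have := congrFun dk (c u)
    simp only [e1', sub_self] at this
    exact this)
  have E1 : (fun w => ccmb c f1 k1 v z w + (f (c w) - f1 (c w)) * v w) = ccmb c f k1 v z := by
    funext w; unfold ccmb; ring
  have E2' : (fun w => ccmb c f k1 v z w + (k (c w) - k1 (c w)) * z w) = ccmb c f k v z := by
    funext w; unfold ccmb; ring
  rw [E1, ddf, E2_ccmb hN hC hf1 hk1 hv.smooth hz.smooth hv hF, e0, e0'] at J1
  rw [E2', ddk, E2_ccmb hN hC hf hk1 hv.smooth hz.smooth hz hF, e0'] at J2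
  rw [J2, J1]

end Pool.Agent.helper75.FL
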