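import Mathlib

/-!
# MP_f09395_gt: the profile of a layer at a wall whose second order coefficient stays in `[0, 1]`
-/

noncomputable section

namespace Pool.Agent.helper75.FL

open scoped ContDiff

/-- the slope of the profile -/
def ySl (σ s : ℝ) : ℝ := 1 / (8 * Real.sqrt (Real.sqrt (1 + (s / σ) ^ 2)))

theorem ySl_smooth (σ : ℝ) : ContDiff ℝ ∞ (ySl σ) := by
  unfold ySl
  have h1 : ContDiff ℝ ∞ fun s : ℝ => 1 + (s / σ) ^ 2 := by fun_prop
  have h0 : ∀ s : ℝ, 0 < 1 + (s / σ) ^ 2 := fun s => by positivity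
  have h2 : ContDiff ℝ ∞ fun s : ℝ => Real.sqrt (1 + (s / σ) ^ 2) := h1.sqrt fun s => (h0 s).ne'
  have h3 : ContDiff ℝ ∞ fun s : ℝ => Real.sqrt (Real.sqrt (1 + (s / σ) ^ 2)) :=
    h2.sqrt fun s => (Real.sqrt_pos.2 (h0 s)).ne'
  exact contDiff_const.div (contDiff_const.mul h3) fun s => by
    have := Real.sqrt_pos.2 (Real.sqrt_pos.2 (h0 s))
    positivity

theorem ySl_deriv {σ : ℝ} (hσ : 0 < σ) (s : ℝ) :
    HasDerivAt (ySl σ)
      (-(s / (16 * σ ^ 2 * Real.sqrt (Real.sqrt (1 + (s / σ) ^ 2)) ^ 5))) s := by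
  obtain ⟨A, hA⟩ : ∃ A, A = 1 + (s / σ) ^ 2 := ⟨_, rfl⟩
  have hA0 : 0 < A := by rw [hA]; positivity
  obtain ⟨S, hS⟩ : ∃ S, S = Real.sqrt A := ⟨_, rfl⟩
  have hS0 : 0 < S := by rw [hS]; exact Real.sqrt_pos.2 hA0
  obtain ⟨T, hT⟩ : ∃ T, T = Real.sqrt S := ⟨_, rfl⟩
  have hT0 : 0 < T := by rw [hT]; exact Real.sqrt_pos.2 hS0
  have hTS : T ^ 2 = S := by rw [hT, Real.sq_sqrt hS0.le]
  have h1 : HasDerivAt (fun s : ℝ => 1 + (s / σ) ^ 2) (2 * s / σ ^ 2) s := by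
    have h := (((hasDerivAt_id s).div_const σ).pow 2).const_add 1
    refine h.congr_deriv ?_
    simp only [id, Nat.cast_ofNat, Nat.add_one_sub_one, pow_one]
    field_simp
  have h2 := h1.sqrt (by rw [← hA]; exact hA0.ne')
  have h3 := h2.sqrt (by rw [← hA, ← hS]; exact hS0.ne')
  have h4 := (h3.const_mul 8)
  have h5 := h4.inv (by rw [← hA, ← hS, ← hT]; positivity)
  have h6 : ySl σ = fun s => (8 * Real.sqrt (Real.sqrt (1 + (s / σ) ^ 2)))⁻¹ := by
    funext s; unfold ySl; rw [one_div]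
  rw [h6]
  refine h5.congr_deriv ?_
  rw [← hA, ← hS, ← hT, ← hTS]
  field_simp
  ring

/-- **the profile** -/
theorem prof {ε : ℝ} (hε : 0 < ε) : ∃ l : ℝ → ℝ, ContDiff ℝ ∞ l ∧ l 1 = 0 ∧
    deriv l 1 = -(1 / 8) ∧ ∀ x, -1 ≤ x → x ≤ 1 → 0 ≤ l x ∧ l x ≤ ε ∧ -(1 / 8) ≤ deriv l x ∧
      deriv l x ≤ 0 ∧ 0 ≤ -8 * deriv l x + 8 * (1 - x ^ 2) * deriv (deriv l) x ∧
      -8 * deriv l x + 8 * (1 - x ^ 2) * deriv (deriv l) x ≤ 1 ∧
      (x ≤ 1 - ε → -ε ≤ deriv l x ∧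
        -8 * deriv l x + 8 * (1 - x ^ 2) * deriv (deriv l) x ≤ ε) := by
  obtain ⟨s1, hs1⟩ : ∃ s1, s1 = min ε 1 := ⟨_, rfl⟩
  have hs10 : 0 < s1 := by rw [hs1]; positivity
  have hs1ε : s1 ≤ ε := by rw [hs1]; exact min_le_left _ _
  have hs11 : s1 ≤ 1 := by rw [hs1]; exact min_le_right _ _
  -- `σ` with `(σ / s1)^{1/2} ≤ s1`
  obtain ⟨σ, hσ⟩ : ∃ σ, σ = s1 ^ 3 := ⟨_, rfl⟩
  have hσ0 : 0 < σ := by rw [hσ]; positivity
  have hcont : Continuous (ySl σ) := (ySl_smooth σ).continuous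
  -- the fourth root
  have hT0 : ∀ s : ℝ, 0 < Real.sqrt (Real.sqrt (1 + (s / σ) ^ 2)) := fun s =>
    Real.sqrt_pos.2 (Real.sqrt_pos.2 (by positivity))
  have hT1 : ∀ s : ℝ, 1 ≤ Real.sqrt (Real.sqrt (1 + (s / σ) ^ 2)) := fun s => by
    rw [Real.one_le_sqrt, Real.one_le_sqrt]
    have := sq_nonneg (s / σ)
    linarith
  have hT4 : ∀ s : ℝ, Real.sqrt (Real.sqrt (1 + (s / σ) ^ 2)) ^ 4 = 1 + (s / σ) ^ 2 := fun s => by
    have e1 : Real.sqrt (Real.sqrt (1 + (s / σ) ^ 2)) ^ 4 =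
        (Real.sqrt (Real.sqrt (1 + (s / σ) ^ 2)) ^ 2) ^ 2 := by ring
    rw [e1, Real.sq_sqrt (Real.sqrt_nonneg _), Real.sq_sqrt (by positivity)]
  have hy0 : ∀ s, 0 ≤ ySl σ s := fun s => by
    unfold ySl
    have := hT0 s
    positivity
  have hy1 : ∀ s, ySl σ s ≤ 1 / 8 := fun s => by
    unfold ySl
    have h1 := hT1 s
    rw [div_le_div_iff₀ (by linarith) (by norm_num)]
    linarith
  -- the decay
  have hTs : ∀ s, s1 ≤ s → 1 ≤ s1 * Real.sqrt (Real.sqrt (1 + (s / σ) ^ 2)) := fun s hs => by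
    have h1 := hT4 s
    have h2 : (1 / s1 ^ 2) ^ 2 ≤ (s / σ) ^ 2 := by
      refine pow_le_pow_left₀ (by positivity) ?_ 2
      rw [hσ, div_le_div_iff₀ (by positivity) (by positivity)]
      nlinarith [pow_pos hs10 2]
    have h3 : (1 / s1) ^ 4 ≤ Real.sqrt (Real.sqrt (1 + (s / σ) ^ 2)) ^ 4 := by
      rw [h1]
      have : (1 / s1) ^ 4 = (1 / s1 ^ 2) ^ 2 := by field_simp
      rw [this]
      linarith
    have h4 : 1 / s1 ≤ Real.sqrt (Real.sqrt (1 + (s / σ) ^ 2)) :=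
      (pow_le_pow_iff_left₀ (by positivity) (hT0 s).le (by norm_num)).1 h3
    rw [div_le_iff₀ hs10] at h4
    linarith
  have hys : ∀ s, s1 ≤ s → 8 * ySl σ s ≤ s1 := fun s hs => by
    unfold ySl
    have h1 := hTs s hs
    have h2 := hT0 s
    have h3 : 8 * (1 / (8 * Real.sqrt (Real.sqrt (1 + (s / σ) ^ 2)))) =
        1 / Real.sqrt (Real.sqrt (1 + (s / σ) ^ 2)) := by field_simp
    rw [h3, div_le_iff₀ h2]
    exact h1
  -- the function
  obtain ⟨l, hl⟩ : ∃ l : ℝ → ℝ, l = fun x => ∫ t in (0 : ℝ)..(1 - x), ySl σ t := ⟨_, rfl⟩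
  have hld : ∀ x, HasDerivAt l (-ySl σ (1 - x)) x := by
    intro x
    have h1 : HasDerivAt (fun y => ∫ t in (0 : ℝ)..y, ySl σ t) (ySl σ (1 - x)) (1 - x) :=
      intervalIntegral.integral_hasDerivAt_right (hcont.intervalIntegrable _ _)
        (hcont.stronglyMeasurableAtFilter _ _) hcont.continuousAt
    have h2 := h1.comp x ((hasDerivAt_id x).const_sub 1)
    rw [hl]
    refine h2.congr_deriv ?_
    ring
  have hl1 : deriv l = fun x => -ySl σ (1 - x) := funext fun x => (hld x).deriv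
  have hls : ContDiff ℝ ∞ l := by
    rw [contDiff_infty_iff_deriv]
    refine ⟨fun x => (hld x).differentiableAt, ?_⟩
    rw [hl1]
    exact ((ySl_smooth σ).comp (contDiff_const.sub contDiff_id)).neg
  have hl2 : ∀ x, deriv (deriv l) x =
      -((1 - x) / (16 * σ ^ 2 * Real.sqrt (Real.sqrt (1 + ((1 - x) / σ) ^ 2)) ^ 5)) := by
    intro x
    rw [hl1]
    have h1 : HasDerivAt (fun y => ySl σ (1 - y))
        (-((1 - x) / (16 * σ ^ 2 * Real.sqrt (Real.sqrt (1 + ((1 - x) / σ) ^ 2)) ^ 5)) * -1) x :=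
      (ySl_deriv hσ0 (1 - x)).comp x ((hasDerivAt_id x).const_sub 1)
    have h2 : HasDerivAt (fun y => -ySl σ (1 - y)) _ x := h1.fun_neg
    rw [h2.deriv]
    ring
  -- the second order coefficient
  have hκ : ∀ x, -8 * deriv l x + 8 * (1 - x ^ 2) * deriv (deriv l) x =
      (1 + ((1 - x) / σ) ^ 2 * (1 - x) / 2) /
        Real.sqrt (Real.sqrt (1 + ((1 - x) / σ) ^ 2)) ^ 5 := by
    intro x
    rw [hl2, hl1]
    have h1 := hT4 (1 - x)
    have h2 := hT0 (1 - x)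
    obtain ⟨T, hT⟩ : ∃ T, T = Real.sqrt (Real.sqrt (1 + ((1 - x) / σ) ^ 2)) := ⟨_, rfl⟩
    unfold ySl
    simp only
    rw [← hT] at h1 h2 ⊢
    have h3 : (1 : ℝ) / (8 * T) = T ^ 4 / (8 * T ^ 5) := by field_simp
    rw [h3, h1]
    field_simp
    ring
  have h1l : l 1 = 0 := by rw [hl]; simp
  refine ⟨l, hls, h1l, ?_, ?_⟩
  · rw [hl1]
    simp [ySl]
  · intro x hx1 hx2
    have hs0 : 0 ≤ 1 - x := by linarith
    have hTp := hT0 (1 - x)
    have hT5 : 0 < Real.sqrt (Real.sqrt (1 + ((1 - x) / σ) ^ 2)) ^ 5 := pow_pos hTp 5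
    -- the bound of the coefficient by `8 y`
    have hκ1 : -8 * deriv l x + 8 * (1 - x ^ 2) * deriv (deriv l) x ≤ 8 * ySl σ (1 - x) := by
      rw [hκ]
      have h1 := hT4 (1 - x)
      obtain ⟨T, hT⟩ : ∃ T, T = Real.sqrt (Real.sqrt (1 + ((1 - x) / σ) ^ 2)) := ⟨_, rfl⟩
      unfold ySl
      rw [← hT] at h1 hTp hT5 ⊢
      have h3 : 8 * ((1 : ℝ) / (8 * T)) = T ^ 4 / T ^ 5 := by field_simp
      rw [h3, h1, div_le_div_iff_of_pos_right hT5]
      have := sq_nonneg ((1 - x) / σ)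
      nlinarith
    have hint : ∀ a b : ℝ, IntervalIntegrable (ySl σ) MeasureTheory.volume a b := fun a b =>
      hcont.intervalIntegrable a b
    have hl0 : 0 ≤ l x := by
      rw [hl]
      exact intervalIntegral.integral_nonneg hs0 fun t _ => hy0 t
    have hlε : l x ≤ ε := by
      rcases le_total (1 - x) s1 with h | h
      · have h1 : (∫ t in (0 : ℝ)..(1 - x), ySl σ t) ≤ ∫ t in (0 : ℝ)..(1 - x), (1 / 8 : ℝ) :=
          intervalIntegral.integral_mono_on hs0 (hint _ _)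
            (continuous_const.intervalIntegrable _ _) fun t _ => hy1 t
        rw [intervalIntegral.integral_const, smul_eq_mul] at h1
        rw [hl]
        simp only
        linarith
      · have h1 : (∫ t in (0 : ℝ)..s1, ySl σ t) ≤ ∫ t in (0 : ℝ)..s1, (1 / 8 : ℝ) :=
          intervalIntegral.integral_mono_on hs10.le (hint _ _)
            (continuous_const.intervalIntegrable _ _) fun t _ => hy1 t
        have h2 : (∫ t in s1..(1 - x), ySl σ t) ≤ ∫ t in s1..(1 - x), (s1 / 8 : ℝ) :=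
          intervalIntegral.integral_mono_on h (hint _ _)
            (continuous_const.intervalIntegrable _ _) fun t ht => by
              have := hys t ht.1; linarith
        have h3 := intervalIntegral.integral_add_adjacent_intervals (hint 0 s1) (hint s1 (1 - x))
        rw [intervalIntegral.integral_const, smul_eq_mul] at h1 h2
        rw [hl]
        simp only
        rw [← h3]
        nlinarith
    refine ⟨hl0, hlε, ?_, ?_, ?_, ?_, ?_⟩
    · rw [hl1]; have := hy1 (1 - x); simp only; linarith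
    · rw [hl1]; have := hy0 (1 - x); simp only; linarith
    · rw [hκ]
      have := sq_nonneg ((1 - x) / σ)
      positivity
    · have := hy1 (1 - x); linarith
    · intro hx
      have h1 : s1 ≤ 1 - x := by linarith
      have h2 := hys (1 - x) h1
      have h3 := hy0 (1 - x)
      refine ⟨?_, by linarith⟩
      rw [hl1]
      simp only
      linarith

end Pool.Agent.helper75.FL
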