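import Pool.Agent.helper75.FL.Fam
import Pool.Agent.helper75.FL.Prof
import Pool.Agent.FL.WF

/-!
# MP_f09395_gt: adding a `W`-invariant function at a wall, with a profile whose second order
coefficient stays in `[0, 1]`
-/

set_option linter.unusedSectionVars false

noncomputable section

namespace Pool.Agent.helper75.FL

open scoped ContDiff
open Pool.Agent.Helper93.Fin Pool.Agent.helper79.FP Pool.Agent.helper79.FR
open Filter Topology

/-- the compactness lemma -/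
theorem wcomp {X : Type*} [TopologicalSpace X] {K : Set X} (hK : IsCompact K) {γ T E : X → ℝ}
    {G : X × (ℝ × (ℝ × ℝ)) → ℝ} (hγ : ContinuousOn γ K)
    (hG : ContinuousOn G (K ×ˢ Set.univ))
    (g1 : ∀ x ∈ K, γ x = 0 → ∀ l1 κ, G (x, (0, (l1, κ))) = T x - κ * E x)
    (g2 : ∀ x ∈ K, G (x, (0, (0, 0))) = T x) (p1 : ∀ x ∈ K, 0 < T x)
    (p2 : ∀ x ∈ K, γ x = 0 → 0 < T x - E x) :
    ∃ ε > 0, ∀ x ∈ K, ∀ l0 l1 κ : ℝ, 0 ≤ l0 → l0 ≤ ε → |l1| ≤ 1 → 0 ≤ κ → κ ≤ 1 →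
      (|γ x| ≤ ε ∨ (|l1| ≤ ε ∧ κ ≤ ε)) → 0 < G (x, (l0, (l1, κ))) := by
  obtain ⟨I, hI⟩ : ∃ I : Set (ℝ × (ℝ × ℝ)), I = Set.Icc 0 1 ×ˢ (Set.Icc (-1) 1 ×ˢ Set.Icc 0 1) :=
    ⟨_, rfl⟩
  have hIc : IsCompact I := by
    rw [hI]; exact isCompact_Icc.prod (isCompact_Icc.prod isCompact_Icc)
  have hK2 : IsCompact (K ×ˢ I) := hK.prod hIc
  have hG2 : ContinuousOn G (K ×ˢ I) := hG.mono (Set.prod_mono_right (Set.subset_univ _))
  have hγ2 : ContinuousOn (fun y : X × (ℝ × (ℝ × ℝ)) => γ y.1) (K ×ˢ I) :=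
    hγ.comp continuous_fst.continuousOn fun y hy => hy.1
  have c0 : ContinuousOn (fun y : X × (ℝ × (ℝ × ℝ)) => y.2.1) (K ×ˢ I) :=
    (continuous_fst.comp continuous_snd).continuousOn
  have c1 : ContinuousOn (fun y : X × (ℝ × (ℝ × ℝ)) => y.2.2.1) (K ×ˢ I) :=
    (continuous_fst.comp (continuous_snd.comp continuous_snd)).continuousOn
  have c2 : ContinuousOn (fun y : X × (ℝ × (ℝ × ℝ)) => y.2.2.2) (K ×ˢ I) :=
    (continuous_snd.comp (continuous_snd.comp continuous_snd)).continuousOn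
  obtain ⟨C, hC, e, he, hx⟩ := pos_add_sq' hK2 (f := G)
    (g := fun y => γ y.1 ^ 2 + y.2.1 ^ 2) hG2 ((hγ2.pow 2).add (c0.pow 2)) (by
      rintro ⟨x, l0, l1, κ⟩ ⟨hxK, hy⟩ h0
      rw [hI] at hy
      obtain ⟨-, -, hκ0, hκ1⟩ := hy
      simp only at h0 hκ0 hκ1 hxK ⊢
      have h1 := sq_nonneg (γ x)
      have h2 := sq_nonneg l0
      have h3 : γ x = 0 := pow_eq_zero_iff (two_ne_zero) |>.1 (le_antisymm (by linarith) h1)
      have h4 : l0 = 0 := pow_eq_zero_iff (two_ne_zero) |>.1 (le_antisymm (by linarith) h2)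
      rw [h4, g1 x hxK h3]
      have h5 := p1 x hxK
      have h6 := p2 x hxK h3
      rcases hκ0.lt_or_eq with h7 | h7
      · nlinarith
      · rw [← h7]; linarith)
  obtain ⟨C', hC', e', he', hx'⟩ := pos_add_sq' hK2 (f := G)
    (g := fun y => y.2.1 ^ 2 + y.2.2.1 ^ 2 + y.2.2.2 ^ 2) hG2
      (((c0.pow 2).add (c1.pow 2)).add (c2.pow 2)) (by
      rintro ⟨x, l0, l1, κ⟩ ⟨hxK, -⟩ h0
      simp only at h0 hxK ⊢
      have h1 := sq_nonneg l1
      have h2 := sq_nonneg l0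
      have h3 := sq_nonneg κ
      have h4 : l0 = 0 := pow_eq_zero_iff (two_ne_zero) |>.1 (le_antisymm (by linarith) h2)
      have h5 : l1 = 0 := pow_eq_zero_iff (two_ne_zero) |>.1 (le_antisymm (by linarith) h1)
      have h6 : κ = 0 := pow_eq_zero_iff (two_ne_zero) |>.1 (le_antisymm (by linarith) h3)
      rw [h4, h5, h6, g2 x hxK]
      exact p1 x hxK)
  obtain ⟨ε, hε⟩ : ∃ ε, ε = min 1 (min (e / (8 * C)) (e' / (18 * C'))) := ⟨_, rfl⟩
  have hε0 : 0 < ε := by rw [hε]; positivity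
  have hε1 : ε ≤ 1 := by rw [hε]; exact min_le_left _ _
  have hε2 : ε * (8 * C) ≤ e := by
    have : ε ≤ e / (8 * C) := by rw [hε]; exact (min_le_right _ _).trans (min_le_left _ _)
    rwa [le_div_iff₀ (by positivity)] at this
  have hε3 : ε * (18 * C') ≤ e' := by
    have : ε ≤ e' / (18 * C') := by rw [hε]; exact (min_le_right _ _).trans (min_le_right _ _)
    rwa [le_div_iff₀ (by positivity)] at this
  have hsq : ε ^ 2 ≤ ε := by nlinarith
  refine ⟨ε, hε0, fun x hxK l0 l1 κ h0 h1 h2 h3 h4 h5 => ?_⟩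
  have hmem : (x, (l0, (l1, κ))) ∈ K ×ˢ I := by
    rw [hI]
    exact ⟨hxK, ⟨h0, h1.trans hε1⟩, abs_le.1 h2, h3, h4⟩
  have hl0 : l0 ^ 2 ≤ ε := (pow_le_pow_left₀ h0 h1 2).trans hsq
  rcases h5 with h5 | ⟨h5, h6⟩
  · have hg : γ x ^ 2 ≤ ε := by
      rw [← sq_abs]
      exact (pow_le_pow_left₀ (abs_nonneg _) h5 2).trans hsq
    have h7 := hx _ hmem
    simp only at h7
    have h8 : (γ x ^ 2 + l0 ^ 2) ^ 2 ≤ 4 * ε := by
      have h9 : 0 ≤ γ x ^ 2 + l0 ^ 2 := by positivity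
      have h10 : (γ x ^ 2 + l0 ^ 2) ^ 2 ≤ (2 * ε) ^ 2 :=
        pow_le_pow_left₀ h9 (by linarith) 2
      nlinarith
    have h9 : C * (γ x ^ 2 + l0 ^ 2) ^ 2 ≤ C * (4 * ε) := mul_le_mul_of_nonneg_left h8 hC.le
    linarith
  · have hl1 : l1 ^ 2 ≤ ε := by
      rw [← sq_abs]
      exact (pow_le_pow_left₀ (abs_nonneg _) h5 2).trans hsq
    have hκ : κ ^ 2 ≤ ε := (pow_le_pow_left₀ h3 h6 2).trans hsq
    have h7 := hx' _ hmem
    simp only at h7
    have h8 : (l0 ^ 2 + l1 ^ 2 + κ ^ 2) ^ 2 ≤ 9 * ε := by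
      have h9 : 0 ≤ l0 ^ 2 + l1 ^ 2 + κ ^ 2 := by positivity
      have h10 : (l0 ^ 2 + l1 ^ 2 + κ ^ 2) ^ 2 ≤ (3 * ε) ^ 2 :=
        pow_le_pow_left₀ h9 (by linarith) 2
      nlinarith
    have h9 : C' * (l0 ^ 2 + l1 ^ 2 + κ ^ 2) ^ 2 ≤ C' * (9 * ε) :=
      mul_le_mul_of_nonneg_left h8 hC'.le
    linarith

variable {𝔸 : Type*} [NormedRing 𝔸] [NormedAlgebra ℝ 𝔸] [FiniteDimensional ℝ 𝔸]
variable {g h m : Submodule ℝ 𝔸} {Q : 𝔸 →ₗ[ℝ] 𝔸 →ₗ[ℝ] ℝ} {P : 𝔸 →L[ℝ] m} {φ ψ n v z : m → ℝ}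
variable {h0 : 𝔸} {B : m → 𝔸} {c : m → ℝ} {H : Subgroup 𝔸ˣ}

/-- the three functions -/
def psi3 (c v n : m → ℝ) : Fin 3 → m → ℝ := ![v, n, fun u => c u * n u]

/-- their coefficients -/
def co3 (l0 l1 t : ℝ) : Fin 3 → ℝ := ![1, l0 - l1 * t, l1]

theorem cmb_co3 (l0 l1 t : ℝ) :
    cmb (co3 l0 l1 t) (psi3 c v n) = fun u => v u + (l0 + l1 * (c u - t)) * n u := by
  funext u
  simp [cmb, Fin.sum_univ_three, co3, psi3]
  ring

/-- the third order form of `v + k(c) n` as a function of the flag, `k`, `k'` and the second order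
coefficient -/
def GG (Q : 𝔸 →ₗ[ℝ] 𝔸 →ₗ[ℝ] ℝ) (P : 𝔸 →L[ℝ] m) (c v n : m → ℝ) (ς : ℝ)
    (p : (m × m) × (ℝ × (ℝ × ℝ))) : ℝ :=
  T3F Q P (cmb (co3 p.2.1 p.2.2.1 (c p.1.1)) (psi3 c v n)) p.1.1 p.1.2 -
    (p.2.2.2 + 8 * ς * p.2.2.1) * E2 Q P (kcmb 1 p.2.1 v n) n p.1.1

theorem GG_cont (hN : NData g h m Q P) (hC : Cas g h m Q P h0 B c)
    (hv : ContDiffOn ℝ ∞ v {0}ᶜ) (hn : ContDiffOn ℝ ∞ n {0}ᶜ) (ς : ℝ)
    {S : Set ((m × m) × (ℝ × (ℝ × ℝ)))} (hS : ∀ p ∈ S, p.1.1 ≠ 0) :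
    ContinuousOn (GG Q P c v n ς) S := by
  intro p hp
  have hu := hS p hp
  refine Tendsto.mono_left ?_ nhdsWithin_le_nhds
  have tu : Tendsto (fun q : (m × m) × (ℝ × (ℝ × ℝ)) => q.1.1) (𝓝 p) (𝓝 p.1.1) :=
    (continuous_fst.comp continuous_fst).tendsto p
  have tb : Tendsto (fun q : (m × m) × (ℝ × (ℝ × ℝ)) => q.1.2) (𝓝 p) (𝓝 p.1.2) :=
    (continuous_snd.comp continuous_fst).tendsto p
  have t0 : Tendsto (fun q : (m × m) × (ℝ × (ℝ × ℝ)) => q.2.1) (𝓝 p) (𝓝 p.2.1) :=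
    (continuous_fst.comp continuous_snd).tendsto p
  have t1 : Tendsto (fun q : (m × m) × (ℝ × (ℝ × ℝ)) => q.2.2.1) (𝓝 p) (𝓝 p.2.2.1) :=
    (continuous_fst.comp (continuous_snd.comp continuous_snd)).tendsto p
  have t2 : Tendsto (fun q : (m × m) × (ℝ × (ℝ × ℝ)) => q.2.2.2) (𝓝 p) (𝓝 p.2.2.2) :=
    (continuous_snd.comp (continuous_snd.comp continuous_snd)).tendsto p
  have tc : Tendsto (fun q : (m × m) × (ℝ × (ℝ × ℝ)) => c q.1.1) (𝓝 p) (𝓝 (c p.1.1)) :=
    tendsto_of_ne hC.csm hu tu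
  have J1 : JT (𝓝 p) (fun q : (m × m) × (ℝ × (ℝ × ℝ)) =>
      cmb (co3 q.2.1 q.2.2.1 (c q.1.1)) (psi3 c v n))
      (fun q => q.1.1) (cmb (co3 p.2.1 p.2.2.1 (c p.1.1)) (psi3 c v n)) p.1.1 := by
    refine JT.cmb (ψ := psi3 c v n) (fun i => ?_) (fun i => ?_) hu tu
    · fin_cases i
      · exact hv
      · exact hn
      · exact hC.csm.mul hn
    · fin_cases i
      · exact tendsto_const_nhds
      · exact t0.sub (t1.mul tc)
      · exact t1
  have J2 : JT (𝓝 p) (fun q : (m × m) × (ℝ × (ℝ × ℝ)) => kcmb 1 q.2.1 v n)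
      (fun q => q.1.1) (kcmb 1 p.2.1 v n) p.1.1 :=
    kcmb_JT hv hn tendsto_const_nhds t0 hu tu
  have c2 : Tendsto (fun _ : (m × m) × (ℝ × (ℝ × ℝ)) => 8 * ς) (𝓝 p) (𝓝 (8 * ς)) :=
    tendsto_const_nhds
  exact (T3F_JT hN J1 tu tb).sub ((t2.add (c2.mul t1)).mul (E2_JT hN J2 (JT.const hn hu tu) tu))

/-- **adding `l(c) n`, `n` in the class of `W`-invariant functions, at the wall `c = ς`.**
`S` is a compact set of flags on which the third order form must stay positive. -/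
theorem wlay (hN : NData g h m Q P) (hC : Cas g h m Q P h0 B c) (hG : GrpD H h m Q h0 B c)
    (hW : Pool.Agent.FL.Wall.CasW Q B c) (hv : PhiN h m P v) (hvH : InvH H v)
    (hn : PhiN h m P n) (hnH : InvH H n)
    (hna : ∀ u b : m, Flag Q u b → al P h0 n u b = 0) {ς : ℝ} (hς : ς ^ 2 = 1)
    {S : Set (m × m)} (hS : IsCompact S) (hSF : ∀ p ∈ S, Flag Q p.1 p.2)
    (hSa : ∀ p ∈ S, al P h0 v p.1 p.2 = 0) (hST : ∀ p ∈ S, 0 < T3F Q P v p.1 p.2)
    (hSw : ∀ p ∈ S, c p.1 = ς → 0 < T3F Q P v p.1 p.2 -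
      Pool.Agent.FL.Wall.EE Q P v (Pool.Agent.FL.Wall.EE Q P v n) p.1) :
    ∃ l : ℝ → ℝ, ContDiff ℝ ∞ l ∧ l ς = 0 ∧ deriv l ς = -ς / 8 ∧
      (∀ p ∈ S, 0 < T3F Q P (fun z => v z + l (c z) * n z) p.1 p.2) ∧
      ∀ u b : m, Flag Q u b → c u = ς → al P h0 v u b = 0 →
        T3F Q P (fun z => v z + l (c z) * n z) u b = T3F Q P v u b -
          Pool.Agent.FL.Wall.EE Q P v (Pool.Agent.FL.Wall.EE Q P v n) u := by
  have hSne : ∀ p ∈ S, p.1 ≠ 0 := fun p hp => (hSF p hp).ne hN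
  have hE : ∀ u : m, u ≠ 0 →
      Pool.Agent.FL.Wall.EE Q P v (Pool.Agent.FL.Wall.EE Q P v n) u = E2 Q P v n u := fun u hu =>
    Ev_Ev hN hv.smooth hn.smooth hu
  -- the wall formula
  have hwall : ∀ {l : ℝ → ℝ}, ContDiff ℝ ∞ l → l ς = 0 → ∀ u b : m, Flag Q u b → c u = ς →
      al P h0 v u b = 0 → T3F Q P (fun z => v z + l (c z) * n z) u b = T3F Q P v u b +
        8 * ς * deriv l ς * E2 Q P v n u := by
    intro l hl hl0 u b hF hcu ha
    have hw : Q (B u) b = 0 := by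
      have h1 := hC.cw u b hF
      rw [hcu] at h1
      exact pow_eq_zero_iff (two_ne_zero) |>.1 (by linarith)
    rw [Pool.Agent.FL.Wall.WF1 hN hC hW hv hF hw ha hl (by rw [hcu]; exact hl0) hn.smooth, hcu,
      hE u (hF.ne hN)]
  -- compactness
  obtain ⟨ε, hε, hpos⟩ := wcomp hS (γ := fun p => 1 - ς * c p.1)
    (T := fun p => T3F Q P v p.1 p.2) (E := fun p => E2 Q P v n p.1) (G := GG Q P c v n ς)
    (continuousOn_const.sub (continuousOn_const.mul (cont_fst hC.csm hSne)))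
    (GG_cont hN hC hv.smooth hn.smooth ς fun p hp => hSne _ hp.1) (by
      rintro ⟨u, b⟩ hp h0' l1 κ
      have hF := hSF _ hp
      have hcu : c u = ς := by
        have h1 : ς * c u = 1 := by simp only at h0'; linarith
        calc c u = ς ^ 2 * c u := by rw [hς]; ring
          _ = ς * (ς * c u) := by ring
          _ = ς := by rw [h1]; ring
      have h1 := hwall (l := fun x => l1 * (x - ς)) (by fun_prop) (by simp) u b hF hcu (hSa _ hp)
      have h2 : deriv (fun x : ℝ => l1 * (x - ς)) ς = l1 := by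
        have h3 : HasDerivAt (fun x : ℝ => l1 * (x - ς)) (l1 * 1) ς :=
          ((hasDerivAt_id ς).sub_const ς).const_mul l1
        rw [h3.deriv, mul_one]
      rw [h2] at h1
      unfold GG
      simp only
      rw [cmb_co3, hcu]
      have h4 : (fun w => v w + (0 + l1 * (c w - ς)) * n w) =
          fun w => v w + l1 * (c w - ς) * n w := by funext w; ring
      have h5 : kcmb 1 0 v n = v := by funext w; simp [kcmb]
      rw [h4, h1, h5]
      ring) (by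
      rintro ⟨u, b⟩ hp
      unfold GG
      simp only
      rw [cmb_co3]
      have h4 : (fun w => v w + (0 + 0 * (c w - c u)) * n w) = v := by funext w; ring
      rw [h4]
      ring) (fun p hp => hST p hp) (by
      rintro ⟨u, b⟩ hp h0'
      have hF := hSF _ hp
      have hcu : c u = ς := by
        have h1 : ς * c u = 1 := by simp only at h0'; linarith
        calc c u = ς ^ 2 * c u := by rw [hς]; ring
          _ = ς * (ς * c u) := by ring
          _ = ς := by rw [h1]; ring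
      have h1 := hSw _ hp hcu
      rw [hE u (hF.ne hN)] at h1
      exact h1)
  -- the profile
  obtain ⟨l, hl, hl1, hl2, hlp⟩ := prof hε
  have hld : ∀ x, HasDerivAt l (deriv l x) x := fun x =>
    (hl.differentiable (by simp)).differentiableAt.hasDerivAt
  have hl' := deriv_smooth hl
  have hld' : ∀ x, HasDerivAt (deriv l) (deriv (deriv l) x) x := fun x =>
    (hl'.differentiable (by simp)).differentiableAt.hasDerivAt
  obtain ⟨k, hk⟩ : ∃ k : ℝ → ℝ, k = fun x => l (ς * x) := ⟨_, rfl⟩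
  have hks : ContDiff ℝ ∞ k := by rw [hk]; exact hl.comp (contDiff_const.mul contDiff_id)
  have hk1 : deriv k = fun x => ς * deriv l (ς * x) := by
    funext x
    have h1 : HasDerivAt (fun y => l (ς * y)) (deriv l (ς * x) * (ς * 1)) x :=
      (hld (ς * x)).comp x ((hasDerivAt_id x).const_mul ς)
    rw [hk, h1.deriv]; ring
  have hk2 : ∀ x, deriv (deriv k) x = deriv (deriv l) (ς * x) := by
    intro x
    have h1 : HasDerivAt (fun y => ς * deriv l (ς * y))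
        (ς * (deriv (deriv l) (ς * x) * (ς * 1))) x :=
      ((hld' (ς * x)).comp x ((hasDerivAt_id x).const_mul ς)).const_mul ς
    rw [hk1, h1.deriv]
    calc ς * (deriv (deriv l) (ς * x) * (ς * 1)) = ς ^ 2 * deriv (deriv l) (ς * x) := by ring
      _ = _ := by rw [hς, one_mul]
  have hςς : ς * ς = 1 := by rw [← hς]; ring
  have hk0 : k ς = 0 := by rw [hk]; simp only; rw [hςς, hl1]
  have hkd : deriv k ς = -ς / 8 := by
    rw [hk1]; simp only; rw [hςς, hl2]; ring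
  have hςa : |ς| = 1 := by
    have : |ς| ^ 2 = 1 := by rw [sq_abs, hς]
    nlinarith [abs_nonneg ς]
  refine ⟨k, hks, hk0, hkd, ?_, ?_⟩
  · rintro ⟨u, b⟩ hp
    have hF := hSF _ hp
    simp only at hF ⊢
    have hcw := hC.cw u b hF
    obtain ⟨x, hx⟩ : ∃ x, x = ς * c u := ⟨_, rfl⟩
    have hx2 : x ^ 2 = c u ^ 2 := by rw [hx, mul_pow, hς, one_mul]
    have hx3 : x ^ 2 ≤ 1 := by rw [hx2]; nlinarith [sq_nonneg (Q (B u) b)]
    obtain ⟨hx4, hx5⟩ := abs_le.1 (show |x| ≤ 1 from abs_le_one_iff_mul_self_le_one.2 (by nlinarith))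
    obtain ⟨q1, q2, q3, q4, q5, q6, q7⟩ := hlp x hx4 hx5
    have ha := hSa _ hp
    have hone : ContDiff ℝ ∞ fun _ : ℝ => (1 : ℝ) := contDiff_const
    have hlin : ContDiff ℝ ∞ fun y : ℝ => k (c u) + deriv k (c u) * (y - c u) := by fun_prop
    have hlind : deriv (fun y : ℝ => k (c u) + deriv k (c u) * (y - c u)) =
        fun _ => deriv k (c u) := by
      funext y
      have h1 : HasDerivAt (fun y : ℝ => k (c u) + deriv k (c u) * (y - c u))
          (deriv k (c u) * 1) y :=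
        (((hasDerivAt_id y).sub_const (c u)).const_mul _).const_add _
      rw [h1.deriv, mul_one]
    have key := T3F_ccmb hN hC hG hv hvH hn hnH (f := fun _ => 1) (k := k) (f1 := fun _ => 1)
      (k1 := fun y => k (c u) + deriv k (c u) * (y - c u)) hone hks hone hlin hF (by
        simp only at ha ⊢
        rw [ha, hna u b hF]; ring) rfl rfl (by simp) (by rw [hlind]) (by simp)
        (by rw [hlind]; simp)
    have e1 : (fun z => v z + k (c z) * n z) = ccmb c (fun _ => 1) k v n := by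
      funext z; unfold ccmb; ring
    have e2 : ccmb c (fun _ => 1) (fun y => k (c u) + deriv k (c u) * (y - c u)) v n =
        cmb (co3 (k (c u)) (deriv k (c u)) (c u)) (psi3 c v n) := by
      rw [cmb_co3]
      funext z; unfold ccmb; ring
    have e3 : D1 c u b ^ 2 = 16 * (1 - x ^ 2) := by
      rw [flag_c1 hN hC hF, hx2, ← hcw]; ring
    have hkc : k (c u) = l x := by rw [hk, hx]
    have hk1c : deriv k (c u) = ς * deriv l x := by rw [hk1, hx]
    have hk2c : deriv (deriv k) (c u) = deriv (deriv l) x := by rw [hk2, hx]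
    obtain ⟨κ, hκ⟩ : ∃ κ, κ = -8 * deriv l x + 8 * (1 - x ^ 2) * deriv (deriv l) x := ⟨_, rfl⟩
    have e4 : T3F Q P (fun z => v z + k (c z) * n z) u b =
        GG Q P c v n ς ((u, b), (l x, (ς * deriv l x, κ))) := by
      rw [e1, key, e2]
      have hd1 : deriv (fun _ : ℝ => (1 : ℝ)) = fun _ => 0 := by funext y; simp
      have hd2 : deriv (fun _ : ℝ => (0 : ℝ)) (c u) = 0 := by simp
      rw [hd1, hd2, e3, hkc, hk1c, hk2c]
      unfold GG
      simp only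
      have e5 : 8 * ς * (ς * deriv l x) = 8 * deriv l x := by
        calc 8 * ς * (ς * deriv l x) = ς ^ 2 * (8 * deriv l x) := by ring
          _ = _ := by rw [hς, one_mul]
      rw [e5, hκ]
      ring
    rw [e4]
    have hd8 : |deriv l x| ≤ 1 := abs_le.2 ⟨by linarith, by linarith⟩
    refine hpos (u, b) hp (l x) (ς * deriv l x) κ q1 q2 (by rw [abs_mul, hςa, one_mul]; exact hd8)
      (by rw [hκ]; exact q5) (by rw [hκ]; exact q6) ?_
    rcases le_total x (1 - ε) with h | h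
    · right
      obtain ⟨q8, q9⟩ := q7 h
      refine ⟨?_, by rw [hκ]; exact q9⟩
      rw [abs_mul, hςa, one_mul]
      exact abs_le.2 ⟨q8, by linarith⟩
    · left
      simp only
      rw [← hx, abs_of_nonneg (by linarith)]
      linarith
  · intro u b hF hcu ha
    rw [hwall hks hk0 u b hF hcu ha, hkd, hE u (hF.ne hN)]
    calc T3F Q P v u b + 8 * ς * (-ς / 8) * E2 Q P v n u =
        T3F Q P v u b - ς ^ 2 * E2 Q P v n u := by ring
      _ = _ := by rw [hς, one_mul]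

end Pool.Agent.helper75.FL
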