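import Pool.Agent.helper75.FL.SB
import Pool.Agent.helper75.FL.WLay
import Pool.Agent.FL.BLin
import Pool.Agent.FL.Inv0

/-!
# MP_f09395_gt: adding `W`-invariant functions at the two walls
-/

set_option linter.unusedSectionVars false

noncomputable section

namespace Pool.Agent.helper75.FL

open scoped ContDiff
open Pool.Agent.Helper93.Fin Pool.Agent.helper79.FP Pool.Agent.helper79.FR Pool.Agent.FL.Wall
open Pool.Agent.FL
open Filter Topology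

variable {𝔸 : Type*} [NormedRing 𝔸] [NormedAlgebra ℝ 𝔸] [FiniteDimensional ℝ 𝔸]
variable {g h m : Submodule ℝ 𝔸} {Q : 𝔸 →ₗ[ℝ] 𝔸 →ₗ[ℝ] ℝ} {P : 𝔸 →L[ℝ] m}
variable {φ ψ n v z nA nB : m → ℝ}
variable {h0 : 𝔸} {B : m → 𝔸} {c : m → ℝ} {H : Subgroup 𝔸ˣ}

theorem lcn_PhiN (hN : NData g h m Q P) (hC : Cas g h m Q P h0 B c) (hG : GrpD H h m Q h0 B c)
    (hv : PhiN h m P v) (hvH : InvH H v) (hn : PhiN h m P n) (hnH : InvH H n) {l : ℝ → ℝ}
    (hl : ContDiff ℝ ∞ l) :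
    PhiN h m P (fun z => v z + l (c z) * n z) ∧ InvH H (fun z => v z + l (c z) * n z) := by
  have h1 := ccmb_PhiN hN hC hG (f := fun _ => 1) (k := l) contDiff_const hl hv hvH hn hnH
  have e1 : (fun z => v z + l (c z) * n z) = ccmb c (fun _ => 1) l v n := by
    funext z; unfold ccmb; ring
  rw [e1]
  exact h1

theorem lcn_al (hN : NData g h m Q P) (hC : Cas g h m Q P h0 B c) (hv : ContDiffOn ℝ ∞ v {0}ᶜ)
    (hn : ContDiffOn ℝ ∞ n {0}ᶜ) {l : ℝ → ℝ} (hl : ContDiff ℝ ∞ l) {u b : m} (hF : Flag Q u b)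
    (h1 : al P h0 n u b = 0) :
    al P h0 (fun z => v z + l (c z) * n z) u b = al P h0 v u b := by
  have hu := hF.ne hN
  have h2 : al P h0 (fun z => v z + l (c z) * n z) u b = al P h0 v u b +
      al P h0 (fun z => l (c z) * n z) u b :=
    D1_sum hv ((comp_smooth hl hC.csm).mul hn) hu _
  rw [h2, cas_al hN hC hl hn hF, h1, mul_zero, add_zero]

theorem lcn_al' (hN : NData g h m Q P) (hC : Cas g h m Q P h0 B c) (hv : ContDiffOn ℝ ∞ v {0}ᶜ)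
    (hn : ContDiffOn ℝ ∞ n {0}ᶜ) {l : ℝ → ℝ} (hl : ContDiff ℝ ∞ l) {u b : m} (hF : Flag Q u b)
    (h1 : al P h0 n u b = 0) (h2 : al' P h0 n u b = 0) :
    al' P h0 (fun z => v z + l (c z) * n z) u b = al' P h0 v u b := by
  have hu := hF.ne hN
  have h3 : al' P h0 (fun z => v z + l (c z) * n z) u b = al' P h0 v u b +
      al' P h0 (fun z => l (c z) * n z) u b :=
    D2_sum hv ((comp_smooth hl hC.csm).mul hn) hu _ _
  rw [h3, cas_al' hN hC hl hn hF, h1, h2]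
  ring

theorem lcn_gx (hN : NData g h m Q P) (hC : Cas g h m Q P h0 B c) (hW : CasW Q B c)
    (hv : ContDiffOn ℝ ∞ v {0}ᶜ) (hn : ContDiffOn ℝ ∞ n {0}ᶜ) {l : ℝ → ℝ}
    (hl : ContDiff ℝ ∞ l) {u b : m} (hF : Flag Q u b) (hl0 : l (c u) = 0)
    (hw : Q (B u) b = 0) : gx Q (fun z => v z + l (c z) * n z) u = gx Q v u := by
  have hu := hF.ne hN
  have hL := comp_smooth hl hC.csm
  have hJ := lc_jet hN hC hW hl hF hw hl0
  refine rep_unique hN fun w => ?_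
  rw [gx_spec hN, gx_spec hN, D1_sum hv (hL.mul hn) hu, D1_mul hL hn hu, hJ.z, hJ.d1]
  ring

theorem lcn_a2 (hN : NData g h m Q P) (hC : Cas g h m Q P h0 B c) (hW : CasW Q B c)
    (hv : PhiN h m P v) (hn : PhiN h m P n) {l : ℝ → ℝ}
    (hl : ContDiff ℝ ∞ l) {u b : m} (hF : Flag Q u b) (hl0 : l (c u) = 0)
    (hw : Q (B u) b = 0) : a2 Q P h0 (fun z => v z + l (c z) * n z) u b = a2 Q P h0 v u b := by
  have hu := hF.ne hN
  have hL := comp_smooth hl hC.csm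
  have hJ := lc_jet hN hC hW hl hF hw hl0
  have hx := lcn_gx hN hC hW hv.smooth hn.smooth hl hF hl0 hw
  have he : ef Q P (fun z => v z + l (c z) * n z) u = ef Q P v u := by
    unfold ef; rw [hx]
  have hd : D2 (fun z => l (c z)) u (P ⁅h0, (b : 𝔸)⁆) (ef Q P v u) = 0 := by
    rw [D2_symm hL hu]
    exact hJ.d2e _ (mg hN _) (e_mem hN hv hu (gx_spec hN u)) _
  unfold a2
  rw [he, hx, D2_sum hv.smooth (hL.mul hn.smooth) hu, D2_mul hL hn.smooth hu,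
    D1_sum hv.smooth (hL.mul hn.smooth) hu, D1_mul hL hn.smooth hu, hJ.z, hJ.d1, hJ.d1, hJ.d1, hd]
  ring

theorem gx_congr (hN : NData g h m Q P) {u : m} (hf : φ =ᶠ[𝓝 u] ψ) :
    gx Q φ u = gx Q ψ u := by
  refine rep_unique hN fun w => ?_
  rw [gx_spec hN, gx_spec hN]
  exact (ev_D1 hf w).self_of_nhds

theorem a2_congr (hN : NData g h m Q P) {u b : m} (hf : φ =ᶠ[𝓝 u] ψ) :
    a2 Q P h0 φ u b = a2 Q P h0 ψ u b := by
  have h1 := gx_congr hN hf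
  have h2 : ∀ a w, D2 φ u a w = D2 ψ u a w := fun a w => (ev_D2 hf a w).self_of_nhds
  have h3 : ∀ w, D1 φ u w = D1 ψ u w := fun w => (ev_D1 hf w).self_of_nhds
  unfold a2 ef
  rw [h1, h2, h3]

/-- **adding `W`-invariant functions at both walls** -/
theorem wlayAB (hN : NData g h m Q P) (hC : Cas g h m Q P h0 B c) (hG : GrpD H h m Q h0 B c)
    (hW : CasW Q B c) (hv : PhiN h m P v) (hvH : InvH H v)
    (hA : PhiN h m P nA) (hAH : InvH H nA) (hB : PhiN h m P nB) (hBH : InvH H nB)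
    (hAa : ∀ u b : m, Flag Q u b → al P h0 nA u b = 0)
    (hAa' : ∀ u b : m, Flag Q u b → al' P h0 nA u b = 0)
    (hBa : ∀ u b : m, Flag Q u b → al P h0 nB u b = 0)
    (hBa' : ∀ u b : m, Flag Q u b → al' P h0 nB u b = 0)
    (hA0 : ∀ u : m, u ≠ 0 → c u = -1 → nA =ᶠ[𝓝 u] fun _ => 0)
    (hB0 : ∀ u : m, u ≠ 0 → c u = 1 → nB =ᶠ[𝓝 u] fun _ => 0)
    {S : Set (m × m)} (hS : IsCompact S) (hSF : ∀ p ∈ S, Flag Q p.1 p.2)
    (hSa : ∀ p ∈ S, al P h0 v p.1 p.2 = 0) (hST : ∀ p ∈ S, 0 < T3F Q P v p.1 p.2)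
    (hSA : ∀ p ∈ S, c p.1 = 1 → 0 < T3F Q P v p.1 p.2 - Wall.EE Q P v (Wall.EE Q P v nA) p.1)
    (hSB : ∀ p ∈ S, c p.1 = -1 → 0 < T3F Q P v p.1 p.2 - Wall.EE Q P v (Wall.EE Q P v nB) p.1) :
    ∃ φ : m → ℝ, PhiN h m P φ ∧ InvH H φ ∧
      (∀ u b : m, Flag Q u b → al P h0 φ u b = al P h0 v u b) ∧
      (∀ u b : m, Flag Q u b → al' P h0 φ u b = al' P h0 v u b) ∧
      (∀ p ∈ S, 0 < T3F Q P φ p.1 p.2) ∧
      (∀ u b : m, Flag Q u b → c u = 1 → al P h0 v u b = 0 →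
        T3F Q P φ u b = T3F Q P v u b - Wall.EE Q P v (Wall.EE Q P v nA) u ∧
          a2 Q P h0 φ u b = a2 Q P h0 v u b) ∧
      (∀ u b : m, Flag Q u b → c u = -1 → al P h0 v u b = 0 →
        T3F Q P φ u b = T3F Q P v u b - Wall.EE Q P v (Wall.EE Q P v nB) u ∧
          a2 Q P h0 φ u b = a2 Q P h0 v u b) := by
  have hcwall : ∀ u b : m, Flag Q u b → c u ^ 2 = 1 → Q (B u) b = 0 := by
    intro u b hF hcu
    have h1 := hC.cw u b hF
    rw [hcu] at h1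
    exact pow_eq_zero_iff (two_ne_zero) |>.1 (by linarith)
  have hE : ∀ {w n : m → ℝ}, ContDiffOn ℝ ∞ w {0}ᶜ → ContDiffOn ℝ ∞ n {0}ᶜ → ∀ u : m, u ≠ 0 →
      Wall.EE Q P w (Wall.EE Q P w n) u = E2 Q P w n u := fun hw hn u hu => Ev_Ev hN hw hn hu
  -- wall `A`
  obtain ⟨l, hl, hl0, -, hlS, hlw⟩ := wlay hN hC hG hW hv hvH hA hAH hAa (ς := 1) (by norm_num)
    hS hSF hSa hST hSA
  obtain ⟨φ1, hφ1⟩ : ∃ φ1 : m → ℝ, φ1 = fun z => v z + l (c z) * nA z := ⟨_, rfl⟩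
  obtain ⟨p1, p2⟩ := lcn_PhiN hN hC hG hv hvH hA hAH hl
  rw [← hφ1] at p1 p2
  have hal1 : ∀ u b : m, Flag Q u b → al P h0 φ1 u b = al P h0 v u b := fun u b hF => by
    rw [hφ1]; exact lcn_al hN hC hv.smooth hA.smooth hl hF (hAa u b hF)
  have hal1' : ∀ u b : m, Flag Q u b → al' P h0 φ1 u b = al' P h0 v u b := fun u b hF => by
    rw [hφ1]; exact lcn_al' hN hC hv.smooth hA.smooth hl hF (hAa u b hF) (hAa' u b hF)
  have hnear1 : ∀ u : m, u ≠ 0 → c u = -1 → φ1 =ᶠ[𝓝 u] v := by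
    intro u hu hcu
    filter_upwards [hA0 u hu hcu] with x hx
    rw [hφ1]; simp only; rw [hx, mul_zero, add_zero]
  rw [← hφ1] at hlS hlw
  have hEB : ∀ u b : m, Flag Q u b → c u = -1 →
      Wall.EE Q P φ1 (Wall.EE Q P φ1 nB) u = Wall.EE Q P v (Wall.EE Q P v nB) u := by
    intro u b hF hcu
    have hu := hF.ne hN
    rw [hE p1.smooth hB.smooth u hu, hE hv.smooth hB.smooth u hu]
    exact E2_congr hN (hnear1 u hu hcu)
  -- wall `B`
  obtain ⟨l', hl', hl'0, -, hlS', hlw'⟩ := wlay hN hC hG hW p1 p2 hB hBH hBa (ς := -1)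
    (by norm_num) hS hSF (fun p hp => by rw [hal1 _ _ (hSF p hp)]; exact hSa p hp) hlS
    (fun p hp hcp => by
      have hF := hSF p hp
      rw [hEB _ _ hF hcp, T3F_congr hN (hnear1 _ (hF.ne hN) hcp)]
      exact hSB p hp hcp)
  obtain ⟨φ2, hφ2⟩ : ∃ φ2 : m → ℝ, φ2 = fun z => φ1 z + l' (c z) * nB z := ⟨_, rfl⟩
  obtain ⟨q1, q2⟩ := lcn_PhiN hN hC hG p1 p2 hB hBH hl'
  rw [← hφ2] at q1 q2 hlS' hlw'
  have hnear2 : ∀ u : m, u ≠ 0 → c u = 1 → φ2 =ᶠ[𝓝 u] φ1 := by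
    intro u hu hcu
    filter_upwards [hB0 u hu hcu] with x hx
    rw [hφ2]; simp only; rw [hx, mul_zero, add_zero]
  refine ⟨φ2, q1, q2, fun u b hF => ?_, fun u b hF => ?_, hlS', fun u b hF hcu ha => ?_,
    fun u b hF hcu ha => ?_⟩
  · rw [hφ2, lcn_al hN hC p1.smooth hB.smooth hl' hF (hBa u b hF), hal1 u b hF]
  · rw [hφ2, lcn_al' hN hC p1.smooth hB.smooth hl' hF (hBa u b hF) (hBa' u b hF), hal1' u b hF]
  · have hu := hF.ne hN
    have hw := hcwall u b hF (by rw [hcu]; norm_num)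
    rw [T3F_congr hN (hnear2 u hu hcu), a2_congr hN (hnear2 u hu hcu), hlw u b hF hcu ha]
    refine ⟨rfl, ?_⟩
    rw [hφ1]
    exact lcn_a2 hN hC hW hv hA hl hF (by rw [hcu]; exact hl0) hw
  · have hu := hF.ne hN
    have hw := hcwall u b hF (by rw [hcu]; norm_num)
    rw [hlw' u b hF hcu (by rw [hal1 u b hF]; exact ha), hEB u b hF hcu,
      T3F_congr hN (hnear1 u hu hcu)]
    refine ⟨rfl, ?_⟩
    rw [hφ2, lcn_a2 hN hC hW p1 hB hl' hF (by rw [hcu]; exact hl'0) hw]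
    exact a2_congr hN (hnear1 u hu hcu)

end Pool.Agent.helper75.FL
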