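import Pool.Agent.FL.S2Glue
import Pool.Agent.FL.GE5
import Pool.Agent.FL.CasWSp
import Pool.Agent.FL.AB8
import Pool.Agent.FL.WI
import Pool.Agent.helper75.FL.WLayAB

/-!
# MP_f09395_gt, space (2): the final assembly, part a (transfer)
-/

set_option linter.unusedSectionVars false

noncomputable section

namespace Pool.Agent.FL.S2

open scoped ContDiff Quaternion Matrix
open Pool.Agent.Helper93.Fin Pool.Agent.helper79.FP Pool.Agent.helper79.FR
open Pool.Agent.helper79.FR.Sp2 (Mat QQ h0 m gg hh PP BB cc)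
open Pool.Agent.helper79.FR Pool.Agent.helper75.FL
open Filter Topology

attribute [local instance] Matrix.linftyOpNormedRing Matrix.linftyOpNormedAlgebra

theorem Q2_apply (X Y : Mat) : Q2 X Y = 2 * QQ X Y := rfl

theorem casW2 : Wall.CasW Q2 (BB 1 1) (cc 1 1) := by
  intro u b hF
  obtain ⟨s, hs⟩ : ∃ s : ℝ, s = Real.sqrt 2 := ⟨_, rfl⟩
  have hs2 : s * s = 2 := by rw [hs]; exact Real.mul_self_sqrt (by norm_num)
  have hs0 : s ≠ 0 := fun h => by rw [h] at hs2; norm_num at hs2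
  have hu := hF.ne nData2
  have hF' : Flag QQ (s • u) (s • b) := by
    obtain ⟨h1, h2, h3, h4⟩ := hF
    rw [Q2_apply] at h1 h2 h3
    refine ⟨?_, ?_, ?_, ?_⟩
    · rw [Submodule.coe_smul, map_smul, map_smul, LinearMap.smul_apply, smul_eq_mul, smul_eq_mul,
        ← mul_assoc, hs2]; exact h1
    · rw [Submodule.coe_smul, map_smul, map_smul, LinearMap.smul_apply, smul_eq_mul, smul_eq_mul,
        ← mul_assoc, hs2]; exact h2
    · rw [Submodule.coe_smul, Submodule.coe_smul, map_smul, map_smul, LinearMap.smul_apply,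
        smul_eq_mul, smul_eq_mul, ← mul_assoc, hs2]; exact h3
    · rw [Submodule.coe_smul, Submodule.coe_smul]
      simp only [Ring.lie_def] at h4 ⊢
      rw [smul_mul_smul_comm, smul_mul_smul_comm, ← smul_sub, h4, smul_zero]
  have h1 : QQ (fderiv ℝ (BB 1 1) (s • u) (s • b)) ((s • b : m 1 1) : Mat) =
      4 * cc 1 1 (s • u) := Wall.casW (a := 1) (b := 1) _ _ hF'
  have hC := cas2
  have hB : fderiv ℝ (BB 1 1) (s • u) = fderiv ℝ (BB 1 1) u := by
    have h2 : (fun z : m 1 1 => BB 1 1 (s • z)) = fun z => s • BB 1 1 z := by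
      funext z; exact hC.Bhom s z
    have hdu : DifferentiableAt ℝ (BB 1 1) u :=
      (hC.Bsm.differentiableOn (by simp)).differentiableAt (isOpen_compl_singleton.mem_nhds hu)
    have hdsu : DifferentiableAt ℝ (BB 1 1) (s • u) :=
      (hC.Bsm.differentiableOn (by simp)).differentiableAt
        (isOpen_compl_singleton.mem_nhds (smul_ne_zero hs0 hu))
    have h3 : HasFDerivAt (fun z : m 1 1 => BB 1 1 (s • z))
        ((fderiv ℝ (BB 1 1) (s • u)).comp (s • ContinuousLinearMap.id ℝ (m 1 1))) u :=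
      hdsu.hasFDerivAt.comp u ((hasFDerivAt_id u).const_smul s)
    have h4 : HasFDerivAt (fun z : m 1 1 => s • BB 1 1 z) (s • fderiv ℝ (BB 1 1) u) u :=
      hdu.hasFDerivAt.const_smul s
    rw [h2] at h3
    have h5 := h3.unique h4
    ext1 v
    have h6 := congrArg (fun L => L v) h5
    simp only [ContinuousLinearMap.comp_apply, FunLike.coe_smul, Pi.smul_apply,
      ContinuousLinearMap.id_apply, map_smul] at h6
    exact smul_right_injective _ hs0 h6
  rw [hB, hC.chom s u hs0, map_smul, map_smul, Submodule.coe_smul, map_smul,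
    LinearMap.smul_apply, smul_eq_mul, smul_eq_mul, ← mul_assoc, hs2] at h1
  rw [Q2_apply]
  exact h1

/-- functions of the class `WM` on `𝔪` -/
theorem WM.winv {n : R9 → ℝ} (hn : WM n) :
    WInv (hh 1 1) (Sp2.H 1 1) Q2 (PP 1 1) hU (toM n) := by
  refine ⟨(phiN_toM hn.phi).1, (phiN_toM hn.phi).2, fun u b hF => ?_⟩
  have h1 := (flag_iff' u b).1 hF
  have hu : iota.symm u ≠ 0 := by
    intro h0
    have := h1.uu
    rw [h0] at this
    simp [dot9] at this
  have h2 := al_toM hn.phi.smooth hu (iota.symm b)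
  rw [ContinuousLinearEquiv.apply_symm_apply, ContinuousLinearEquiv.apply_symm_apply] at h2
  rw [h2]
  exact hn.al _ _ h1

theorem EE_toM {v n : R9 → ℝ} (hv : PhiM v) (hn : PhiM n) {u : R9} (hu : u ≠ 0) :
    Wall.EE Q2 (PP 1 1) (toM v) (Wall.EE Q2 (PP 1 1) (toM v) (toM n)) (iota u) =
      ED v (ED v n) u := by
  rw [← E2_toM hv hn hu]
  exact Ev_Ev nData2 (phiN_toM hv).1.smooth (phiN_toM hn).1.smooth (iota_ne.2 hu)

theorem ef_toM {v : R9 → ℝ} (hv : PhiM v) {u : R9} (hu : u ≠ 0) :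
    Wall.ef Q2 (PP 1 1) (toM v) (iota u) = iota (eM v u) := by
  have h1 := PP_br u (grad9 v u)
  unfold Wall.ef eM
  rw [gx_toM hv.smooth hu]
  exact h1

theorem D12_aux {f : m 1 1 → ℝ} {u X1 X2 X3 Y1 Y2 Y3 : m 1 1} (h1 : X1 = Y1) (h2 : X2 = Y2)
    (h3 : X3 = Y3) : D2 f u X1 X2 + D1 f u X3 = D2 f u Y1 Y2 + D1 f u Y3 := by
  rw [h1, h2, h3]

theorem a2_toM {v : R9 → ℝ} (hv : PhiM v) {u : R9} (hu : u ≠ 0) (b : R9) :
    Wall.a2 Q2 (PP 1 1) hU (toM v) (iota u) (iota b) = a2M v u b := by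
  have hvs := (phiN_toM hv).1.smooth
  have e1 := PP_hU b
  have e2 := ef_toM hv hu
  have e3 : PP 1 1 ⁅hU, ⁅((iota b : m 1 1) : Mat), ((iota (grad9 v u) : m 1 1) : Mat)⁆⁆ =
      iota (rot (br b (grad9 v u))) := by
    have h1 : ⁅hU, ⁅((iota b : m 1 1) : Mat), ((iota (grad9 v u) : m 1 1) : Mat)⁆⁆ =
        ⁅hU, ((iota (br b (grad9 v u)) : m 1 1) : Mat)⁆ := by
      rw [iota_br]
      simp only [Ring.lie_def, mul_add, add_mul, mul_smul_comm, smul_mul_assoc]
      abel
    rw [h1]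
    exact PP_hU _
  have e4 : D2 (toM v) (iota u) (iota (rot b)) (iota (eM v u)) =
      fderiv ℝ (fun y => fderiv ℝ v y (rot b)) u (eM v u) := by
    rw [D2_symm hvs (iota_ne.2 hu), D2_toM hv.smooth hu]
  have e5 := D1_toM hv.smooth hu (rot (br b (grad9 v u)))
  unfold Wall.a2 a2M
  rw [gx_toM hv.smooth hu]
  exact (D12_aux e1 e2 e3).trans (by rw [e4, e5])

end Pool.Agent.FL.S2
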