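import Pool.Agent.FL.S2Glue
import Pool.Agent.FL.GE5
import Pool.Agent.FL.QU0

/-!
# MP_f09395_gt, space (2): the compact set of exceptional flags
-/

set_option linter.unusedSectionVars false

noncomputable section

namespace Pool.Agent.FL.S2

open scoped ContDiff Quaternion Matrix
open Pool.Agent.Helper93.Fin Pool.Agent.helper79.FP Pool.Agent.helper79.FR
open Pool.Agent.helper79.FR.Sp2 (Mat QQ h0 m gg hh PP BB cc)
open Pool.Agent.helper79.FR
open Filter Topology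

attribute [local instance] Matrix.linftyOpNormedRing Matrix.linftyOpNormedAlgebra

theorem frame_of_two {f g : R3} (h1 : f ⬝ᵥ f = 1) (h2 : g ⬝ᵥ g = 1) (h3 : f ⬝ᵥ g = 0) :
    Frame3 f g (f ⨯₃ g) where
  n1 := h1
  n2 := h2
  n3 := by rw [cross_dot_cross, h1, h2, h3]; ring
  o12 := h3
  o13 := dot_self_cross f g
  o23 := dot_cross_self f g
  c12 := rfl
  c23 := by rw [cross_cross_eq_smul_sub_smul', h2, h3, zero_smul, sub_zero, one_smul]
  c31 := by rw [cross_cross_eq_smul_sub_smul, h1, dotProduct_comm g f, h3, zero_smul, sub_zero,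
    one_smul]

theorem sym_dot {S : Matrix (Fin 3) (Fin 3) ℝ} (hS : Sᵀ = S) (f g : R3) :
    f ⬝ᵥ S *ᵥ g = g ⬝ᵥ S *ᵥ f := by
  rw [Matrix.dotProduct_mulVec, ← Matrix.mulVec_transpose, hS, dotProduct_comm]

/-- umbilic directions in terms of a frame -/
theorem umb2_iff {S : Matrix (Fin 3) (Fin 3) ℝ} (hS : Sᵀ = S) {f1 f2 f3 : R3}
    (hf : Frame3 f1 f2 f3) :
    Umb2 S f3 ↔ f1 ⬝ᵥ S *ᵥ f2 = 0 ∧ f1 ⬝ᵥ S *ᵥ f1 = f2 ⬝ᵥ S *ᵥ f2 := by
  have hsym : f2 ⬝ᵥ S *ᵥ f1 = f1 ⬝ᵥ S *ᵥ f2 := sym_dot hS f2 f1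
  constructor
  · rintro ⟨l, hl⟩
    refine ⟨?_, ?_⟩
    · rw [hl f1 f2 hf.o13 hf.o23, hf.o12, mul_zero]
    · rw [hl f1 f1 hf.o13 hf.o13, hl f2 f2 hf.o23 hf.o23, hf.n1, hf.n2]
  · rintro ⟨h1, h2⟩
    refine ⟨f1 ⬝ᵥ S *ᵥ f1, fun g h hg hh => ?_⟩
    have e1 := hf.expand3 g
    have e2 := hf.expand3 h
    rw [hg, zero_smul, add_zero] at e1
    rw [hh, zero_smul, add_zero] at e2
    obtain ⟨α, hα⟩ : ∃ α, α = g ⬝ᵥ f1 := ⟨_, rfl⟩
    obtain ⟨β, hβ⟩ : ∃ β, β = g ⬝ᵥ f2 := ⟨_, rfl⟩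
    obtain ⟨α', hα'⟩ : ∃ α, α = h ⬝ᵥ f1 := ⟨_, rfl⟩
    obtain ⟨β', hβ'⟩ : ∃ β, β = h ⬝ᵥ f2 := ⟨_, rfl⟩
    rw [← hα, ← hβ] at e1
    rw [← hα', ← hβ'] at e2
    have n1 := hf.n1; have n2 := hf.n2; have o12 := hf.o12
    have o21 : f2 ⬝ᵥ f1 = 0 := by rw [dotProduct_comm]; exact o12
    rw [e1, e2]
    simp only [Matrix.mulVec_add, Matrix.mulVec_smul, dotProduct_add, add_dotProduct,
      smul_dotProduct, dotProduct_smul, smul_eq_mul, hsym, h1, ← h2, n1, n2, o12, o21]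
    ring

/-! ### the parametrised flags -/

/-- parameters of the first family: `n`, `(co, si)`, `(ct, st)`, `e` -/
abbrev Pb0 : Type := R3 × (ℝ × ℝ) × (ℝ × ℝ) × ℝ

/-- parameters of the second family: `(f1, f2)`, `(co, si)`, `(ct, st)` -/
abbrev Pu0 : Type := (R3 × R3) × (ℝ × ℝ) × (ℝ × ℝ)

def K0b : Set Pb0 := {q | q.1 ⬝ᵥ q.1 = 1 ∧ q.2.1.1 ^ 2 + q.2.1.2 ^ 2 = 1 ∧
  q.2.2.1.1 ^ 2 + q.2.2.1.2 ^ 2 = 1 ∧ q.2.2.2 ^ 2 = 1}

def K0u (S : Matrix (Fin 3) (Fin 3) ℝ) : Set Pu0 := {q | q.1.1 ⬝ᵥ q.1.1 = 1 ∧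
  q.1.2 ⬝ᵥ q.1.2 = 1 ∧ q.1.1 ⬝ᵥ q.1.2 = 0 ∧ q.2.1.1 ^ 2 + q.2.1.2 ^ 2 = 1 ∧
  q.2.2.1 ^ 2 + q.2.2.2 ^ 2 = 1 ∧ q.1.1 ⬝ᵥ S *ᵥ q.1.2 = 0 ∧
  q.1.1 ⬝ᵥ S *ᵥ q.1.1 = q.1.2 ⬝ᵥ S *ᵥ q.1.2}

def F0b (q : Pb0) : R9 × R9 :=
  ((q.2.1.1 • q.1, (q.2.1.2 * q.2.2.1.1) • q.1, (q.2.1.2 * q.2.2.1.2) • q.1),
    ((-(q.2.2.2 * q.2.1.2)) • q.1, (q.2.2.2 * q.2.1.1 * q.2.2.1.1) • q.1,
      (q.2.2.2 * q.2.1.1 * q.2.2.1.2) • q.1))

def F0u (q : Pu0) : R9 × R9 :=
  ((0, (q.2.2.1 * q.2.1.1) • q.1.1 - (q.2.2.2 * q.2.1.2) • q.1.2,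
      (q.2.2.2 * q.2.1.1) • q.1.1 + (q.2.2.1 * q.2.1.2) • q.1.2),
    (0, (-(q.2.2.1 * q.2.1.2)) • q.1.1 - (q.2.2.2 * q.2.1.1) • q.1.2,
      (-(q.2.2.2 * q.2.1.2)) • q.1.1 + (q.2.2.1 * q.2.1.1) • q.1.2))

theorem cont_F0b : Continuous F0b := by unfold F0b; fun_prop

theorem cont_F0u : Continuous F0u := by unfold F0u; fun_prop

theorem abs_le_of_dot {v : R3} {r : ℝ} (h : v ⬝ᵥ v = r) (hr : r ≤ 1) (i : Fin 3) : |v i| ≤ 1 := by
  rw [dot3] at h
  have h0 := mul_self_nonneg (v 0)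
  have h1 := mul_self_nonneg (v 1)
  have h2 := mul_self_nonneg (v 2)
  refine abs_le_one_iff_mul_self_le_one.2 ?_
  fin_cases i
  · show v 0 * v 0 ≤ 1; linarith
  · show v 1 * v 1 ≤ 1; linarith
  · show v 2 * v 2 ≤ 1; linarith

theorem norm_le_of_dot {v : R3} (h : v ⬝ᵥ v = 1) : ‖v‖ ≤ 1 :=
  (pi_norm_le_iff_of_nonneg zero_le_one).2 fun i => by
    rw [Real.norm_eq_abs]; exact abs_le_of_dot h le_rfl i

theorem abs_le_of_circ {x y : ℝ} (h : x ^ 2 + y ^ 2 = 1) : |x| ≤ 1 ∧ |y| ≤ 1 :=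
  ⟨abs_le_one_iff_mul_self_le_one.2 (by nlinarith [sq_nonneg y]),
    abs_le_one_iff_mul_self_le_one.2 (by nlinarith [sq_nonneg x])⟩

theorem cont_dot {X : Type*} [TopologicalSpace X] {f g : X → R3} (hf : Continuous f)
    (hg : Continuous g) : Continuous fun x => f x ⬝ᵥ g x := by
  have e : (fun x => f x ⬝ᵥ g x) = fun x => f x 0 * g x 0 + f x 1 * g x 1 + f x 2 * g x 2 := by
    funext x; rw [dot3]
  rw [e]
  fun_prop

theorem cont_mulVec {X : Type*} [TopologicalSpace X] {f : X → R3} (S : Matrix (Fin 3) (Fin 3) ℝ)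
    (hf : Continuous f) : Continuous fun x => S *ᵥ f x := by
  refine continuous_pi fun i => ?_
  have e : (fun x => (S *ᵥ f x) i) = fun x => S i 0 * f x 0 + S i 1 * f x 1 + S i 2 * f x 2 := by
    funext x
    simp [Matrix.mulVec, dotProduct, Fin.sum_univ_three]
  rw [e]
  fun_prop

theorem isCompact_K0b : IsCompact K0b := by
  refine (isCompact_closedBall (0 : Pb0) 1).of_isClosed_subset ?_ ?_
  · unfold K0b
    exact (isClosed_eq (cont_dot (by fun_prop) (by fun_prop)) continuous_const).and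
      ((isClosed_eq (by fun_prop) continuous_const).and
      ((isClosed_eq (by fun_prop) continuous_const).and
      (isClosed_eq (by fun_prop) continuous_const)))
  · rintro ⟨n, ⟨co, si⟩, ⟨ct, st⟩, e⟩ ⟨h1, h2, h3, h4⟩
    rw [mem_closedBall_zero_iff]
    simp only at h1 h2 h3 h4
    have a2 := abs_le_of_circ h2
    have a3 := abs_le_of_circ h3
    have a4 : |e| ≤ 1 := abs_le_one_iff_mul_self_le_one.2 (by nlinarith)
    simp only [Prod.norm_mk, Real.norm_eq_abs]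
    exact max_le (norm_le_of_dot h1) (max_le (max_le a2.1 a2.2)
      (max_le (max_le a3.1 a3.2) a4))

theorem isCompact_K0u (S : Matrix (Fin 3) (Fin 3) ℝ) : IsCompact (K0u S) := by
  refine (isCompact_closedBall (0 : Pu0) 1).of_isClosed_subset ?_ ?_
  · unfold K0u
    exact (isClosed_eq (cont_dot (by fun_prop) (by fun_prop)) continuous_const).and
      ((isClosed_eq (cont_dot (by fun_prop) (by fun_prop)) continuous_const).and
      ((isClosed_eq (cont_dot (by fun_prop) (by fun_prop)) continuous_const).and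
      ((isClosed_eq (by fun_prop) continuous_const).and
      ((isClosed_eq (by fun_prop) continuous_const).and
      ((isClosed_eq (cont_dot (by fun_prop) (cont_mulVec S (by fun_prop)))
        continuous_const).and
      (isClosed_eq (cont_dot (by fun_prop) (cont_mulVec S (by fun_prop)))
        (cont_dot (by fun_prop) (cont_mulVec S (by fun_prop)))))))))
  · rintro ⟨⟨f, g⟩, ⟨co, si⟩, ⟨ct, st⟩⟩ ⟨h1, h2, -, h4, h5, -⟩
    rw [mem_closedBall_zero_iff]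
    simp only at h1 h2 h4 h5
    have a2 := abs_le_of_circ h4
    have a3 := abs_le_of_circ h5
    simp only [Prod.norm_mk, Real.norm_eq_abs]
    exact max_le (max_le (norm_le_of_dot h1) (norm_le_of_dot h2))
      (max_le (max_le a2.1 a2.2) (max_le a3.1 a3.2))

/-- **the compact set of exceptional flags** -/
def TS (p : Par) : Set (R9 × R9) := F0b '' K0b ∪ F0u '' K0u p.S

theorem isCompact_TS (p : Par) : IsCompact (TS p) :=
  (isCompact_K0b.image cont_F0b).union ((isCompact_K0u p.S).image cont_F0u)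

theorem F0b_Flg {q : Pb0} (hq : q ∈ K0b) : Flg (F0b q).1 (F0b q).2 := by
  obtain ⟨n, ⟨co, si⟩, ⟨ct, st⟩, e⟩ := q
  obtain ⟨h1, h2, h3, h4⟩ := hq
  simp only at h1 h2 h3 h4
  constructor
  · simp only [F0b, dot9, smul_dotProduct, dotProduct_smul, smul_eq_mul, h1]
    linear_combination h2 + si ^ 2 * h3
  · simp only [F0b, dot9, smul_dotProduct, dotProduct_smul, smul_eq_mul, h1]
    linear_combination e ^ 2 * h2 + e ^ 2 * co ^ 2 * h3 + h4
  · simp only [F0b, dot9, smul_dotProduct, dotProduct_smul, smul_eq_mul, h1]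
    linear_combination (e * co * si) * h3
  · simp only [F0b, br, map_smul, LinearMap.smul_apply, cross_self, smul_zero, add_zero, sub_zero]
    rfl
  · simp only [F0b, brh, smul_dotProduct, dotProduct_smul, smul_eq_mul, h1]
    ring

theorem F0u_Flg {S : Matrix (Fin 3) (Fin 3) ℝ} {q : Pu0} (hq : q ∈ K0u S) :
    Flg (F0u q).1 (F0u q).2 := by
  obtain ⟨⟨f, g⟩, ⟨co, si⟩, ⟨ct, st⟩⟩ := q
  obtain ⟨h1, h2, h3, h4, h5, -, -⟩ := hq
  simp only at h1 h2 h3 h4 h5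
  have h3' : g ⬝ᵥ f = 0 := by rw [dotProduct_comm]; exact h3
  constructor
  · simp only [F0u, dot9, smul_dotProduct, dotProduct_smul, smul_eq_mul, h1, h2, h3, h3',
      dotProduct_zero, dotProduct_add, dotProduct_sub, add_dotProduct, sub_dotProduct]
    linear_combination h4 + (co ^ 2 + si ^ 2) * h5
  · simp only [F0u, dot9, smul_dotProduct, dotProduct_smul, smul_eq_mul, h1, h2, h3, h3',
      dotProduct_zero, dotProduct_add, dotProduct_sub, add_dotProduct, sub_dotProduct]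
    linear_combination h4 + (co ^ 2 + si ^ 2) * h5
  · simp only [F0u, dot9, smul_dotProduct, dotProduct_smul, smul_eq_mul, h1, h2, h3, h3',
      dotProduct_zero, dotProduct_add, dotProduct_sub, add_dotProduct, sub_dotProduct]
    ring
  · have hgf : g ⨯₃ f = -(f ⨯₃ g) := by rw [cross_anticomm]
    simp only [F0u, br, map_smul, map_add, map_sub, map_zero, LinearMap.smul_apply,
      LinearMap.add_apply, LinearMap.sub_apply, LinearMap.zero_apply, cross_self, smul_zero, hgf]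
    refine Prod.ext ?_ (Prod.ext ?_ ?_)
    · simp only [Prod.fst_zero]
      module
    · simp
    · simp
  · simp only [F0u, brh, smul_dotProduct, dotProduct_smul, smul_eq_mul, h1, h2, h3, h3',
      dotProduct_add, dotProduct_sub, add_dotProduct, sub_dotProduct]
    ring

theorem TS_Flg {p : Par} {k : R9 × R9} (hk : k ∈ TS p) : Flg k.1 k.2 := by
  rcases hk with ⟨q, hq, rfl⟩ | ⟨q, hq, rfl⟩
  · exact F0b_Flg hq
  · exact F0u_Flg hq

theorem TS_al {p : Par} (hS : p.Sᵀ = p.S) {k : R9 × R9} (hk : k ∈ TS p) :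
    alM (v0 p) k.1 k.2 = 0 := by
  rw [GE5_al_v0 p hS (TS_Flg hk)]
  rcases hk with ⟨⟨n, ⟨co, si⟩, ⟨ct, st⟩, e⟩, hq, rfl⟩ | ⟨⟨⟨f, g⟩, ⟨co, si⟩, ⟨ct, st⟩⟩, hq, rfl⟩
  · simp only [F0b, map_smul, LinearMap.smul_apply, cross_self, smul_zero, dotProduct_zero,
      Matrix.mulVec_smul, smul_dotProduct, dotProduct_smul, smul_eq_mul]
    ring
  · obtain ⟨h1, h2, h3, h4, h5, h6, h7⟩ := hq
    simp only at h1 h2 h3 h4 h5 h6 h7
    have h6' : g ⬝ᵥ p.S *ᵥ f = 0 := by rw [sym_dot hS]; exact h6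
    simp only [F0u, map_zero, dotProduct_zero,
      Matrix.mulVec_smul, Matrix.mulVec_add, Matrix.mulVec_sub, smul_dotProduct, dotProduct_smul,
      smul_eq_mul, dotProduct_add, dotProduct_sub, add_dotProduct, sub_dotProduct, h6, h6', h7]
    ring

/-- the value of `c` and of `|a|²` on the exceptional flags -/
theorem TS_cM {p : Par} {k : R9 × R9} (hk : k ∈ TS p) :
    aa k.1 = 0 ∨ cM k.1 = 1 - 8 * (aa k.1 * (1 - aa k.1)) := by
  have hF := TS_Flg hk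
  rcases hk with ⟨⟨n, ⟨co, si⟩, ⟨ct, st⟩, e⟩, hq, rfl⟩ | ⟨⟨⟨f, g⟩, ⟨co, si⟩, ⟨ct, st⟩⟩, hq, rfl⟩
  · right
    obtain ⟨h1, h2, h3, h4⟩ := hq
    simp only at h1 h2 h3 h4
    have huu := hF.uu
    unfold cM
    rw [huu]
    simp only [F0b, psi4, aa, map_smul, LinearMap.smul_apply, cross_self, smul_zero,
      dotProduct_zero, smul_dotProduct, dotProduct_smul, smul_eq_mul, h1]
    linear_combination (-8 * co ^ 2 * si ^ 2) * h3 - (8 * co ^ 2) * h2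
  · left
    simp only [F0u, aa, dotProduct_zero]

end Pool.Agent.FL.S2
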