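import Pool.Agent.helper75.FL.F2b
import Pool.Agent.helper75.FL.F2a
import Pool.Agent.FL.T3Inv

/-!
# MP_f09395_gt, space (2): positivity on the exceptional flags, regular exceptional flags
-/

set_option linter.unusedSectionVars false

noncomputable section

namespace Pool.Agent.FL.S2

open scoped ContDiff Quaternion Matrix
open Pool.Agent.Helper93.Fin Pool.Agent.helper79.FP Pool.Agent.helper79.FR
open Pool.Agent.helper79.FR.Sp2 (Mat QQ h0 m gg hh PP BB cc)
open Pool.Agent.helper79.FR Pool.Agent.helper75.FL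
open Filter Topology

attribute [local instance] Matrix.linftyOpNormedRing Matrix.linftyOpNormedAlgebra

/-- invariance of the third order form under the isotropy rotations -/
theorem T3C_rotH75 {v : R9 → ℝ} (hv : PhiM v) (t : ℝ) {u : R9} (hu : u ≠ 0) (b : R9) :
    T3C v (rotH t u) (rotH t b) = T3C v u b := by
  obtain ⟨k, hk, hA⟩ := Adj_iota' t
  have h1 := T3Inv_T3F nData2 cas2 grpD2 (phiN_toM hv).1.smooth (phiN_toM hv).2 hk (iota_ne.2 hu)
    (iota b)
  have h2 : ∀ w : R9, adM (PP 1 1) k (iota w) = iota (rotH t w) := fun w => by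
    apply Subtype.ext
    exact (adM_coe nData2 grpD2 hk (iota w)).trans (hA w)
  unfold T3C
  rw [← h1]
  exact congrArg₂ _ (h2 u).symm (h2 b).symm

theorem TS_pos {p : Par} (hp : ParOK p) {k : R9 × R9} (hk : k ∈ TS p) :
    0 < T3C (v0 p) k.1 k.2 := by
  have hv := GE5_v0 p
  rcases hk with ⟨⟨n, ⟨co, si⟩, ⟨ct, st⟩, e⟩, hq, rfl⟩ | ⟨⟨⟨f, g⟩, ⟨co, si⟩, ⟨ct, st⟩⟩, hq, rfl⟩
  · have hF := F0b_Flg hq
    obtain ⟨h1, h2, h3, h4⟩ := hq
    simp only at h1 h2 h3 h4
    obtain ⟨τ, hτ1, hτ2⟩ := exists_angle h2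
    obtain ⟨t, ht1, ht2⟩ := exists_angle h3
    have key := hp.q1 t τ n h1
    have hune : (Real.cos τ • n, Real.sin τ • n, (0 : R3)) ≠ (0 : R9) := by
      intro h0
      simp only [Prod.mk_eq_zero] at h0
      have k1 := congrArg (fun v => v ⬝ᵥ n) h0.1
      have k2 := congrArg (fun v => v ⬝ᵥ n) h0.2.1
      simp only [smul_dotProduct, h1, zero_dotProduct, smul_eq_mul, mul_one] at k1 k2
      rw [hτ1] at k1
      rw [hτ2] at k2
      rw [k1, k2] at h2
      norm_num at h2
    rw [← T3C_rotH75 hv t hune] at key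
    have e1 : rotH t (Real.cos τ • n, Real.sin τ • n, (0 : R3)) =
        (F0b (n, (co, si), (ct, st), e)).1 := by
      simp only [rotH, F0b, ht1, ht2, hτ1, hτ2, smul_zero, sub_zero, add_zero, smul_smul]
      rw [mul_comm ct si, mul_comm st si]
    have e2 : rotH t (-(Real.sin τ) • n, Real.cos τ • n, (0 : R3)) =
        (-(si) • n, (co * ct) • n, (co * st) • n) := by
      simp only [rotH, ht1, ht2, hτ1, hτ2, smul_zero, sub_zero, add_zero, smul_smul]
      rw [mul_comm ct co, mul_comm st co]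
    rw [e1, e2] at key
    have he : e = 1 ∨ e = -1 := by
      rcases mul_eq_zero.1 (show (e - 1) * (e + 1) = 0 by linear_combination h4) with h | h
      exacts [Or.inl (by linarith), Or.inr (by linarith)]
    rcases he with rfl | rfl
    · have e3 : (F0b (n, (co, si), (ct, st), (1 : ℝ))).2 =
          (-(si) • n, (co * ct) • n, (co * st) • n) := by
        simp only [F0b, one_mul]
      rw [e3]; exact key
    · have e3 : (F0b (n, (co, si), (ct, st), (-1 : ℝ))).2 =
          -(-(si) • n, (co * ct) • n, (co * st) • n) := by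
        simp only [F0b, Prod.neg_mk]
        refine Prod.ext ?_ (Prod.ext ?_ ?_) <;> simp only <;> module
      rw [e3]
      unfold T3C at key ⊢
      rw [map_neg, T3F_neg nData2 (phiN_toM hv).1.smooth (iota_ne.2 hF.ne)]
      exact key
  · have hS := hp.S
    have hF := F0u_Flg hq
    obtain ⟨h1, h2, h3, h4, h5, h6, h7⟩ := hq
    simp only at h1 h2 h3 h4 h5 h6 h7
    obtain ⟨τ, hτ1, hτ2⟩ := exists_angle h4
    obtain ⟨t, ht1, ht2⟩ := exists_angle h5
    have hf := frame_of_two h1 h2 h3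
    have key := hp.q2 τ f g h1 h2 h3 ((umb2_iff hS hf).2 ⟨h6, h7⟩)
    have hune : ((0 : R3), Real.cos τ • f, Real.sin τ • g) ≠ (0 : R9) := by
      intro h0
      simp only [Prod.mk_eq_zero] at h0
      have k1 := congrArg (fun v => v ⬝ᵥ f) h0.2.1
      have k2 := congrArg (fun v => v ⬝ᵥ g) h0.2.2
      simp only [smul_dotProduct, h1, h2, zero_dotProduct, smul_eq_mul, mul_one] at k1 k2
      rw [hτ1] at k1
      rw [hτ2] at k2
      rw [k1, k2] at h4
      norm_num at h4
    rw [← T3C_rotH75 hv t hune] at key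
    have e1 : rotH t ((0 : R3), Real.cos τ • f, Real.sin τ • g) =
        (F0u ((f, g), (co, si), (ct, st))).1 := by
      simp only [rotH, F0u, ht1, ht2, hτ1, hτ2, smul_smul]
    have e2 : rotH t ((0 : R3), -(Real.sin τ) • f, Real.cos τ • g) =
        (F0u ((f, g), (co, si), (ct, st))).2 := by
      simp only [rotH, F0u, ht1, ht2, hτ1, hτ2, smul_smul, mul_neg]
    rw [e1, e2] at key
    exact key

/-- regular flags over the exceptional set -/
theorem regular_TS {p : Par} (hS : p.Sᵀ = p.S) {u b : R9} (hF : Flg u b) (hT : T0p p u)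
    (h1 : cM u ≠ 1) (h2 : cM u ≠ -1) : (u, b) ∈ TS p := by
  obtain ⟨a, x, y⟩ := u
  obtain ⟨a', x', y'⟩ := b
  have huu := hF.uu
  have hbb := hF.bb
  have hub := hF.ub
  have hbr := hF.br
  have hbrh := hF.brh
  simp only [dot9] at huu hbb hub
  simp only [br, Prod.mk_eq_zero] at hbr
  simp only [brh] at hbrh
  obtain ⟨C1, C2, C3⟩ := hbr
  have C2' := sub_eq_zero.1 C2
  have C3' := sub_eq_zero.1 C3
  have C4 := sub_eq_zero.1 hbrh
  have hcM : cM (a, x, y) = 1 - 8 * psi4 (a, x, y) := by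
    unfold cM
    rw [hF.uu]; ring
  by_cases hxy : x ⨯₃ y = 0
  · -- all parallel
    have hpar : a ⨯₃ x = 0 ∧ a ⨯₃ y = 0 := by
      rcases hT with ⟨k1, k2, -⟩ | ⟨-, k2, -⟩
      · exact ⟨k1, k2⟩
      · exact absurd hxy k2
    have hψ : psi4 (a, x, y) = (a ⬝ᵥ a) * (1 - a ⬝ᵥ a) := by
      have k1 : (a ⬝ᵥ x) ^ 2 = (a ⬝ᵥ a) * (x ⬝ᵥ x) := by
        have k := cross_dot_cross a x a x
        rw [hpar.1, zero_dotProduct, dotProduct_comm x a] at k
        linear_combination k
      have k2 : (a ⬝ᵥ y) ^ 2 = (a ⬝ᵥ a) * (y ⬝ᵥ y) := by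
        have k := cross_dot_cross a y a y
        rw [hpar.2, zero_dotProduct, dotProduct_comm y a] at k
        linear_combination k
      simp only [psi4, hxy, zero_dotProduct, k1, k2]
      linear_combination (a ⬝ᵥ a) * huu
    rw [hcM, hψ] at h1 h2
    left
    obtain ⟨n, co, si, ct, st, e, q1, q2, q3, q4, r1, r2, r3, r4, r5, r6⟩ :=
      B0_flag hpar.1 hpar.2 C1 C2' C3' C4 huu hbb hub (fun h => h1 (by rw [h]; ring))
        (fun h => h1 (by rw [h]; ring)) (fun h => h2 (by rw [h]; ring))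
    refine ⟨(n, (co, si), (ct, st), e), ⟨q1, q2, q3, ?_⟩, ?_⟩
    · simp only
      rcases q4 with rfl | rfl <;> norm_num
    · simp only [F0b]
      rw [r1, r2, r3, r4, r5, r6]
  · -- umbilic
    have hU : a = 0 ∧ Umb2 p.S (x ⨯₃ y) := by
      rcases hT with ⟨-, -, k3⟩ | ⟨k1, -, k3⟩
      · exact absurd k3 hxy
      · exact ⟨k1, k3⟩
    obtain ⟨rfl, hU⟩ := hU
    right
    obtain ⟨f1, f2, f3, co, si, ct, st, hf, q1, q2, q3, r1, r2, r3, r4, r5⟩ :=
      U0_flag (a' := a') hxy (by simpa using C1) (by simpa using C2'.symm) (by simpa using C3'.symm) C4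
        (by simpa using huu) hbb (by simpa using hub)
    have hcs : co * si ≠ 0 := fun h0 => hxy (by rw [q3, h0, zero_smul])
    have hU3 : Umb2 p.S f3 := by
      obtain ⟨l, hl⟩ := hU
      refine ⟨l, fun g h hg hh => hl g h ?_ ?_⟩
      · rw [q3, dotProduct_smul, hg, smul_zero]
      · rw [q3, dotProduct_smul, hh, smul_zero]
    obtain ⟨s1, s2⟩ := (umb2_iff hS hf).1 hU3
    refine ⟨((f1, f2), (co, si), (ct, st)), ⟨hf.n1, hf.n2, hf.o12, q1, q2, s1, s2⟩, ?_⟩
    simp only [F0u]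
    rw [r1, r2, r3, r4, r5]

end Pool.Agent.FL.S2
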