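import Pool.Agent.helper75.FL.F2c

/-!
# MP_f09395_gt, space (2): auxiliary results for the final assembly
-/

set_option linter.unusedSectionVars false

noncomputable section

namespace Pool.Agent.FL.S2

open scoped ContDiff Quaternion Matrix
open Pool.Agent.Helper93.Fin Pool.Agent.helper79.FP Pool.Agent.helper79.FR
open Pool.Agent.helper79.FR.Sp2 (Mat QQ h0 m gg hh PP BB cc)
open Pool.Agent.helper79.FR Pool.Agent.helper75.FL
open Filter Topology

attribute [local instance] Matrix.linftyOpNormedRing Matrix.linftyOpNormedAlgebra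

/-! ### `PhiM` and `WM` -/

theorem PhiM.add {f k : R9 → ℝ} (hf : PhiM f) (hk : PhiM k) : PhiM fun u => f u + k u :=
  ⟨hf.smooth.add hk.smooth, fun r u => by rw [hf.hom, hk.hom]; ring,
    fun t u => by rw [hf.inv, hk.inv]⟩

theorem toM_add (f k : R9 → ℝ) : toM (fun u => f u + k u) = fun z => toM f z + toM k z := rfl

theorem eventuallyEq_toM {f k : R9 → ℝ} {u : R9} (h : f =ᶠ[𝓝 u] k) :
    toM f =ᶠ[𝓝 (iota u : m 1 1)] toM k := by
  have h1 : Tendsto (fun z : m 1 1 => iota.symm z) (𝓝 (iota u)) (𝓝 u) := by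
    have h2 := (iota.symm.continuous).tendsto (iota u : m 1 1)
    rwa [ContinuousLinearEquiv.symm_apply_apply] at h2
  exact h1.eventually h

/-! ### `α' = 0` for `v₀` -/

/-- the polar form of the quadratic part -/
def Bq (p : Par) (u v : R9) : ℝ :=
  1 / 2 * (u.1 ⬝ᵥ p.R *ᵥ v.1 + v.1 ⬝ᵥ p.R *ᵥ u.1) +
    1 / 2 * (u.2.1 ⬝ᵥ p.S *ᵥ v.2.1 + v.2.1 ⬝ᵥ p.S *ᵥ u.2.1 +
      (u.2.2 ⬝ᵥ p.S *ᵥ v.2.2 + v.2.2 ⬝ᵥ p.S *ᵥ u.2.2)) +
    p.ν ⬝ᵥ (u.2.1 ⨯₃ v.2.2 + v.2.1 ⨯₃ u.2.2)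

theorem vq_line (p : Par) (u z : R9) (t : ℝ) :
    vq p (u + t • z) = vq p u + t * Bq p u z + t ^ 2 * vq p z := by
  unfold vq Bq
  simp only [Prod.fst_add, Prod.snd_add, Prod.smul_fst, Prod.smul_snd, Matrix.mulVec_add,
    Matrix.mulVec_smul, dotProduct_add, add_dotProduct, smul_dotProduct, dotProduct_smul,
    smul_eq_mul, map_add, map_smul, LinearMap.add_apply, LinearMap.smul_apply]
  ring

theorem Bq_line (p : Par) (u b z : R9) (t : ℝ) :
    Bq p (u + t • b) z = Bq p u z + t * Bq p b z := by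
  unfold Bq
  simp only [Prod.fst_add, Prod.snd_add, Prod.smul_fst, Prod.smul_snd, Matrix.mulVec_add,
    Matrix.mulVec_smul, dotProduct_add, add_dotProduct, smul_dotProduct, dotProduct_smul,
    smul_eq_mul, map_add, map_smul, LinearMap.add_apply, LinearMap.smul_apply]
  ring

theorem fderiv_line75 {f : R9 → ℝ} {u z : R9} (hf : DifferentiableAt ℝ f u) {d : ℝ}
    (h : HasDerivAt (fun t : ℝ => f (u + t • z)) d 0) : fderiv ℝ f u z = d := by
  have h1 := hf.lineDeriv_eq_fderiv (v := z)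
  rw [← h1]
  exact h.deriv

theorem fderiv_vq75 (p : Par) {u : R9} (hu : u ≠ 0) (z : R9) : fderiv ℝ (vq p) u z = Bq p u z := by
  refine fderiv_line75 (dAt (GE5_vq p).smooth hu) ?_
  simp only [vq_line]
  have h1 : HasDerivAt (fun t : ℝ => vq p u + t * Bq p u z + t ^ 2 * vq p z)
      (0 + 1 * Bq p u z + (2 * 0 ^ 1 * 1) * vq p z) 0 := by
    refine HasDerivAt.add (HasDerivAt.add (hasDerivAt_const _ _) ?_) ?_
    · exact (hasDerivAt_id (0 : ℝ)).mul_const _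
    · exact ((hasDerivAt_id (0 : ℝ)).pow 2).mul_const _
  refine h1.congr_deriv ?_
  ring

theorem al'_vq (p : Par) {u b : R9} (hF : Flg u b) :
    al' (PP 1 1) hU (toM (vq p)) (iota u) (iota b) = 0 := by
  have hu := hF.ne
  have hs := (GE5_vq p).smooth
  have e1 : al' (PP 1 1) hU (toM (vq p)) (iota u) (iota b) =
      D2 (toM (vq p)) (iota u) (iota b) (iota (rot b)) := by
    unfold al'
    exact congrArg (D2 (toM (vq p)) (iota u) (iota b)) (PP_hU b)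
  rw [e1, D2_toM hs hu]
  have e2 : (fun y => fderiv ℝ (vq p) y (rot b)) =ᶠ[𝓝 u] fun y => Bq p y (rot b) := by
    filter_upwards [isOpen_compl_singleton.mem_nhds hu] with y hy
    exact fderiv_vq75 p hy _
  have e3 : DifferentiableAt ℝ (fun y => fderiv ℝ (vq p) y (rot b)) u := by
    have h1 : DifferentiableAt ℝ (fderiv ℝ (vq p)) u := dAt (smooth_fderiv hs) hu
    exact h1.clm_apply (differentiableAt_const _)
  rw [fderiv_line75 e3 (d := Bq p b (rot b))]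
  · unfold Bq rot
    simp only [Matrix.mulVec_zero, dotProduct_zero, zero_dotProduct, Matrix.mulVec_neg,
      dotProduct_neg, neg_dotProduct, map_neg, LinearMap.neg_apply, cross_self, neg_zero,
      add_zero, mul_zero]
    ring
  · have h1 : HasDerivAt (fun t : ℝ => Bq p u (rot b) + t * Bq p b (rot b))
        (0 + 1 * Bq p b (rot b)) 0 :=
      (hasDerivAt_const _ _).add ((hasDerivAt_id (0 : ℝ)).mul_const _)
    have h2 : HasDerivAt (fun t : ℝ => Bq p (u + t • b) (rot b)) (Bq p b (rot b)) 0 := by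
      simp only [Bq_line]
      refine h1.congr_deriv ?_
      ring
    refine h2.congr_of_eventuallyEq ?_
    have h3 : Tendsto (fun t : ℝ => u + t • b) (𝓝 0) (𝓝 u) := by
      have h4 : Continuous fun t : ℝ => u + t • b := by fun_prop
      have h5 := h4.tendsto 0
      simpa using h5
    filter_upwards [h3.eventually e2] with t ht
    exact ht

theorem al'_v0 (p : Par) {u b : R9} (hF : Flg u b) :
    al' (PP 1 1) hU (toM (v0 p)) (iota u) (iota b) = 0 := by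
  have hu := hF.ne
  have h1 := al'_vq p hF
  have h2 := (WM.winv (GE5_vN p)).al' nData2 cas2 ((flag_iff u b).2 hF)
  have e1 : toM (v0 p) = fun z => toM (vq p) z + toM (vN p) z := rfl
  have h3 : al' (PP 1 1) hU (toM (v0 p)) (iota u) (iota b) =
      al' (PP 1 1) hU (toM (vq p)) (iota u) (iota b) +
      al' (PP 1 1) hU (toM (vN p)) (iota u) (iota b) := by
    rw [e1]
    exact D2_sum (phiN_toM (GE5_vq p)).1.smooth (WM.winv (GE5_vN p)).phi.smooth (iota_ne.2 hu) _ _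
  rw [h3, h1, h2, add_zero]

/-! ### functions of degree zero -/

theorem smooth_toM {s : R9 → ℝ} (hs : ContDiffOn ℝ ∞ s {0}ᶜ) :
    ContDiffOn ℝ ∞ (toM s) ({0}ᶜ : Set (m 1 1)) := by
  refine hs.comp (iota.symm.contDiff.contDiffOn) fun z hz => ?_
  intro h0
  have h1 := congrArg iota h0
  rw [ContinuousLinearEquiv.apply_symm_apply, map_zero] at h1
  exact hz h1

theorem inv0_toM {s : R9 → ℝ} (hs : ContDiffOn ℝ ∞ s {0}ᶜ)
    (h1 : ∀ (r : ℝ) (u : R9), r ≠ 0 → s (r • u) = s u)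
    (h2 : ∀ (t : ℝ) (u : R9), s (rotH t u) = s u) : Inv0 (Sp2.H 1 1) (toM s) := by
  refine ⟨smooth_toM hs, fun r u hr => ?_, fun k hk u u' huu => ?_⟩
  · unfold toM
    rw [map_smul, h1 r _ hr]
  · obtain ⟨t, ht⟩ := Adj_iota hk
    have e1 : u' = iota (rotH t (iota.symm u)) := by
      apply Subtype.ext
      rw [huu]
      have h3 := ht (iota.symm u)
      rwa [ContinuousLinearEquiv.apply_symm_apply] at h3
    rw [e1, toM_iota, h2]
    rfl

/-! ### local dependence -/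

theorem E2_congr2 {𝔸 : Type*} [NormedRing 𝔸] [NormedAlgebra ℝ 𝔸] [FiniteDimensional ℝ 𝔸]
    {g h m' : Submodule ℝ 𝔸} {Q : 𝔸 →ₗ[ℝ] 𝔸 →ₗ[ℝ] ℝ} {P : 𝔸 →L[ℝ] m'} {φ n n' : m' → ℝ}
    (hN : NData g h m' Q P) {u : m'} (hf : n =ᶠ[𝓝 u] n') :
    E2 Q P φ n u = E2 Q P φ n' u := by
  have h1 := gx_congr hN hf
  have h2 : ∀ a b, D2 n u a b = D2 n' u a b := fun a b => (ev_D2 hf a b).self_of_nhds
  unfold E2 ee
  simp only [h1, h2]

/-- `T3(v) - E²n` in terms of the library -/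
theorem TE_eq {v n : R9 → ℝ} (hv : PhiM v) (hn : PhiM n) {u : R9} (hu : u ≠ 0) (b : R9) :
    TE v n (u, b) = T3F Q2 (PP 1 1) (toM v) (iota u) (iota b) -
      E2 Q2 (PP 1 1) (toM v) (toM n) (iota u) := by
  unfold TE T3C
  simp only
  rw [E2_toM hv hn hu]

theorem TE_congr {v v' n n' : R9 → ℝ} (hv : PhiM v) (hv' : PhiM v') (hn : PhiM n)
    (hn' : PhiM n') {u : R9} (hu : u ≠ 0) (b : R9) (h1 : v =ᶠ[𝓝 u] v') (h2 : n =ᶠ[𝓝 u] n') :
    TE v n (u, b) = TE v' n' (u, b) := by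
  rw [TE_eq hv hn hu, TE_eq hv' hn' hu, T3F_congr nData2 (eventuallyEq_toM h1),
    E2_congr nData2 (eventuallyEq_toM h1), E2_congr2 nData2 (eventuallyEq_toM h2)]

/-! ### openness -/

theorem T3F_open {𝔸 : Type*} [NormedRing 𝔸] [NormedAlgebra ℝ 𝔸] [FiniteDimensional ℝ 𝔸]
    {g h m' : Submodule ℝ 𝔸} {Q : 𝔸 →ₗ[ℝ] 𝔸 →ₗ[ℝ] ℝ} {P : 𝔸 →L[ℝ] m'}
    (hN : NData g h m' Q P) {κ : Type*} [Fintype κ] {ψ : κ → m' → ℝ}
    (hψ : ∀ i, ContDiffOn ℝ ∞ (ψ i) {0}ᶜ) {K : Set (m' × m')} (hK : IsCompact K)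
    (hK0 : ∀ p ∈ K, p.1 ≠ 0) (a0 : κ → ℝ)
    (h : ∀ p ∈ K, 0 < T3F Q P (cmb a0 ψ) p.1 p.2) :
    ∃ ε > 0, ∀ a : κ → ℝ, ‖a - a0‖ < ε → ∀ p ∈ K, 0 < T3F Q P (cmb a ψ) p.1 p.2 := by
  have h1 : ∀ᶠ a in 𝓝 a0, ∀ p ∈ K, 0 < T3F Q P (cmb a ψ) p.1 p.2 := by
    refine hK.eventually_forall_of_forall_eventually fun y hy => ?_
    have tu : Tendsto (fun z : (κ → ℝ) × (m' × m') => z.2.1) (𝓝 (a0, y)) (𝓝 y.1) :=
      (continuous_fst.comp continuous_snd).tendsto (a0, y)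
    have tb : Tendsto (fun z : (κ → ℝ) × (m' × m') => z.2.2) (𝓝 (a0, y)) (𝓝 y.2) :=
      (continuous_snd.comp continuous_snd).tendsto (a0, y)
    have ta : ∀ i, Tendsto (fun z : (κ → ℝ) × (m' × m') => z.1 i) (𝓝 (a0, y)) (𝓝 (a0 i)) :=
      fun i => ((continuous_apply i).comp continuous_fst).tendsto (a0, y)
    have J := JT.cmb hψ ta (hK0 y hy) tu
    have h2 := T3F_JT hN J tu tb
    exact h2.eventually (lt_mem_nhds (h y hy))
  obtain ⟨ε, hε, h2⟩ := Metric.eventually_nhds_iff.1 h1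
  exact ⟨ε, hε, fun a ha => h2 (by rw [dist_eq_norm]; exact ha)⟩

end Pool.Agent.FL.S2
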