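import Pool.Agent.helper75.FL.EvE2

/-!
# MP_f09395_gt, boosted layer: joint continuity in the flag and in parameters
-/

set_option linter.unusedSectionVars false

noncomputable section

namespace Pool.Agent.helper75.FL

open scoped ContDiff
open Pool.Agent.Helper93.Fin Pool.Agent.helper79.FP Pool.Agent.helper79.FR
open Filter Topology

variable {E : Type*} [NormedAddCommGroup E] [NormedSpace ℝ E]

/-- convergence of the jets of order `≤ 4` of a family of functions -/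
structure JT {ι : Type*} (l : Filter ι) (φs : ι → E → ℝ) (us : ι → E) (φ₀ : E → ℝ) (u₀ : E) :
    Prop where
  d1 : ∀ {a : ι → E} {a₀ : E}, Tendsto a l (𝓝 a₀) →
    Tendsto (fun n => D1 (φs n) (us n) (a n)) l (𝓝 (D1 φ₀ u₀ a₀))
  d2 : ∀ {a b : ι → E} {a₀ b₀ : E}, Tendsto a l (𝓝 a₀) → Tendsto b l (𝓝 b₀) →
    Tendsto (fun n => D2 (φs n) (us n) (a n) (b n)) l (𝓝 (D2 φ₀ u₀ a₀ b₀))
  d3 : ∀ {a b c : ι → E} {a₀ b₀ c₀ : E}, Tendsto a l (𝓝 a₀) → Tendsto b l (𝓝 b₀) →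
    Tendsto c l (𝓝 c₀) →
    Tendsto (fun n => D3 (φs n) (us n) (a n) (b n) (c n)) l (𝓝 (D3 φ₀ u₀ a₀ b₀ c₀))
  d4 : ∀ {a b c d : ι → E} {a₀ b₀ c₀ d₀ : E}, Tendsto a l (𝓝 a₀) → Tendsto b l (𝓝 b₀) →
    Tendsto c l (𝓝 c₀) → Tendsto d l (𝓝 d₀) →
    Tendsto (fun n => D4 (φs n) (us n) (a n) (b n) (c n) (d n)) l (𝓝 (D4 φ₀ u₀ a₀ b₀ c₀ d₀))

theorem JT.const {ι : Type*} {l : Filter ι} {φ : E → ℝ} (hφ : ContDiffOn ℝ ∞ φ {0}ᶜ)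
    {us : ι → E} {u₀ : E} (hu₀ : u₀ ≠ 0) (hu : Tendsto us l (𝓝 u₀)) :
    JT l (fun _ => φ) us φ u₀ :=
  ⟨fun ha => D1_tendsto hφ hu₀ hu ha, fun ha hb => D2_tendsto hφ hu₀ hu ha hb,
    fun ha hb hc => D3_tendsto hφ hu₀ hu ha hb hc,
    fun ha hb hc hd => D4_tendsto hφ hu₀ hu ha hb hc hd⟩

/-- linear combinations -/
def cmb {ι : Type*} [Fintype ι] (a : ι → ℝ) (ψ : ι → E → ℝ) (z : E) : ℝ := ∑ i, a i * ψ i z

section cmb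
variable {κ : Type*} [Fintype κ] {ψ : κ → E → ℝ}

theorem fd_cmb (a : κ → ℝ) (hψ : ∀ i, ContDiffOn ℝ ∞ (ψ i) {0}ᶜ) {u : E} (hu : u ≠ 0) (v : E) :
    fderiv ℝ (fun z => ∑ i, a i * ψ i z) u v = ∑ i, a i * fderiv ℝ (ψ i) u v := by
  have h1 : HasFDerivAt (fun z => ∑ i, a i * ψ i z) (∑ i, a i • fderiv ℝ (ψ i) u) u :=
    HasFDerivAt.fun_sum fun i _ => (dAt (hψ i) hu).hasFDerivAt.const_mul (a i)
  rw [h1.fderiv]
  simp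

theorem cmb_smooth (a : κ → ℝ) (hψ : ∀ i, ContDiffOn ℝ ∞ (ψ i) {0}ᶜ) :
    ContDiffOn ℝ ∞ (cmb a ψ) {0}ᶜ :=
  ContDiffOn.sum fun i _ => contDiffOn_const.mul (hψ i)

theorem cmb_D1 (a : κ → ℝ) (hψ : ∀ i, ContDiffOn ℝ ∞ (ψ i) {0}ᶜ) {u : E} (hu : u ≠ 0) (v : E) :
    D1 (cmb a ψ) u v = ∑ i, a i * D1 (ψ i) u v := fd_cmb a hψ hu v

theorem cmb_D2 (a : κ → ℝ) (hψ : ∀ i, ContDiffOn ℝ ∞ (ψ i) {0}ᶜ) {u : E} (hu : u ≠ 0)
    (v w : E) : D2 (cmb a ψ) u v w = ∑ i, a i * D2 (ψ i) u v w := by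
  rw [D2, fd_congr (fun z hz => cmb_D1 a hψ hz v) hu]
  exact fd_cmb a (fun i => D1_smooth (hψ i) v) hu w

theorem cmb_D3 (a : κ → ℝ) (hψ : ∀ i, ContDiffOn ℝ ∞ (ψ i) {0}ᶜ) {u : E} (hu : u ≠ 0)
    (v w x : E) : D3 (cmb a ψ) u v w x = ∑ i, a i * D3 (ψ i) u v w x := by
  rw [D3, fd_congr (fun z hz => cmb_D2 a hψ hz v w) hu]
  exact fd_cmb a (fun i => D2_smooth (hψ i) v w) hu x

theorem cmb_D4 (a : κ → ℝ) (hψ : ∀ i, ContDiffOn ℝ ∞ (ψ i) {0}ᶜ) {u : E} (hu : u ≠ 0)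
    (v w x y : E) : D4 (cmb a ψ) u v w x y = ∑ i, a i * D4 (ψ i) u v w x y := by
  rw [D4, fd_congr (fun z hz => cmb_D3 a hψ hz v w x) hu]
  exact fd_cmb a (fun i => D3_smooth (hψ i) v w x) hu y

theorem JT.cmb (hψ : ∀ i, ContDiffOn ℝ ∞ (ψ i) {0}ᶜ) {ι : Type*} {l : Filter ι}
    {as : ι → κ → ℝ} {a₀ : κ → ℝ} (ha : ∀ i, Tendsto (fun n => as n i) l (𝓝 (a₀ i)))
    {us : ι → E} {u₀ : E} (hu₀ : u₀ ≠ 0) (hu : Tendsto us l (𝓝 u₀)) :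
    JT l (fun n => cmb (as n) ψ) us (cmb a₀ ψ) u₀ := by
  have hne : ∀ᶠ n in l, us n ≠ 0 := hu.eventually (eventually_ne' hu₀)
  constructor
  · intro v v₀ hv
    rw [cmb_D1 _ hψ hu₀]
    refine (tendsto_finsetSum _ fun i _ => (ha i).mul (D1_tendsto (hψ i) hu₀ hu hv)).congr' ?_
    filter_upwards [hne] with n hn
    rw [cmb_D1 _ hψ hn]
  · intro v w v₀ w₀ hv hw
    rw [cmb_D2 _ hψ hu₀]
    refine (tendsto_finsetSum _ fun i _ =>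
      (ha i).mul (D2_tendsto (hψ i) hu₀ hu hv hw)).congr' ?_
    filter_upwards [hne] with n hn
    rw [cmb_D2 _ hψ hn]
  · intro v w x v₀ w₀ x₀ hv hw hx
    rw [cmb_D3 _ hψ hu₀]
    refine (tendsto_finsetSum _ fun i _ =>
      (ha i).mul (D3_tendsto (hψ i) hu₀ hu hv hw hx)).congr' ?_
    filter_upwards [hne] with n hn
    rw [cmb_D3 _ hψ hn]
  · intro v w x y v₀ w₀ x₀ y₀ hv hw hx hy
    rw [cmb_D4 _ hψ hu₀]
    refine (tendsto_finsetSum _ fun i _ =>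
      (ha i).mul (D4_tendsto (hψ i) hu₀ hu hv hw hx hy)).congr' ?_
    filter_upwards [hne] with n hn
    rw [cmb_D4 _ hψ hn]

end cmb

variable {𝔸 : Type*} [NormedRing 𝔸] [NormedAlgebra ℝ 𝔸] [FiniteDimensional ℝ 𝔸]
variable {g h m : Submodule ℝ 𝔸} {Q : 𝔸 →ₗ[ℝ] 𝔸 →ₗ[ℝ] ℝ} {P : 𝔸 →L[ℝ] m} {φ ψ n v z f k : m → ℝ}
variable {h0 : 𝔸} {B : m → 𝔸} {c : m → ℝ} {H : Subgroup 𝔸ˣ}

section
variable {ι : Type*} {l : Filter ι} {φs ns : ι → m → ℝ} {us bs : ι → m} {φ₀ n₀ : m → ℝ}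
  {u₀ b₀ : m}

theorem gx_JT (hN : NData g h m Q P) (hJ : JT l φs us φ₀ u₀) :
    Tendsto (fun n => gx Q (φs n) (us n)) l (𝓝 (gx Q φ₀ u₀)) := by
  refine solve0 hN fun w => ?_
  simp only [gx_spec hN]
  exact hJ.d1 tendsto_const_nhds

theorem gs_JT (hN : NData g h m Q P) (hJ : JT l φs us φ₀ u₀) (hb : Tendsto bs l (𝓝 b₀)) :
    Tendsto (fun n => gs Q (φs n) (us n) (bs n)) l (𝓝 (gs Q φ₀ u₀ b₀)) := by
  refine solve0 hN fun w => ?_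
  simp only [gs_spec hN]
  exact hJ.d2 hb tendsto_const_nhds

theorem gy_JT (hN : NData g h m Q P) (hJ : JT l φs us φ₀ u₀) (hb : Tendsto bs l (𝓝 b₀)) :
    Tendsto (fun n => gy Q (φs n) (us n) (bs n)) l (𝓝 (gy Q φ₀ u₀ b₀)) := by
  refine solve0 hN fun w => ?_
  simp only [gy_spec hN]
  exact hJ.d3 hb hb tendsto_const_nhds

theorem ee_JT (hN : NData g h m Q P) (hJ : JT l φs us φ₀ u₀) (hu : Tendsto us l (𝓝 u₀)) :
    Tendsto (fun n => ee Q P (φs n) (us n)) l (𝓝 (ee Q P φ₀ u₀)) :=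
  P_tendsto (P := P) (Lim5.br_tendsto (val_tendsto hu) (val_tendsto (gx_JT hN hJ)))

theorem T3F_JT (hN : NData g h m Q P) (hJ : JT l φs us φ₀ u₀) (hu : Tendsto us l (𝓝 u₀))
    (hb : Tendsto bs l (𝓝 b₀)) :
    Tendsto (fun n => T3F Q P (φs n) (us n) (bs n)) l (𝓝 (T3F Q P φ₀ u₀ b₀)) := by
  have lx := gx_JT hN hJ
  have ls := gs_JT hN hJ hb
  have ly := gy_JT hN hJ hb
  have e1 := P_tendsto (P := P) (Lim5.br_tendsto (val_tendsto hu) (val_tendsto lx))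
  have p1 := P_tendsto (P := P) (Lim5.br_tendsto (val_tendsto hb) (val_tendsto lx))
  have q1 := P_tendsto (P := P) (Lim5.br_tendsto (val_tendsto hu) (val_tendsto ls))
  have c2 : Tendsto (fun _ : ι => (2 : ℝ)) l (𝓝 2) := tendsto_const_nhds
  have r1 := P_tendsto (P := P) ((c2.smul (Lim5.br_tendsto (val_tendsto hb)
    (val_tendsto ls))).add (Lim5.br_tendsto (val_tendsto hu) (val_tendsto ly)))
  unfold T3F T3N
  exact (((((((tendsto_const_nhds.mul (hJ.d4 hb hb e1 e1)).sub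
    (hJ.d3 hb e1 ((c2.smul p1).sub q1))).add
    (tendsto_const_nhds.mul (hJ.d2 e1 r1))).sub
    (hJ.d2 p1 p1)).add (hJ.d2 p1 q1)).sub
    (hJ.d2 q1 q1)).sub
    (Lim5.Q_tendsto Q (val_tendsto (p1.sub q1))
      (Lim5.br_tendsto (val_tendsto lx) (val_tendsto ls)))).sub
    (tendsto_const_nhds.mul (Lim5.Q_tendsto Q
      (Lim5.br_tendsto (val_tendsto lx) (val_tendsto ly)) (val_tendsto e1)))

theorem E2_JT (hN : NData g h m Q P) (hJ : JT l φs us φ₀ u₀) (hJ' : JT l ns us n₀ u₀)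
    (hu : Tendsto us l (𝓝 u₀)) :
    Tendsto (fun n => E2 Q P (φs n) (ns n) (us n)) l (𝓝 (E2 Q P φ₀ n₀ u₀)) := by
  have e1 := ee_JT hN hJ hu
  have e2 := ee_JT hN hJ' hu
  unfold E2
  exact ((hJ'.d2 e1 e1).sub (hJ.d2 e1 e2)).add (Lim5.Q_tendsto Q
      (Lim5.br_tendsto (val_tendsto (gx_JT hN hJ)) (val_tendsto (gx_JT hN hJ')))
      (val_tendsto e1))

theorem al_JT (hJ : JT l φs us φ₀ u₀) (hb : Tendsto bs l (𝓝 b₀)) :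
    Tendsto (fun n => al P h0 (φs n) (us n) (bs n)) l (𝓝 (al P h0 φ₀ u₀ b₀)) :=
  hJ.d1 (h0b_tendsto hb)

theorem al'_JT (hJ : JT l φs us φ₀ u₀) (hb : Tendsto bs l (𝓝 b₀)) :
    Tendsto (fun n => al' P h0 (φs n) (us n) (bs n)) l (𝓝 (al' P h0 φ₀ u₀ b₀)) :=
  hJ.d2 hb (h0b_tendsto hb)

end

theorem kcmb_eq (a b : ℝ) (v z : m → ℝ) : kcmb a b v z = cmb ![a, b] ![v, z] := by
  funext w
  simp [kcmb, cmb, Fin.sum_univ_two]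

theorem kcmb_JT (hv : ContDiffOn ℝ ∞ v {0}ᶜ) (hz : ContDiffOn ℝ ∞ z {0}ᶜ) {ι : Type*}
    {l : Filter ι} {as bs : ι → ℝ} {a₀ b₀ : ℝ} (ha : Tendsto as l (𝓝 a₀))
    (hb : Tendsto bs l (𝓝 b₀)) {us : ι → m} {u₀ : m} (hu₀ : u₀ ≠ 0) (hu : Tendsto us l (𝓝 u₀)) :
    JT l (fun n => kcmb (as n) (bs n) v z) us (kcmb a₀ b₀ v z) u₀ := by
  simp only [kcmb_eq]
  refine JT.cmb (κ := Fin 2) (ψ := ![v, z]) (fun i => ?_) (fun i => ?_) hu₀ hu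
  · fin_cases i
    · exact hv
    · exact hz
  · fin_cases i
    · exact ha
    · exact hb

end Pool.Agent.helper75.FL
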